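import Mathlib
import Pool.Graph.R_seed8.W721.Cor.Mv
import Pool.Graph.R_seed8.H720R2.Cor.Lim

/-!
Automorphisms of the ball; copies of small parts of the library modules `TH310.Cor.Red` and
`TH310.Cor.Step`.
-/

set_option autoImplicit false

open Metric Set Filter Topology

namespace Pool.Agent.H303.CB

open Pool.Agent.W732.Cor (mv S_mv V)

variable {m : ℕ}

theorem t_mv : S_mv := Pool.Agent.W721.Cor.Mv.main

/-- `ψ` is an automorphism of the ball with inverse `φ` -/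
structure Aut (ψ φ : V m → V m) : Prop where
  d1 : DifferentiableOn ℂ ψ (ball 0 1)
  d2 : DifferentiableOn ℂ φ (ball 0 1)
  m1 : MapsTo ψ (ball 0 1) (ball 0 1)
  m2 : MapsTo φ (ball 0 1) (ball 0 1)
  i1 : ∀ z ∈ ball (0 : V m) 1, φ (ψ z) = z
  i2 : ∀ z ∈ ball (0 : V m) 1, ψ (φ z) = z

theorem Aut.symm {ψ φ : V m → V m} (h : Aut ψ φ) : Aut φ ψ := ⟨h.d2, h.d1, h.m2, h.m1, h.i2, h.i1⟩

theorem Aut.comp {ψ φ ψ' φ' : V m → V m} (h : Aut ψ φ) (h' : Aut ψ' φ') :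
    Aut (fun z => ψ (ψ' z)) (fun z => φ' (φ z)) where
  d1 := h.d1.comp h'.d1 h'.m1
  d2 := h'.d2.comp h.d2 h.m2
  m1 := h.m1.comp h'.m1
  m2 := h'.m2.comp h.m2
  i1 := fun z hz => by rw [h.i1 _ (h'.m1 hz), h'.i1 z hz]
  i2 := fun z hz => by rw [h'.i2 _ (h.m2 hz), h.i2 z hz]

theorem aut_mv (hmv : S_mv) {p : V m} (hp : ‖p‖ = 1) {a : ℂ} (ha : a ∈ ball (0 : ℂ) 1) :
    Aut (mv p a) (mv p (-a)) := by
  have ha' : -a ∈ ball (0 : ℂ) 1 := by simpa using ha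
  obtain ⟨h1, h2, h3, -, -⟩ := hmv m p hp a ha
  obtain ⟨h1', h2', h3', -, -⟩ := hmv m p hp (-a) ha'
  rw [neg_neg] at h3'
  exact ⟨h1, h1', h2, h2', h3, h3'⟩

theorem one_sub_inner {p z : V m} (hp : ‖p‖ = 1) (hz : ‖z‖ ≤ 1) {ρ : ℝ}
    (hρ : 0 ≤ ρ) (h : ρ ≤ ‖z - p‖) : ρ ^ 2 / 2 ≤ ‖(1 : ℂ) - inner ℂ p z‖ := by
  have h3 : ‖z - p‖ ^ 2 = ‖z‖ ^ 2 - 2 * (inner ℂ p z : ℂ).re + 1 := by
    rw [norm_sub_sq (𝕜 := ℂ), hp]
    have : RCLike.re (inner ℂ z p : ℂ) = (inner ℂ p z : ℂ).re :=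
      inner_re_symm (𝕜 := ℂ) _ _
    rw [this]
    ring
  have h4 : ρ ^ 2 ≤ ‖z - p‖ ^ 2 := pow_le_pow_left₀ hρ h 2
  have h5 : ‖z‖ ^ 2 ≤ 1 := by nlinarith [norm_nonneg z]
  have h6 : ((1 : ℂ) - inner ℂ p z).re ≤ ‖(1 : ℂ) - inner ℂ p z‖ := Complex.re_le_norm _
  rw [Complex.sub_re, Complex.one_re] at h6
  linarith

end Pool.Agent.H303.CB
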