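import Mathlib
import Pool.Agent.H303.CB.DichA

/-!
Corona data which are universal at a boundary point are dense.
-/

set_option autoImplicit false

open Metric Set Filter Topology

namespace Pool.Agent.H303.CB.Dich

open Pool.Agent.W732.Cor (mv S_mv V)
open Pool.Agent.H303.CB (t_mv Aut aut_mv one_sub_inner)

variable {m N : ℕ}

/-- a holomorphic function with values near `[0, 1]` which goes from `0` at `-p` to `1` at `p` -/
theorem exists_e {p : V m} (hp : ‖p‖ = 1) {η : ℝ} (hη : 0 < η) : ∃ e : V m → ℂ,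
    DifferentiableOn ℂ e (ball 0 1) ∧ Tendsto e (𝓝[ball 0 1] p) (𝓝 1) ∧
    Tendsto e (𝓝[ball 0 1] (-p)) (𝓝 0) ∧
    ∀ z ∈ ball (0 : V m) 1, 0 ≤ (e z).re ∧ (e z).re ≤ 1 ∧ |(e z).im| ≤ η := by
  obtain ⟨L, hL⟩ : ∃ L : ℝ, L = Real.pi / (2 * η) := ⟨_, rfl⟩
  have hL0 : 0 < L := by rw [hL]; have := Real.pi_pos; positivity
  obtain ⟨ρ, hρ⟩ : ∃ ρ : ℝ, ρ = (Real.exp L - 1) / (Real.exp L + 1) := ⟨_, rfl⟩
  have hE : 1 < Real.exp L := Real.one_lt_exp_iff.2 hL0
  have hρ0 : 0 < ρ := by rw [hρ]; exact div_pos (by linarith) (by linarith)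
  have hρ1 : ρ < 1 := by rw [hρ, div_lt_one (by linarith)]; linarith
  have hlog : Real.log (1 + ρ) - Real.log (1 - ρ) = L := by
    rw [← Real.log_div (by linarith) (by linarith)]
    have : (1 + ρ) / (1 - ρ) = Real.exp L := by
      rw [div_eq_iff (by linarith), hρ]
      field_simp
      ring
    rw [this, Real.log_exp]
  set lam : ℂ → ℂ := fun w => Complex.log (1 + ρ * w) - Complex.log (1 - ρ * w) with hlam
  have hre : ∀ w : ℂ, ‖w‖ ≤ 1 → 0 < (1 + (ρ : ℂ) * w).re ∧ 0 < (1 - (ρ : ℂ) * w).re := by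
    intro w hw
    have h1 := abs_le.1 ((Complex.abs_re_le_norm w).trans hw)
    constructor
    · simp
      nlinarith [h1.1, h1.2]
    · simp
      nlinarith [h1.1, h1.2]
  have hlamd : ∀ w : ℂ, ‖w‖ ≤ 1 → DifferentiableAt ℂ lam w := by
    intro w hw
    obtain ⟨h1, h2⟩ := hre w hw
    refine DifferentiableAt.sub ?_ ?_
    · exact DifferentiableAt.clog (by fun_prop) (Or.inl h1)
    · exact DifferentiableAt.clog (by fun_prop) (Or.inl h2)
  have hL' : ((2 * L : ℝ) : ℂ) ≠ 0 := by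
    have : (2 * L) ≠ 0 := by positivity
    exact_mod_cast this
  set E : ℂ → ℂ := fun w => (lam w + (L : ℂ)) / ((2 * L : ℝ) : ℂ) with hEd
  have hEdiff : ∀ w : ℂ, ‖w‖ ≤ 1 → DifferentiableAt ℂ E w := fun w hw =>
    ((hlamd w hw).add_const _).div_const _
  have hlam1 : lam 1 = (L : ℂ) := by
    rw [hlam]
    simp only [mul_one]
    have e1 : (1 + (ρ : ℂ)) = ((1 + ρ : ℝ) : ℂ) := by push_cast; rfl
    have e2 : (1 - (ρ : ℂ)) = ((1 - ρ : ℝ) : ℂ) := by push_cast; rfl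
    rw [e1, e2, ← Complex.ofReal_log (by linarith), ← Complex.ofReal_log (by linarith),
      ← Complex.ofReal_sub, hlog]
  have hlam2 : lam (-1) = -(L : ℂ) := by
    rw [hlam]
    simp only [mul_neg, mul_one, sub_neg_eq_add]
    have e1 : (1 + (ρ : ℂ)) = ((1 + ρ : ℝ) : ℂ) := by push_cast; rfl
    have e2 : (1 + -(ρ : ℂ)) = ((1 - ρ : ℝ) : ℂ) := by push_cast; ring
    rw [e1, e2, ← Complex.ofReal_log (by linarith), ← Complex.ofReal_log (by linarith),
      ← Complex.ofReal_sub, ← Complex.ofReal_neg, ← hlog]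
    congr 1
    ring
  have hE1 : E 1 = 1 := by
    rw [hEd]
    simp only
    rw [hlam1, div_eq_one_iff_eq hL']
    push_cast
    ring
  have hE2 : E (-1) = 0 := by
    rw [hEd]
    simp only
    rw [hlam2]
    simp
  have hin : Differentiable ℂ (fun z : V m => (inner ℂ p z : ℂ)) :=
    (innerSL ℂ p : V m →L[ℂ] ℂ).differentiable
  have hpp : (inner ℂ p p : ℂ) = 1 := by
    rw [inner_self_eq_norm_sq_to_K, hp]; norm_num
  have hw1 : ∀ z ∈ ball (0 : V m) 1, ‖(inner ℂ p z : ℂ)‖ ≤ 1 := by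
    intro z hz
    rw [mem_ball_zero_iff] at hz
    refine (norm_inner_le_norm _ _).trans ?_
    rw [hp, one_mul]; exact hz.le
  refine ⟨fun z => E (inner ℂ p z), ?_, ?_, ?_, ?_⟩
  · intro z hz
    exact (DifferentiableAt.comp z (hEdiff _ (hw1 z hz)) hin.differentiableAt).differentiableWithinAt
  · have h1 : ContinuousAt (fun z : V m => E (inner ℂ p z)) p := by
      refine ContinuousAt.comp (g := E) (f := fun z : V m => (inner ℂ p z : ℂ)) ?_
        hin.continuous.continuousAt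
      exact (hEdiff _ (by rw [hpp, norm_one])).continuousAt
    have h2 := h1.tendsto
    rw [hpp, hE1] at h2
    exact h2.mono_left nhdsWithin_le_nhds
  · have h1 : ContinuousAt (fun z : V m => E (inner ℂ p z)) (-p) := by
      refine ContinuousAt.comp (g := E) (f := fun z : V m => (inner ℂ p z : ℂ)) ?_
        hin.continuous.continuousAt
      exact (hEdiff _ (by rw [inner_neg_right, hpp, norm_neg, norm_one])).continuousAt
    have h2 := h1.tendsto
    rw [inner_neg_right, hpp, hE2] at h2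
    exact h2.mono_left nhdsWithin_le_nhds
  · intro z hz
    obtain ⟨w, hw⟩ : ∃ w : ℂ, w = inner ℂ p z := ⟨_, rfl⟩
    have hwn := hw1 z hz
    change 0 ≤ (E (inner ℂ p z)).re ∧ (E (inner ℂ p z)).re ≤ 1 ∧ |(E (inner ℂ p z)).im| ≤ η
    rw [← hw] at hwn ⊢
    obtain ⟨h1, h2⟩ := hre w hwn
    have b1 : ‖1 + (ρ : ℂ) * w‖ ≤ 1 + ρ := by
      refine (norm_add_le _ _).trans ?_
      rw [norm_one, norm_mul, Complex.norm_real, Real.norm_of_nonneg hρ0.le]
      nlinarith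
    have b2 : 1 - ρ ≤ ‖1 + (ρ : ℂ) * w‖ := by
      have := norm_sub_norm_le (1 : ℂ) (-((ρ : ℂ) * w))
      rw [norm_one, norm_neg, norm_mul, Complex.norm_real, Real.norm_of_nonneg hρ0.le,
        sub_neg_eq_add] at this
      nlinarith
    have b3 : ‖1 - (ρ : ℂ) * w‖ ≤ 1 + ρ := by
      refine (norm_sub_le _ _).trans ?_
      rw [norm_one, norm_mul, Complex.norm_real, Real.norm_of_nonneg hρ0.le]
      nlinarith
    have b4 : 1 - ρ ≤ ‖1 - (ρ : ℂ) * w‖ := by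
      have := norm_sub_norm_le (1 : ℂ) ((ρ : ℂ) * w)
      rw [norm_one, norm_mul, Complex.norm_real, Real.norm_of_nonneg hρ0.le] at this
      nlinarith
    have l1 := Real.log_le_log (by linarith) b1
    have l2 := Real.log_le_log (by linarith) b2
    have l3 := Real.log_le_log (by linarith) b3
    have l4 := Real.log_le_log (by linarith) b4
    have c1 : (lam w).re = Real.log ‖1 + (ρ : ℂ) * w‖ - Real.log ‖1 - (ρ : ℂ) * w‖ := by
      rw [hlam]
      simp only [Complex.sub_re, Complex.log_re]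
    have c2 : |(lam w).im| ≤ Real.pi := by
      rw [hlam]
      simp only [Complex.sub_im, Complex.log_im]
      have a1 := Complex.abs_arg_le_pi_div_two_iff.2 h1.le
      have a2 := Complex.abs_arg_le_pi_div_two_iff.2 h2.le
      have := abs_sub (Complex.arg (1 + (ρ : ℂ) * w)) (Complex.arg (1 - (ρ : ℂ) * w))
      linarith
    have d1 : (E w).re = ((lam w).re + L) / (2 * L) := by
      rw [hEd]
      simp only
      rw [Complex.div_ofReal_re, Complex.add_re, Complex.ofReal_re]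
    have d2 : (E w).im = (lam w).im / (2 * L) := by
      rw [hEd]
      simp only
      rw [Complex.div_ofReal_im, Complex.add_im, Complex.ofReal_im, add_zero]
    refine ⟨?_, ?_, ?_⟩
    · rw [d1]
      apply div_nonneg _ (by positivity)
      rw [c1]; linarith
    · rw [d1, div_le_one (by positivity), c1]
      linarith
    · rw [d2, abs_div, abs_of_pos (by positivity : 0 < 2 * L), div_le_iff₀ (by positivity)]
      have : η * (2 * L) = Real.pi := by rw [hL]; field_simp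
      rw [this]
      exact c2

theorem neBot_ball {q : V m} (hq : ‖q‖ = 1) : (𝓝[ball (0 : V m) 1] q).NeBot := by
  rw [← mem_closure_iff_nhdsWithin_neBot, closure_ball _ one_ne_zero, mem_closedBall_zero_iff]
  exact hq.le

theorem Lm_SD {δ : ℝ} {F : Fin N → V m → ℂ} (s : SD δ F) {q : V m} (hq : ‖q‖ = 1)
    {v : Fin N → ℂ} (h : Lm F q v) :
    ∃ κ : ℝ, 0 < κ ∧ (∀ j, ‖v j‖ ≤ 1 - κ) ∧ δ + κ ≤ ∑ j, ‖v j‖ := by
  obtain ⟨d, ε, hε, b⟩ := s
  have := neBot_ball hq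
  refine ⟨ε, hε, fun j => ?_, ?_⟩
  · refine le_of_tendsto (h j).norm ?_
    filter_upwards [self_mem_nhdsWithin] with z hz
    exact (b z hz).1 j
  · have h1 : Tendsto (fun z => ∑ j, ‖F j z‖) (𝓝[ball 0 1] q) (𝓝 (∑ j, ‖v j‖)) :=
      tendsto_finsetSum _ fun j _ => (h j).norm
    refine ge_of_tendsto h1 ?_
    filter_upwards [self_mem_nhdsWithin] with z hz
    exact (b z hz).2

/-- data connecting two constants -/
theorem conn {δ : ℝ} (hδ : 0 < δ) {p : V m} (hp : ‖p‖ = 1) {v v' : Fin N → ℂ} {κ : ℝ} (hκ : 0 < κ)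
    (h1 : ∀ j, ‖v j‖ ≤ 1 - κ) (h2 : ∀ j, ‖v' j‖ ≤ 1 - κ)
    (h3 : δ + κ ≤ ∑ j, ‖v j‖) (h4 : δ + κ ≤ ∑ j, ‖v' j‖) :
    ∃ F : Fin N → V m → ℂ, SD δ F ∧ Lm F p v' ∧ Lm F (-p) v := by
  have hη : ∃ η : ℝ, 0 < η ∧ Real.exp (2 * Real.pi * η) * (1 - κ + η) ≤ 1 - κ / 2 ∧
      δ + κ / 2 ≤ Real.exp (-(2 * Real.pi * η)) * (δ + κ) := by
    have c1 : Tendsto (fun η : ℝ => Real.exp (2 * Real.pi * η) * (1 - κ + η)) (𝓝 0) (𝓝 (1 - κ)) := by
      have : Continuous (fun η : ℝ => Real.exp (2 * Real.pi * η) * (1 - κ + η)) := by fun_prop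
      have h := this.tendsto 0
      simpa using h
    have c2 : Tendsto (fun η : ℝ => Real.exp (-(2 * Real.pi * η)) * (δ + κ)) (𝓝 0) (𝓝 (δ + κ)) := by
      have : Continuous (fun η : ℝ => Real.exp (-(2 * Real.pi * η)) * (δ + κ)) := by fun_prop
      have h := this.tendsto 0
      simpa using h
    have e1 := (c1.mono_left (nhdsWithin_le_nhds (s := Ioi (0 : ℝ)))).eventually_lt_const
      (show 1 - κ < 1 - κ / 2 by linarith)
    have e2 := (c2.mono_left (nhdsWithin_le_nhds (s := Ioi (0 : ℝ)))).eventually_const_lt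
      (show δ + κ / 2 < δ + κ by linarith)
    obtain ⟨η, ⟨a1, a2⟩, a3⟩ := ((e1.and e2).and self_mem_nhdsWithin).exists
    exact ⟨η, a3, a1.le, a2.le⟩
  obtain ⟨η, hη0, hη1, hη2⟩ := hη
  obtain ⟨e, e1, e2, e3, e4⟩ := exists_e hp hη0
  set α : Fin N → ℝ := fun j => Complex.arg (v j) with hα
  set α' : Fin N → ℝ := fun j => Complex.arg (v' j) with hα'
  set A : Fin N → ℂ → ℂ := fun j x =>
    Complex.exp (Complex.I * ((α j : ℂ) + x * ((α' j - α j : ℝ) : ℂ))) *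
      ((‖v j‖ : ℂ) + x * ((‖v' j‖ - ‖v j‖ : ℝ) : ℂ)) with hA
  have hAd : ∀ j, Differentiable ℂ (A j) := by
    intro j
    rw [hA]
    fun_prop
  have hA0 : ∀ j, A j 0 = v j := by
    intro j
    rw [hA]
    simp only [zero_mul, add_zero]
    rw [mul_comm Complex.I, mul_comm (Complex.exp _)]
    exact Complex.norm_mul_exp_arg_mul_I (v j)
  have hA1 : ∀ j, A j 1 = v' j := by
    intro j
    rw [hA]
    simp only [one_mul]
    have g1 : (α j : ℂ) + ((α' j - α j : ℝ) : ℂ) = (α' j : ℂ) := by push_cast; ring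
    have g2 : (‖v j‖ : ℂ) + ((‖v' j‖ - ‖v j‖ : ℝ) : ℂ) = (‖v' j‖ : ℂ) := by push_cast; ring
    rw [g1, g2, mul_comm Complex.I, mul_comm (Complex.exp _)]
    exact Complex.norm_mul_exp_arg_mul_I (v' j)
  have hnorm : ∀ j x, ‖A j x‖ = Real.exp (-(x.im * (α' j - α j))) *
      ‖(‖v j‖ : ℂ) + x * ((‖v' j‖ - ‖v j‖ : ℝ) : ℂ)‖ := by
    intro j x
    rw [hA]
    simp only
    rw [norm_mul, Complex.norm_exp]
    congr 2
    simp
  have hαb : ∀ j, |α' j - α j| ≤ 2 * Real.pi := by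
    intro j
    have a1 := Complex.abs_arg_le_pi (v j)
    have a2 := Complex.abs_arg_le_pi (v' j)
    have := abs_sub (α' j) (α j)
    rw [hα, hα'] at this ⊢
    simp only at this ⊢
    linarith
  have hexp : ∀ j, ∀ x : ℂ, |x.im| ≤ η → Real.exp (-(2 * Real.pi * η)) ≤
      Real.exp (-(x.im * (α' j - α j))) ∧
      Real.exp (-(x.im * (α' j - α j))) ≤ Real.exp (2 * Real.pi * η) := by
    intro j x hx
    have h5 : |x.im * (α' j - α j)| ≤ 2 * Real.pi * η := by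
      rw [abs_mul]
      calc |x.im| * |α' j - α j| ≤ η * (2 * Real.pi) := by
            apply mul_le_mul hx (hαb j) (abs_nonneg _) hη0.le
        _ = 2 * Real.pi * η := by ring
    obtain ⟨h6, h7⟩ := abs_le.1 h5
    exact ⟨Real.exp_le_exp.2 (by linarith), Real.exp_le_exp.2 (by linarith)⟩
  refine ⟨fun j z => A j (e z), ⟨fun j => ?_, κ / 2, by positivity, fun z hz => ⟨fun j => ?_, ?_⟩⟩,
    fun j => ?_, fun j => ?_⟩
  · exact (hAd j).comp_differentiableOn e1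
  · obtain ⟨x0, x1, y1⟩ := e4 z hz
    change ‖A j (e z)‖ ≤ 1 - κ / 2
    rw [hnorm]
    obtain ⟨g1, g2⟩ := hexp j (e z) y1
    have h5 : (‖v j‖ : ℂ) + e z * ((‖v' j‖ - ‖v j‖ : ℝ) : ℂ) =
        (((1 - (e z).re) * ‖v j‖ + (e z).re * ‖v' j‖ : ℝ) : ℂ) +
          (((e z).im * (‖v' j‖ - ‖v j‖) : ℝ) : ℂ) * Complex.I := by
      apply Complex.ext
      · simp; ring
      · simp
    have h9 : ‖(‖v j‖ : ℂ) + e z * ((‖v' j‖ - ‖v j‖ : ℝ) : ℂ)‖ ≤ 1 - κ + η := by
      rw [h5]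
      refine (norm_add_le _ _).trans ?_
      rw [norm_mul, Complex.norm_I, mul_one, Complex.norm_real, Complex.norm_real,
        Real.norm_eq_abs, Real.norm_eq_abs, abs_mul]
      have a1 := h1 j
      have a2 := h2 j
      have n1 := norm_nonneg (v j)
      have n2 := norm_nonneg (v' j)
      have h6 : |(1 - (e z).re) * ‖v j‖ + (e z).re * ‖v' j‖| ≤ 1 - κ := by
        rw [abs_of_nonneg (add_nonneg (mul_nonneg (by linarith) n1) (mul_nonneg x0 n2))]
        nlinarith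
      have h7 : |‖v' j‖ - ‖v j‖| ≤ 1 := by
        rw [abs_le]; constructor <;> linarith
      have h8 : |(e z).im| * |‖v' j‖ - ‖v j‖| ≤ η * 1 := by
        apply mul_le_mul y1 h7 (abs_nonneg _) hη0.le
      linarith
    calc Real.exp (-((e z).im * (α' j - α j))) *
          ‖(‖v j‖ : ℂ) + e z * ((‖v' j‖ - ‖v j‖ : ℝ) : ℂ)‖
        ≤ Real.exp (2 * Real.pi * η) * (1 - κ + η) := by
          apply mul_le_mul g2 h9 (norm_nonneg _) (Real.exp_pos _).le
      _ ≤ 1 - κ / 2 := hη1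
  · obtain ⟨x0, x1, y1⟩ := e4 z hz
    have h5 : ∑ j, Real.exp (-(2 * Real.pi * η)) *
        ((1 - (e z).re) * ‖v j‖ + (e z).re * ‖v' j‖) ≤ ∑ j, ‖A j (e z)‖ := by
      refine Finset.sum_le_sum fun j _ => ?_
      obtain ⟨g1, g2⟩ := hexp j (e z) y1
      rw [hnorm]
      have h6 : (1 - (e z).re) * ‖v j‖ + (e z).re * ‖v' j‖ =
          ((‖v j‖ : ℂ) + e z * ((‖v' j‖ - ‖v j‖ : ℝ) : ℂ)).re := by
        simp; ring
      have h7 : 0 ≤ (1 - (e z).re) * ‖v j‖ + (e z).re * ‖v' j‖ :=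
        add_nonneg (mul_nonneg (by linarith) (norm_nonneg _)) (mul_nonneg x0 (norm_nonneg _))
      have h8 : (1 - (e z).re) * ‖v j‖ + (e z).re * ‖v' j‖ ≤
          ‖(‖v j‖ : ℂ) + e z * ((‖v' j‖ - ‖v j‖ : ℝ) : ℂ)‖ := by
        rw [h6]
        exact Complex.re_le_norm _
      exact mul_le_mul g1 h8 h7 (Real.exp_pos _).le
    refine le_trans ?_ h5
    rw [← Finset.mul_sum, Finset.sum_add_distrib, ← Finset.mul_sum, ← Finset.mul_sum]
    refine hη2.trans ?_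
    refine mul_le_mul_of_nonneg_left ?_ (Real.exp_pos _).le
    nlinarith
  · have h5 := ((hAd j).continuous.tendsto 1).comp e2
    rw [hA1] at h5
    exact h5
  · have h5 := ((hAd j).continuous.tendsto 0).comp e3
    rw [hA0] at h5
    exact h5

/-- uniform version of `Hg_in` -/
theorem Hg_in' {F1 F2 : Fin N → V m → ℂ} {v : Fin N → ℂ} {p : V m} (hp : ‖p‖ = 1)
    (h1 : Lm F1 p v) {R : ℝ} (hR : R < 1) {ε : ℝ} (hε : 0 < ε) :
    ∃ a₀ : ℝ, 0 < a₀ ∧ a₀ < 1 ∧ ∀ a : ℝ, a₀ < a → a < 1 → ∀ z : V m, ‖z‖ ≤ R →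
      ‖mv p (a : ℂ) z - p‖ ≤ ε ∧ ∀ j, ‖Hg F1 F2 v p a j (mv p (a : ℂ) z) - F2 j z‖ ≤ ε := by
  obtain ⟨η', hη', h3⟩ := Lm_near h1 hε
  obtain ⟨a₀, h4, h5, h6⟩ := move (q := p) hp (η := 1 - R) (by linarith)
    (ε := min (η' / 2) ε) (by positivity)
  refine ⟨a₀, h4, h5, fun a ha ha1 z hzR => ?_⟩
  have hz : z ∈ ball (0 : V m) 1 := by rw [mem_ball_zero_iff]; linarith
  have A := aut_neg hp (h4.trans ha) ha1
  have h7 := h6 a ha ha1 z hz (by
    have := norm_sub_norm_le p (-z)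
    rw [norm_neg, sub_neg_eq_add, add_comm, hp] at this
    linarith)
  refine ⟨h7.trans (min_le_right _ _), fun j => ?_⟩
  have h8 := h3 (mv p (a : ℂ) z) (A.m1 hz) (by
    have := h7.trans (min_le_left _ _)
    linarith) j
  have h9 : Hg F1 F2 v p a j (mv p (a : ℂ) z) - F2 j z = F1 j (mv p (a : ℂ) z) - v j := by
    unfold Hg
    rw [A.i1 z hz]; ring
  rw [h9]
  exact h8

/-- dilations -/
theorem dil_SD {δ : ℝ} {F : Fin N → V m → ℂ} (s : SD δ F) {ρ : ℝ} (h0 : 0 < ρ) (h1 : ρ < 1) :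
    SD δ (fun j z => F j ((ρ : ℂ) • z)) ∧ ∀ q : V m, ‖q‖ = 1 →
      Lm (fun j z => F j ((ρ : ℂ) • z)) q (fun j => F j ((ρ : ℂ) • q)) := by
  obtain ⟨d, ε, hε, b⟩ := s
  have hm : ∀ z : V m, ‖z‖ ≤ 1 → (ρ : ℂ) • z ∈ ball (0 : V m) 1 := by
    intro z hz
    rw [mem_ball_zero_iff, norm_smul, Complex.norm_real, Real.norm_of_nonneg h0.le]
    nlinarith [norm_nonneg z]
  have hm' : MapsTo (fun z : V m => (ρ : ℂ) • z) (ball 0 1) (ball 0 1) := fun z hz =>
    hm z (mem_ball_zero_iff.1 hz).le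
  have hd : Differentiable ℂ (fun z : V m => (ρ : ℂ) • z) := by fun_prop
  refine ⟨⟨fun j => (d j).comp hd.differentiableOn hm', ε, hε, fun z hz => b _ (hm' hz)⟩, ?_⟩
  intro q hq j
  have h2 : ContinuousAt (F j) ((ρ : ℂ) • q) :=
    ((d j).differentiableAt (isOpen_ball.mem_nhds (hm q hq.le))).continuousAt
  have h3 : ContinuousAt (fun z : V m => F j ((ρ : ℂ) • z)) q :=
    ContinuousAt.comp (g := F j) (f := fun z : V m => (ρ : ℂ) • z) h2 hd.continuous.continuousAt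
  exact h3.tendsto.mono_left nhdsWithin_le_nhds

/-- dilations are close to the data on smaller balls -/
theorem dil_close {δ : ℝ} {F0 : Fin N → V m → ℂ} (s0 : SD δ F0) {r ε : ℝ} (hr : r < 1)
    (hε : 0 < ε) : ∃ ρ' : ℝ, 0 < ρ' ∧ ρ' < 1 ∧ ∀ z : V m, ‖z‖ ≤ r → ∀ j,
      ‖F0 j ((ρ' : ℂ) • z) - F0 j z‖ ≤ ε := by
  obtain ⟨R, hR⟩ : ∃ R : ℝ, R = (1 - max r 0) := ⟨_, rfl⟩
  have hR0 : 0 < R := by rw [hR]; have := max_lt hr one_pos; linarith
  obtain ⟨t, ht⟩ : ∃ t : ℝ, t = min (min (R / 2) (ε * R / 4)) (1 / 2) := ⟨_, rfl⟩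
  have ht0 : 0 < t := by rw [ht]; positivity
  have ht1 : t ≤ R / 2 := by rw [ht]; exact (min_le_left _ _).trans (min_le_left _ _)
  have ht2 : t ≤ ε * R / 4 := by rw [ht]; exact (min_le_left _ _).trans (min_le_right _ _)
  have ht3 : t ≤ 1 / 2 := by rw [ht]; exact min_le_right _ _
  refine ⟨1 - t, by linarith, by linarith, fun z hz j => ?_⟩
  have hzr : ‖z‖ ≤ 1 - R := by rw [hR]; have := le_max_left r 0; linarith
  have hbz : ball z R ⊆ ball (0 : V m) 1 := by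
    intro y hy
    rw [mem_ball, dist_eq_norm] at hy
    rw [mem_ball_zero_iff]
    have := norm_add_le (y - z) z
    rw [sub_add_cancel] at this
    linarith
  obtain ⟨d0, ε0, hε0, b0⟩ := s0
  have hmap : MapsTo (F0 j) (ball z R) (closedBall (F0 j z) 2) := by
    intro y hy
    rw [mem_closedBall, dist_eq_norm]
    have h1 := (b0 y (hbz hy)).1 j
    have h2 := (b0 z (hbz (mem_ball_self hR0))).1 j
    have h3 := norm_sub_le (F0 j y) (F0 j z)
    linarith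
  have hd : dist (((1 - t : ℝ) : ℂ) • z) z ≤ t := by
    rw [dist_eq_norm]
    have h1 : ((1 - t : ℝ) : ℂ) • z - z = ((-t : ℝ) : ℂ) • z := by
      push_cast
      module
    rw [h1, norm_smul, Complex.norm_real, norm_neg, Real.norm_of_nonneg ht0.le]
    have : ‖z‖ ≤ 1 := by linarith
    nlinarith [norm_nonneg z]
  have h1 := Complex.dist_le_div_mul_dist_of_mapsTo_ball ((d0 j).mono hbz) hmap
    (z := ((1 - t : ℝ) : ℂ) • z) (by rw [mem_ball]; linarith)
  rw [dist_eq_norm] at h1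
  refine h1.trans ?_
  calc 2 / R * dist (((1 - t : ℝ) : ℂ) • z) z ≤ 2 / R * (ε * R / 4) := by
        gcongr
        exact hd.trans ht2
    _ = ε / 2 := by field_simp; ring
    _ ≤ ε := by linarith

/-- **Density of universal data.** -/
theorem univ_dense {δ : ℝ} (hδ : 0 < δ) {p : V m} (hp : ‖p‖ = 1) {F0 F' : Fin N → V m → ℂ}
    (s0 : SD δ F0) (s' : SD δ F') {r ε R ε' : ℝ} (hr : r < 1) (hε : 0 < ε) (hR : R < 1)
    (hε' : 0 < ε') :
    ∃ H : Fin N → V m → ℂ, SD δ H ∧ (∀ z : V m, ‖z‖ ≤ r → ∀ j, ‖H j z - F0 j z‖ ≤ ε) ∧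
      ∃ φ ψ : V m → V m, Aut φ ψ ∧ ∀ z : V m, ‖z‖ ≤ R →
        ‖φ z - p‖ ≤ ε' ∧ ∀ j, ‖H j (φ z) - F' j z‖ ≤ ε' := by
  obtain ⟨ρ, r1, r2, r3⟩ := dil_close s' hR (show 0 < ε' / 3 by positivity)
  obtain ⟨s2, Lb⟩ := dil_SD s' r1 r2
  obtain ⟨ρ', q1, q2, q3⟩ := dil_close s0 hr (half_pos hε)
  obtain ⟨s1, L0⟩ := dil_SD s0 q1 q2
  set F1 : Fin N → V m → ℂ := fun j z => F0 j ((ρ' : ℂ) • z) with hF1
  set F2 : Fin N → V m → ℂ := fun j z => F' j ((ρ : ℂ) • z) with hF2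
  set v : Fin N → ℂ := fun j => F0 j ((ρ' : ℂ) • p) with hv
  set v' : Fin N → ℂ := fun j => F' j ((ρ : ℂ) • -p) with hv'
  have hnp : ‖-p‖ = 1 := by rw [norm_neg]; exact hp
  have L1 : Lm F1 p v := L0 p hp
  have L2 : Lm F2 (-p) v' := Lb (-p) hnp
  obtain ⟨κ1, k1, k2, k3⟩ := Lm_SD s1 hp L1
  obtain ⟨κ2, k4, k5, k6⟩ := Lm_SD s2 hnp L2
  obtain ⟨F4, s4, L4, L4'⟩ := conn hδ hp (v := v) (v' := v') (κ := min κ1 κ2) (lt_min k1 k4)
    (fun j => (k2 j).trans (by linarith [min_le_left κ1 κ2]))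
    (fun j => (k5 j).trans (by linarith [min_le_right κ1 κ2]))
    (le_trans (by linarith [min_le_left κ1 κ2]) k3)
    (le_trans (by linarith [min_le_right κ1 κ2]) k6)
  -- first gluing
  obtain ⟨a1, a11, a12, a13⟩ := Hg_SD hp s4 s2 L4 L2
  obtain ⟨a2, a21, a22, a23⟩ := Hg_in' (F2 := F2) hp L4 hR (show 0 < ε' / 3 by positivity)
  obtain ⟨a, ha⟩ : ∃ a : ℝ, a = (max a1 a2 + 1) / 2 := ⟨_, rfl⟩
  have hmx : max a1 a2 < 1 := max_lt a12 a22
  have haa1 : a1 < a := by rw [ha]; linarith [le_max_left a1 a2]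
  have haa2 : a2 < a := by rw [ha]; linarith [le_max_right a1 a2]
  have ha1 : a < 1 := by rw [ha]; linarith
  have ha0 : 0 < a := a11.trans haa1
  set H' : Fin N → V m → ℂ := Hg F4 F2 v' p a with hH'
  have s5 : SD δ H' := a13 a haa1 ha1
  have L5 : Lm H' (-p) v := Hg_Lm hp L4' L2 ha0 ha1
  have hin := a23 a haa2 ha1
  have A := aut_neg hp ha0 ha1
  -- the image of the closed ball of radius `R`
  obtain ⟨R', hR', hRR⟩ : ∃ R' : ℝ, R' < 1 ∧ ∀ z : V m, ‖z‖ ≤ R → ‖mv p (a : ℂ) z‖ ≤ R' := by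
    by_cases hne : (closedBall (0 : V m) R).Nonempty
    · have hsub : closedBall (0 : V m) R ⊆ ball 0 1 := closedBall_subset_ball hR
      obtain ⟨z0, hz0, hmax⟩ := (isCompact_closedBall (0 : V m) R).exists_isMaxOn hne
        ((A.d1.continuousOn.mono hsub).norm)
      refine ⟨‖mv p (a : ℂ) z0‖, mem_ball_zero_iff.1 (A.m1 (hsub hz0)), fun z hz => ?_⟩
      exact hmax (mem_closedBall_zero_iff.2 hz)
    · refine ⟨0, one_pos, fun z hz => ?_⟩
      exact absurd ⟨z, mem_closedBall_zero_iff.2 hz⟩ hne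
  -- second gluing
  obtain ⟨b1, b11, b12, b13⟩ := Hg_SD hp s1 s5 L1 L5
  obtain ⟨b2, b21, b22, b23⟩ := Hg_in' (F2 := H') hp L1 hR' (show 0 < ε' / 3 by positivity)
  obtain ⟨b3, b31, b32, b33⟩ := Hg_far (F1 := F1) hp L5 (η := 1 - r) (by linarith) (half_pos hε)
  obtain ⟨b, hb⟩ : ∃ b : ℝ, b = (max b1 (max b2 b3) + 1) / 2 := ⟨_, rfl⟩
  have hmx' : max b1 (max b2 b3) < 1 := max_lt b12 (max_lt b22 b32)
  have hbb1 : b1 < b := by rw [hb]; linarith [le_max_left b1 (max b2 b3)]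
  have hbb2 : b2 < b := by
    rw [hb]; linarith [le_max_right b1 (max b2 b3), le_max_left b2 b3]
  have hbb3 : b3 < b := by
    rw [hb]; linarith [le_max_right b1 (max b2 b3), le_max_right b2 b3]
  have hb1 : b < 1 := by rw [hb]; linarith
  have B := aut_neg hp (b11.trans hbb1) hb1
  refine ⟨Hg F1 H' v p b, b13 b hbb1 hb1, fun z hz j => ?_, _, _, B.comp A, fun z hz => ?_⟩
  · have hzB : z ∈ ball (0 : V m) 1 := by rw [mem_ball_zero_iff]; linarith
    have h7 := b33 b hbb3 hb1 z hzB (by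
      have := norm_sub_norm_le p z
      rw [norm_sub_rev, hp] at this
      linarith) j
    have h8 := q3 z hz j
    have h9 := norm_add_le (Hg F1 H' v p b j z - F1 j z) (F1 j z - F0 j z)
    rw [sub_add_sub_cancel] at h9
    linarith
  · obtain ⟨c1, c2⟩ := b23 b hbb2 hb1 (mv p (a : ℂ) z) (hRR z hz)
    obtain ⟨c3, c4⟩ := hin z hz
    refine ⟨c1.trans (by linarith), fun j => ?_⟩
    have h7 := c2 j
    have h8 := c4 j
    have h9 := r3 z hz j
    have h10 := norm_add₃_le (a := Hg F1 H' v p b j (mv p (b : ℂ) (mv p (a : ℂ) z)) -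
      H' j (mv p (a : ℂ) z)) (b := H' j (mv p (a : ℂ) z) - F2 j z) (c := F2 j z - F' j z)
    rw [sub_add_sub_cancel, sub_add_sub_cancel] at h10
    linarith

end Pool.Agent.H303.CB.Dich
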