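import Mathlib
import Pool.Agent.H303.CB.DichB

/-!
Generic corona data on the ball are universal; the zero-one law.
-/

set_option autoImplicit false

open Metric Set Filter Topology

namespace Pool.Agent.H303.CB.Dich

open Pool.Agent.W732.Cor (V mv)
open Pool.Agent.H720R2.Cor (ultra_lim)

variable {m N : ℕ}

/-- the space of continuous functions on the ball -/
abbrev CB (m N : ℕ) := C(ball (0 : V m) 1, Fin N → ℂ)

/-- holomorphic -/
def Hol (F : CB m N) : Prop :=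
  ∃ f : Fin N → V m → ℂ, (∀ j, DifferentiableOn ℂ (f j) (ball 0 1)) ∧
    ∀ (z : ball (0 : V m) 1) (j : Fin N), F z j = f j z

/-- corona data with constant `δ` -/
def Dat (δ : ℝ) : Set (CB m N) :=
  {F | Hol F ∧ ∀ z, (∀ j, ‖F z j‖ ≤ 1) ∧ δ ≤ ∑ j, ‖F z j‖}

/-- strict corona data -/
def Str (δ : ℝ) : Set (CB m N) :=
  {F | Hol F ∧ ∃ ε : ℝ, 0 < ε ∧ ∀ z, (∀ j, ‖F z j‖ ≤ 1 - ε) ∧ δ + ε ≤ ∑ j, ‖F z j‖}

/-- solvable on the part of the ball in `W`, with bound `M` -/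
def SolC (M : ℝ) (W : Set (V m)) (F : CB m N) : Prop :=
  ∃ g : Fin N → V m → ℂ, (∀ j, DifferentiableOn ℂ (g j) (ball 0 1 ∩ W)) ∧
    (∀ j, ∀ z ∈ ball (0 : V m) 1 ∩ W, ‖g j z‖ ≤ M) ∧
    ∀ z : ball (0 : V m) 1, (z : V m) ∈ W → ∑ j, F z j * g j z = 1

open Classical in
/-- extension by zero -/
noncomputable def ex (F : CB m N) (j : Fin N) (z : V m) : ℂ :=
  if h : z ∈ ball (0 : V m) 1 then F ⟨z, h⟩ j else 0

theorem ex_apply (F : CB m N) (j : Fin N) {z : V m} (h : z ∈ ball (0 : V m) 1) :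
    ex F j z = F ⟨z, h⟩ j := by
  unfold ex
  rw [dif_pos h]

theorem sol_iff (M : ℝ) (W : Set (V m)) (F : CB m N) : SolC M W F ↔ SolW M W (ex F) := by
  constructor
  · rintro ⟨g, g1, g2, g3⟩
    refine ⟨g, g1, g2, fun z hz => ?_⟩
    rw [← g3 ⟨z, hz.1⟩ hz.2]
    exact Finset.sum_congr rfl fun j _ => by rw [ex_apply F j hz.1]
  · rintro ⟨g, g1, g2, g3⟩
    refine ⟨g, g1, g2, fun z hz => ?_⟩
    rw [← g3 z ⟨z.2, hz⟩]
    exact Finset.sum_congr rfl fun j _ => by rw [ex_apply F j z.2]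

theorem ex_diff {F : CB m N} (h : Hol F) (j : Fin N) : DifferentiableOn ℂ (ex F j) (ball 0 1) := by
  obtain ⟨f, f1, f2⟩ := h
  refine (f1 j).congr fun z hz => ?_
  rw [ex_apply F j hz, f2]

theorem ex_SD {δ : ℝ} {F : CB m N} (h : F ∈ Str δ) : SD δ (ex F) := by
  obtain ⟨h1, ε, hε, h2⟩ := h
  refine ⟨fun j => ex_diff h1 j, ε, hε, fun z hz => ?_⟩
  simp only [ex_apply F _ hz]
  exact h2 ⟨z, hz⟩

/-- functions as elements of the space -/
noncomputable def mkC (f : Fin N → V m → ℂ) (h : ∀ j, DifferentiableOn ℂ (f j) (ball 0 1)) : CB m N :=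
  ⟨fun z j => f j z, continuous_pi fun j =>
    continuousOn_iff_continuous_domRestrict.1 (h j).continuousOn⟩

theorem mkC_apply (f : Fin N → V m → ℂ) (h : ∀ j, DifferentiableOn ℂ (f j) (ball 0 1))
    (z : ball (0 : V m) 1) (j : Fin N) : mkC f h z j = f j z := rfl

theorem mkC_Str {δ : ℝ} {f : Fin N → V m → ℂ} (s : SD δ f) : mkC f s.1 ∈ Str δ := by
  obtain ⟨d, ε, hε, b⟩ := s
  exact ⟨⟨f, d, fun z j => rfl⟩, ε, hε, fun z => b z z.2⟩

theorem mkC_sol {f : Fin N → V m → ℂ} (h : ∀ j, DifferentiableOn ℂ (f j) (ball 0 1)) (M : ℝ)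
    (W : Set (V m)) : SolC M W (mkC f h) ↔ SolW M W f := by
  constructor
  · rintro ⟨g, g1, g2, g3⟩
    exact ⟨g, g1, g2, fun z hz => g3 ⟨z, hz.1⟩ hz.2⟩
  · rintro ⟨g, g1, g2, g3⟩
    exact ⟨g, g1, g2, fun z hz => g3 z ⟨z.2, hz⟩⟩

theorem eval_tendsto {F : CB m N} {u : Ultrafilter (CB m N)} (hu : (u : Filter (CB m N)) ≤ 𝓝 F)
    {z : V m} (hz : z ∈ ball (0 : V m) 1) (j : Fin N) :
    Tendsto (fun G : CB m N => ex G j z) u (𝓝 (ex F j z)) := by
  simp only [ex_apply _ j hz]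
  have h1 : Continuous (fun G : CB m N => G ⟨z, hz⟩ j) :=
    (continuous_apply j).comp (continuous_eval_const (⟨z, hz⟩ : ball (0 : V m) 1))
  exact (h1.tendsto F).mono_left hu

theorem closed_sol (M : ℝ) {W : Set (V m)} (hW : IsOpen W) :
    IsClosed {F : CB m N | SolC M W F} := by
  rw [isClosed_iff_ultrafilter]
  intro F u hu hmem
  change SolC M W F
  rw [sol_iff]
  exact lsc u (B := ball (0 : V m) 1 ∩ W) (M := M) (fun _ => ball (0 : V m) 1 ∩ W)
    (fun G => ex G) (ex F) (by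
      have h1 : ∀ᶠ G in (u : Filter (CB m N)), SolC M W G := hmem
      filter_upwards [h1] with G hG
      exact (sol_iff M W G).1 hG)
    (by
      intro z hz
      obtain ⟨r, hr, h⟩ := Metric.isOpen_iff.1 (isOpen_ball.inter hW) z hz
      exact ⟨r, hr, Eventually.of_forall fun n => h⟩)
    (fun z hz j => eval_tendsto hu hz.1 j)

theorem closed_dat (δ : ℝ) : IsClosed (Dat δ : Set (CB m N)) := by
  rw [isClosed_iff_ultrafilter]
  intro F u hu hmem
  have hev : ∀ᶠ G in (u : Filter (CB m N)), G ∈ Dat δ := hmem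
  have hb : ∀ z, (∀ j, ‖F z j‖ ≤ 1) ∧ δ ≤ ∑ j, ‖F z j‖ := by
    intro z
    have h1 : ∀ j, Tendsto (fun G : CB m N => G z j) u (𝓝 (F z j)) := by
      intro j
      have h1 : Continuous (fun G : CB m N => G z j) :=
        (continuous_apply j).comp (continuous_eval_const z)
      exact (h1.tendsto F).mono_left hu
    constructor
    · intro j
      refine le_of_tendsto (h1 j).norm ?_
      filter_upwards [hev] with G hG
      exact (hG.2 z).1 j
    · have h2 : Tendsto (fun G : CB m N => ∑ j, ‖G z j‖) u (𝓝 (∑ j, ‖F z j‖)) :=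
        tendsto_finsetSum _ fun j _ => (h1 j).norm
      refine ge_of_tendsto h2 ?_
      filter_upwards [hev] with G hG
      exact (hG.2 z).2
  refine ⟨?_, hb⟩
  have key : ∀ j, ∃ f : V m → ℂ, DifferentiableOn ℂ f (ball 0 1) ∧ (∀ z ∈ ball (0 : V m) 1, ‖f z‖ ≤ 1) ∧
      ∀ z ∈ ball (0 : V m) 1, Tendsto (fun G : CB m N => ex G j z) u (𝓝 (f z)) := by
    intro j
    classical
    refine ultra_local u (fun G => if G ∈ Dat δ then ball (0 : V m) 1 else ∅) (fun G => ex G j) ?_ ?_ ?_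
    · intro G
      split_ifs with h
      · exact ex_diff h.1 j
      · exact differentiableOn_empty
    · intro G z hz
      split_ifs at hz with h
      · rw [ex_apply G j hz]
        exact (h.2 _).1 j
      · exact absurd hz (notMem_empty z)
    · intro z hz
      obtain ⟨r, hr, h⟩ := Metric.isOpen_iff.1 (isOpen_ball (x := (0 : V m)) (ε := 1)) z hz
      refine ⟨r, hr, ?_⟩
      filter_upwards [hev] with G hG
      rw [if_pos hG]
      exact h
  choose f f1 f2 f3 using key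
  refine ⟨f, f1, fun z j => ?_⟩
  have h1 := eval_tendsto hu z.2 j
  have h2 := tendsto_nhds_unique h1 (f3 j z z.2)
  rw [← h2, ex_apply F j z.2]

theorem str_sub (δ : ℝ) : (Str δ : Set (CB m N)) ⊆ Dat δ := by
  rintro F ⟨h1, ε, hε, h2⟩
  exact ⟨h1, fun z => ⟨fun j => ((h2 z).1 j).trans (by linarith), le_trans (by linarith) (h2 z).2⟩⟩

/-- convergence from uniform closeness on the balls of radius `r < 1` -/
theorem tendsto_CB {H : ℕ → CB m N} {F : CB m N} (h : ∀ (n : ℕ) (z : ball (0 : V m) 1),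
    ‖(z : V m)‖ ≤ 1 - 1 / ((n : ℝ) + 2) → ∀ j, ‖H n z j - F z j‖ ≤ 1 / ((n : ℝ) + 1)) :
    Tendsto H atTop (𝓝 F) := by
  refine ContinuousMap.tendsto_of_tendstoLocallyUniformly ?_
  rw [Metric.tendstoLocallyUniformly_iff]
  intro ε hε z
  have hz := z.2
  rw [mem_ball_zero_iff] at hz
  refine ⟨{y | ‖(y : V m)‖ < (1 + ‖(z : V m)‖) / 2}, ?_, ?_⟩
  · refine (isOpen_lt (by fun_prop) continuous_const).mem_nhds ?_
    change ‖(z : V m)‖ < (1 + ‖(z : V m)‖) / 2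
    linarith
  · have t1 : Tendsto (fun n : ℕ => 1 / ((n : ℝ) + 2)) atTop (𝓝 0) := by
      refine Tendsto.div_atTop tendsto_const_nhds ?_
      exact tendsto_atTop_add_const_right _ _ tendsto_natCast_atTop_atTop
    have t2 : Tendsto (fun n : ℕ => 1 / ((n : ℝ) + 1)) atTop (𝓝 0) :=
      tendsto_one_div_add_atTop_nhds_zero_nat
    filter_upwards [t1.eventually_lt_const (show (0 : ℝ) < (1 - ‖(z : V m)‖) / 2 by linarith),
      t2.eventually_lt_const hε] with n h1 h2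
    intro y hy
    have hy' : ‖(y : V m)‖ < (1 + ‖(z : V m)‖) / 2 := hy
    rw [dist_pi_lt_iff hε]
    intro j
    rw [dist_comm, dist_eq_norm]
    exact (h n y (by linarith) j).trans_lt h2

theorem dat_sub {δ δ' : ℝ} (h : δ < δ') (hδ : 0 ≤ δ') :
    (Dat δ' : Set (CB m N)) ⊆ closure (Str δ) := by
  rintro F ⟨⟨f, f1, f2⟩, hb⟩
  obtain ⟨s, hs⟩ : ∃ s : ℝ, s = min ((δ' - δ) / (2 * (δ' + 1))) (1 / 2) := ⟨_, rfl⟩
  have hs0 : 0 < s := by rw [hs]; exact lt_min (div_pos (by linarith) (by linarith)) (by norm_num)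
  have hs1 : s ≤ (δ' - δ) / (2 * (δ' + 1)) := by rw [hs]; exact min_le_left _ _
  have hs2 : s ≤ 1 / 2 := by rw [hs]; exact min_le_right _ _
  set t : ℕ → ℝ := fun n => s / ((n : ℝ) + 1) with ht
  have ht0 : ∀ n, 0 < t n := fun n => by rw [ht]; positivity
  have ht1 : ∀ n, t n ≤ s := fun n => by
    rw [ht]
    simp only
    rw [div_le_iff₀ (by positivity)]
    have : (0 : ℝ) ≤ n := Nat.cast_nonneg n
    nlinarith
  have hd : ∀ n j, DifferentiableOn ℂ (fun z => ((1 - t n : ℝ) : ℂ) * f j z) (ball 0 1) :=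
    fun n j => (f1 j).const_mul _
  have hmem : ∀ n, mkC (fun j z => ((1 - t n : ℝ) : ℂ) * f j z) (hd n) ∈ Str (m := m) δ := by
    intro n
    refine ⟨⟨_, hd n, fun z j => rfl⟩, t n, ht0 n, fun z => ⟨fun j => ?_, ?_⟩⟩
    · rw [mkC_apply, norm_mul, Complex.norm_real, Real.norm_of_nonneg (by linarith [ht1 n]), ← f2]
      have h1 := (hb z).1 j
      have h2 := norm_nonneg (F z j)
      have h3 : 0 ≤ 1 - t n := by linarith [ht1 n]
      nlinarith
    · simp only [mkC_apply, norm_mul, Complex.norm_real]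
      rw [Real.norm_of_nonneg (by linarith [ht1 n]), ← Finset.mul_sum]
      have h1 := (hb z).2
      simp only [f2] at h1
      have h2 : t n * (2 * (δ' + 1)) ≤ δ' - δ := by
        have := (ht1 n).trans hs1
        rwa [le_div_iff₀ (by linarith)] at this
      have h3 : 0 ≤ 1 - t n := by linarith [ht1 n]
      have h4 : (1 - t n) * δ' ≤ (1 - t n) * ∑ j, ‖f j z‖ := mul_le_mul_of_nonneg_left h1 h3
      have h5 := ht0 n
      nlinarith
  refine mem_closure_of_tendsto (tendsto_CB (H := fun n => mkC _ (hd n)) ?_)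
    (Eventually.of_forall hmem)
  intro n z _ j
  rw [mkC_apply, ← f2]
  have h1 : ((1 - t n : ℝ) : ℂ) * F z j - F z j = ((-t n : ℝ) : ℂ) * F z j := by push_cast; ring
  rw [h1, norm_mul, Complex.norm_real, norm_neg, Real.norm_of_nonneg (ht0 n).le]
  have h2 := (hb z).1 j
  have h3 : t n ≤ 1 / ((n : ℝ) + 1) := by
    rw [ht]
    simp only
    gcongr
    linarith
  nlinarith [norm_nonneg (F z j), ht0 n]

theorem baire (X : Set (CB m N)) (hX : IsClosed X) : BaireSpace X := by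
  have h1 : LocallyCompactSpace (ball (0 : V m) 1) := isOpen_ball.locallyCompactSpace
  have h2 : CompleteSpace X := hX.completeSpace_coe
  infer_instance

/-- automorphisms of the ball -/
def IsAut (φ : ball (0 : V m) 1 ≃ ball (0 : V m) 1) : Prop :=
  (∃ f : V m → V m, DifferentiableOn ℂ f (ball 0 1) ∧ ∀ z : ball (0 : V m) 1, (φ z : V m) = f z) ∧
    ∃ f : V m → V m, DifferentiableOn ℂ f (ball 0 1) ∧
      ∀ z : ball (0 : V m) 1, (φ.symm z : V m) = f z

/-- universal at all boundary points -/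
def Univ (X : Set (CB m N)) (F : CB m N) : Prop :=
  ∀ p : V m, ‖p‖ = 1 → ∀ F' ∈ X, ∀ r : ℝ, r < 1 → ∀ ε : ℝ, 0 < ε →
    ∃ φ : ball (0 : V m) 1 ≃ ball (0 : V m) 1, IsAut φ ∧ ∀ z : ball (0 : V m) 1, ‖(z : V m)‖ ≤ r →
      ‖(φ z : V m) - p‖ ≤ ε ∧ ∀ j, ‖F (φ z) j - F' z j‖ ≤ ε

theorem aut_equiv {φ ψ : V m → V m} (h : Pool.Agent.H303.CB.Aut φ ψ) :
    ∃ e : ball (0 : V m) 1 ≃ ball (0 : V m) 1, IsAut e ∧ ∀ z : ball (0 : V m) 1, (e z : V m) = φ z := by
  refine ⟨⟨fun z => ⟨φ z, h.m1 z.2⟩, fun z => ⟨ψ z, h.m2 z.2⟩, fun z => ?_, fun z => ?_⟩,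
    ⟨⟨φ, h.d1, fun z => rfl⟩, ⟨ψ, h.d2, fun z => rfl⟩⟩, fun z => rfl⟩
  · exact Subtype.ext (h.i1 z z.2)
  · exact Subtype.ext (h.i2 z z.2)

theorem IsAut.cont {φ : ball (0 : V m) 1 ≃ ball (0 : V m) 1} (h : IsAut φ) : Continuous φ := by
  obtain ⟨⟨f, f1, f2⟩, -⟩ := h
  rw [continuous_induced_rng]
  have h1 : Continuous (fun z : ball (0 : V m) 1 => f z) :=
    continuousOn_iff_continuous_domRestrict.1 f1.continuousOn
  have h2 : (Subtype.val ∘ φ) = fun z : ball (0 : V m) 1 => f z := by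
    funext z; exact f2 z
  rw [h2]
  exact h1

theorem near_K (F : CB m N) {K : Set (ball (0 : V m) 1)} (hK : IsCompact K) {ε : ℝ} (hε : 0 < ε) :
    {G : CB m N | ∀ z ∈ K, ∀ j, ‖G z j - F z j‖ ≤ ε} ∈ 𝓝 F := by
  have h1 : Tendsto (fun G : CB m N => G) (𝓝 F) (𝓝 F) := tendsto_id
  rw [ContinuousMap.tendsto_iff_forall_isCompact_tendstoUniformlyOn] at h1
  have h2 := h1 K hK
  rw [Metric.tendstoUniformlyOn_iff] at h2
  filter_upwards [h2 ε hε] with G hG z hz j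
  have h3 := hG z hz
  rw [dist_comm] at h3
  have h4 := (dist_le_pi_dist (G z) (F z) j).trans h3.le
  rw [dist_eq_norm] at h4
  exact h4

theorem compact_r {r : ℝ} (hr : r < 1) : IsCompact {z : ball (0 : V m) 1 | ‖(z : V m)‖ ≤ r} := by
  rw [Subtype.isCompact_iff]
  have h1 : (Subtype.val '' {z : ball (0 : V m) 1 | ‖(z : V m)‖ ≤ r}) = closedBall (0 : V m) r := by
    ext z
    constructor
    · rintro ⟨y, hy, rfl⟩
      exact mem_closedBall_zero_iff.2 hy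
    · intro hz
      have hz' := mem_closedBall_zero_iff.1 hz
      exact ⟨⟨z, mem_ball_zero_iff.2 (hz'.trans_lt hr)⟩, hz', rfl⟩
  rw [h1]
  exact isCompact_closedBall _ _

theorem univ_residual {δ : ℝ} (hδ : 0 < δ) :
    {F : closure (Str δ : Set (CB m N)) | Univ (closure (Str δ)) F.1} ∈
      residual (closure (Str δ : Set (CB m N))) := by
  have i1 : LocallyCompactSpace (ball (0 : V m) 1) := isOpen_ball.locallyCompactSpace
  obtain ⟨s, hs1, hs2⟩ := TopologicalSpace.exists_countable_dense (Str δ : Set (CB m N))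
  set 𝒟 : Set (CB m N) := Subtype.val '' s with h𝒟
  have h𝒟c : 𝒟.Countable := hs1.image _
  have h𝒟s : 𝒟 ⊆ Str δ := by
    rintro _ ⟨F, -, rfl⟩; exact F.2
  have h𝒟d : closure (Str δ : Set (CB m N)) ⊆ closure 𝒟 := by
    refine closure_minimal ?_ isClosed_closure
    intro F hF
    have h1 : (⟨F, hF⟩ : (Str δ : Set (CB m N))) ∈ closure s := hs2 _
    exact (image_closure_subset_closure_image continuous_subtype_val) ⟨_, h1, rfl⟩
  have hdense : ∀ G ∈ 𝒟, ∀ (W : Set (V m)), IsOpen W → (∃ p ∈ W, ‖p‖ = 1) → ∀ k : ℕ,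
      {F : closure (Str δ : Set (CB m N)) | ∃ φ : ball (0 : V m) 1 ≃ ball (0 : V m) 1, IsAut φ ∧
        ∀ z : ball (0 : V m) 1, ‖(z : V m)‖ ≤ 1 - 1 / ((k : ℝ) + 2) →
          (φ z : V m) ∈ W ∧ ∀ j, ‖F.1 (φ z) j - G z j‖ ≤ 1 / ((k : ℝ) + 1)} ∈
          residual (closure (Str δ : Set (CB m N))) := by
    rintro G hG W hW ⟨p, hpW, hp⟩ k
    set O := {F : closure (Str δ : Set (CB m N)) | ∃ φ : ball (0 : V m) 1 ≃ ball (0 : V m) 1,
        IsAut φ ∧ ∀ z : ball (0 : V m) 1, ‖(z : V m)‖ ≤ 1 - 1 / ((k : ℝ) + 2) →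
          (φ z : V m) ∈ W ∧ ∀ j, ‖F.1 (φ z) j - G z j‖ ≤ 1 / ((k : ℝ) + 1)} with hO
    refine mem_of_superset (residual_of_dense_open (isOpen_interior (s := O)) ?_) interior_subset
    rw [dense_iff_inter_open]
    rintro U hU ⟨⟨F, hF⟩, hFU⟩
    obtain ⟨O', hO', hOU⟩ := isOpen_induced_iff.1 hU
    have hFO : F ∈ O' := by rw [← hOU] at hFU; exact hFU
    obtain ⟨F0, hF0O, hF0⟩ := mem_closure_iff.1 hF O' hO' hFO
    obtain ⟨εW, hεW, hball⟩ := Metric.isOpen_iff.1 hW p hpW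
    obtain ⟨e, he⟩ : ∃ e : ℝ, e = min (εW / 2) (1 / (2 * ((k : ℝ) + 1))) := ⟨_, rfl⟩
    have he0 : 0 < e := by rw [he]; positivity
    have he1 : e ≤ εW / 2 := by rw [he]; exact min_le_left _ _
    have he2 : e ≤ 1 / (2 * ((k : ℝ) + 1)) := by rw [he]; exact min_le_right _ _
    have hk1 : 1 - 1 / ((k : ℝ) + 2) < 1 := by
      have : 0 < 1 / ((k : ℝ) + 2) := by positivity
      linarith
    have hex : ∀ n : ℕ, ∃ H : Fin N → V m → ℂ, SD δ H ∧
        (∀ z : V m, ‖z‖ ≤ 1 - 1 / ((n : ℝ) + 2) → ∀ j, ‖H j z - ex F0 j z‖ ≤ 1 / ((n : ℝ) + 1)) ∧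
        ∃ φ ψ : V m → V m, Pool.Agent.H303.CB.Aut φ ψ ∧
          ∀ z : V m, ‖z‖ ≤ 1 - 1 / ((k : ℝ) + 2) →
            ‖φ z - p‖ ≤ e ∧ ∀ j, ‖H j (φ z) - ex G j z‖ ≤ e := by
      intro n
      refine univ_dense hδ hp (ex_SD hF0) (ex_SD (h𝒟s hG)) ?_ (by positivity) hk1 he0
      have : 0 < 1 / ((n : ℝ) + 2) := by positivity
      linarith
    choose H H1 H2 φ ψ H3 H4 using hex
    have ht : Tendsto (fun n => mkC (H n) (H1 n).1) atTop (𝓝 F0) := by
      refine tendsto_CB ?_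
      intro n z hz j
      have := H2 n z hz j
      rw [ex_apply F0 j z.2] at this
      exact this
    obtain ⟨n, hn⟩ := (ht.eventually (hO'.mem_nhds hF0O)).exists
    have hmem : mkC (H n) (H1 n).1 ∈ closure (Str δ : Set (CB m N)) :=
      subset_closure (mkC_Str (H1 n))
    obtain ⟨E, hE1, hE2⟩ := aut_equiv (H3 n)
    refine ⟨⟨mkC (H n) (H1 n).1, hmem⟩, by rw [← hOU]; exact hn, ?_⟩
    rw [mem_interior_iff_mem_nhds]
    have hK := (compact_r (m := m) hk1).image hE1.cont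
    have hnb := near_K (mkC (H n) (H1 n).1) hK (show 0 < 1 / (2 * ((k : ℝ) + 1)) by positivity)
    refine mem_of_superset (continuous_subtype_val.continuousAt.preimage_mem_nhds hnb) ?_
    intro F1 hF1
    refine ⟨E, hE1, fun z hz => ?_⟩
    obtain ⟨c1, c2⟩ := H4 n z hz
    refine ⟨?_, fun j => ?_⟩
    · apply hball
      rw [mem_ball, dist_eq_norm, hE2]
      linarith
    · have c3 := hF1 (E z) ⟨z, hz, rfl⟩ j
      rw [mkC_apply, hE2] at c3
      have c4 := c2 j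
      rw [ex_apply G j z.2] at c4
      have c5 := norm_add_le (F1.1 (E z) j - H n j (φ n z)) (H n j (φ n z) - G ⟨z, z.2⟩ j)
      rw [sub_add_sub_cancel] at c5
      have c6 : 1 / (2 * ((k : ℝ) + 1)) + 1 / (2 * ((k : ℝ) + 1)) = 1 / ((k : ℝ) + 1) := by
        field_simp; norm_num
      have c7 : (G ⟨(z : V m), z.2⟩ : Fin N → ℂ) = G z := rfl
      rw [c7] at c4 c5
      linarith
  have hcount : (⋂ G ∈ 𝒟, ⋂ W ∈ {W ∈ TopologicalSpace.countableBasis (V m) | ∃ p ∈ W, ‖p‖ = 1},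
      ⋂ k : ℕ, {F : closure (Str δ : Set (CB m N)) | ∃ φ : ball (0 : V m) 1 ≃ ball (0 : V m) 1,
        IsAut φ ∧ ∀ z : ball (0 : V m) 1, ‖(z : V m)‖ ≤ 1 - 1 / ((k : ℝ) + 2) →
          (φ z : V m) ∈ W ∧ ∀ j, ‖F.1 (φ z) j - G z j‖ ≤ 1 / ((k : ℝ) + 1)}) ∈
        residual (closure (Str δ : Set (CB m N))) := by
    refine (countable_bInter_mem h𝒟c).2 fun G hG => ?_
    refine (countable_bInter_mem ((TopologicalSpace.countable_countableBasis (V m)).mono
      (sep_subset _ _))).2 ?_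
    rintro W ⟨hW, hp⟩
    refine countable_iInter_mem.2 fun k => ?_
    exact hdense G hG W ((TopologicalSpace.isBasis_countableBasis (V m)).isOpen hW) hp k
  refine mem_of_superset hcount ?_
  intro F hF p hp F' hF' r hr ε hε
  -- `k`
  have t1 : Tendsto (fun n : ℕ => 1 / ((n : ℝ) + 2)) atTop (𝓝 0) := by
    refine Tendsto.div_atTop tendsto_const_nhds ?_
    exact tendsto_atTop_add_const_right _ _ tendsto_natCast_atTop_atTop
  have t2 : Tendsto (fun n : ℕ => 1 / ((n : ℝ) + 1)) atTop (𝓝 0) :=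
    tendsto_one_div_add_atTop_nhds_zero_nat
  obtain ⟨k, hk1, hk2⟩ := ((t1.eventually_lt_const (show (0 : ℝ) < 1 - r by linarith)).and
    (t2.eventually_lt_const (half_pos hε))).exists
  -- `G`
  have hG : ∃ G ∈ 𝒟, ∀ z ∈ {z : ball (0 : V m) 1 | ‖(z : V m)‖ ≤ r}, ∀ j, ‖G z j - F' z j‖ ≤ ε / 2 := by
    have h1 := mem_closure_iff_nhds.1 (h𝒟d hF') _ (near_K F' (compact_r (m := m) hr) (half_pos hε))
    obtain ⟨G, hG1, hG2⟩ := h1
    exact ⟨G, hG2, hG1⟩
  obtain ⟨G, hG1, hG2⟩ := hG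
  obtain ⟨W, hW, hpW, hsub⟩ := (TopologicalSpace.isBasis_countableBasis (V m)).exists_subset_of_mem_open
    (mem_ball_self hε : p ∈ ball p ε) isOpen_ball
  rw [mem_iInter₂] at hF
  have h1 := hF G hG1
  rw [mem_iInter₂] at h1
  have h2 := h1 W ⟨hW, p, hpW, hp⟩
  rw [mem_iInter] at h2
  obtain ⟨φ, hφ1, hφ2⟩ := h2 k
  refine ⟨φ, hφ1, fun z hz => ?_⟩
  obtain ⟨c1, c2⟩ := hφ2 z (by linarith)
  refine ⟨?_, fun j => ?_⟩
  · have := hsub c1
    rw [mem_ball, dist_eq_norm] at this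
    exact this.le
  · have c3 := c2 j
    have c4 := hG2 z hz j
    have c5 := norm_add_le (F.1 (φ z) j - G z j) (G z j - F' z j)
    rw [sub_add_sub_cancel] at c5
    linarith

/-- solutions of universal data near one boundary point give solutions of all data -/
theorem univ_sol {X : Set (CB m N)} {F : CB m N} (hF : Univ X F) {W : Set (V m)} (hW : IsOpen W)
    (hp : ∃ p ∈ W, ‖p‖ = 1) {C : ℝ} (hs : SolC C W F) {F' : CB m N} (hF' : F' ∈ X) :
    SolC C univ F' := by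
  obtain ⟨p, hpW, hp1⟩ := hp
  have hex : ∀ n : ℕ, ∃ φ : ball (0 : V m) 1 ≃ ball (0 : V m) 1, IsAut φ ∧
      ∀ z : ball (0 : V m) 1, ‖(z : V m)‖ ≤ 1 - 1 / ((n : ℝ) + 2) →
      ‖(φ z : V m) - p‖ ≤ 1 / ((n : ℝ) + 1) ∧ ∀ j, ‖F (φ z) j - F' z j‖ ≤ 1 / ((n : ℝ) + 1) := by
    intro n
    refine hF p hp1 F' hF' _ ?_ _ (by positivity)
    have : 0 < 1 / ((n : ℝ) + 2) := by positivity
    linarith
  choose φ hφ1 hφ2 using hex
  choose f f1 f2 using fun n => (hφ1 n).1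
  have hfm : ∀ n, ∀ z ∈ ball (0 : V m) 1, f n z ∈ ball (0 : V m) 1 := by
    intro n z hz
    rw [← f2 n ⟨z, hz⟩]
    exact (φ n ⟨z, hz⟩).2
  have hfe : ∀ n j, ∀ z (hz : z ∈ ball (0 : V m) 1), ex F j (f n z) = F (φ n ⟨z, hz⟩) j := by
    intro n j z hz
    rw [ex_apply F j (hfm n z hz)]
    have h1 : (⟨f n z, hfm n z hz⟩ : ball (0 : V m) 1) = φ n ⟨z, hz⟩ := Subtype.ext (f2 n ⟨z, hz⟩).symm
    rw [h1]
  have t1 : Tendsto (fun n : ℕ => 1 / ((n : ℝ) + 2)) atTop (𝓝 0) := by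
    refine Tendsto.div_atTop tendsto_const_nhds ?_
    exact tendsto_atTop_add_const_right _ _ tendsto_natCast_atTop_atTop
  have t2 : Tendsto (fun n : ℕ => 1 / ((n : ℝ) + 1)) atTop (𝓝 0) :=
    tendsto_one_div_add_atTop_nhds_zero_nat
  set 𝒰 : Ultrafilter ℕ := Ultrafilter.of atTop with h𝒰
  have hle : (𝒰 : Filter ℕ) ≤ atTop := Ultrafilter.of_le _
  obtain ⟨g, g1, g2, g3⟩ := (sol_iff C W F).1 hs
  rw [sol_iff]
  obtain ⟨G, G1, G2, G3⟩ := lsc (B := ball (0 : V m) 1) (M := C) 𝒰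
    (fun n => {z | z ∈ ball (0 : V m) 1 ∧ f n z ∈ W}) (fun n j z => ex F j (f n z)) (ex F')
    (Eventually.of_forall fun n => by
      refine ⟨fun j z => g j (f n z), fun j => ?_, fun j z hz => ?_, fun z hz => ?_⟩
      · refine (g1 j).comp ((f1 n).mono fun z hz => hz.1) ?_
        intro z hz
        exact ⟨hfm n z hz.1, hz.2⟩
      · exact g2 j _ ⟨hfm n z hz.1, hz.2⟩
      · exact g3 _ ⟨hfm n z hz.1, hz.2⟩)
    (by
      intro z hz
      rw [mem_ball_zero_iff] at hz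
      obtain ⟨ε, hε, hball⟩ := Metric.isOpen_iff.1 hW p hpW
      refine ⟨(1 - ‖z‖) / 2, by linarith, ?_⟩
      filter_upwards [hle (t1.eventually_lt_const (show (0 : ℝ) < (1 - ‖z‖) / 2 by linarith)),
        hle (t2.eventually_lt_const hε)] with n h1 h2
      intro y hy
      rw [mem_ball, dist_eq_norm] at hy
      have hy1 : ‖y‖ < 1 - (1 - ‖z‖) / 2 := by
        have := norm_add_le (y - z) z
        rw [sub_add_cancel] at this
        linarith
      have hyB : y ∈ ball (0 : V m) 1 := by rw [mem_ball_zero_iff]; linarith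
      refine ⟨hyB, hball ?_⟩
      rw [mem_ball, dist_eq_norm, ← f2 n ⟨y, hyB⟩]
      exact ((hφ2 n ⟨y, hyB⟩ (by simp only; linarith)).1).trans_lt h2)
    (by
      intro z hz j
      refine Tendsto.mono_left ?_ hle
      rw [Metric.tendsto_nhds]
      intro ε hε
      have hz' := hz
      rw [mem_ball_zero_iff] at hz'
      filter_upwards [t1.eventually_lt_const (show (0 : ℝ) < 1 - ‖z‖ by linarith),
        t2.eventually_lt_const hε] with n h1 h2
      rw [dist_eq_norm, hfe n j z hz, ex_apply F' j hz]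
      exact ((hφ2 n ⟨z, hz⟩ (by simp only; linarith)).2 j).trans_lt h2)
  exact ⟨G, fun j => (G1 j).mono inter_subset_left, fun j z hz => G2 j z hz.1,
    fun z hz => G3 z hz.1⟩

/-- the zero-one law -/
theorem dichotomy {δ : ℝ} (hδ : 0 < δ) :
    (∃ C : ℝ, ∀ F ∈ closure (Str δ : Set (CB m N)), SolC C univ F) ∨
      {F : closure (Str δ : Set (CB m N)) | ∀ W : Set (V m), IsOpen W → (∃ p ∈ W, ‖p‖ = 1) →
        ∀ C : ℝ, ¬ SolC C W F.1} ∈ residual (closure (Str δ : Set (CB m N))) := by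
  by_cases hC : ∃ C : ℝ, ∀ F ∈ closure (Str δ : Set (CB m N)), SolC C univ F
  · exact Or.inl hC
  · right
    refine mem_of_superset (univ_residual hδ) ?_
    intro F hF W hW hp C hs
    exact hC ⟨C, fun F' hF' => univ_sol hF hW hp hs hF'⟩

end Pool.Agent.H303.CB.Dich
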