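import Mathlib

/-!
Statements of the parts of project CB (helper303).
-/

set_option autoImplicit false

open Metric Set Filter Topology
open scoped ContDiff

namespace Pool.Agent.H303.CB

/-- `ℂ^m` with the Euclidean norm -/
abbrev E (m : ℕ) := EuclideanSpace ℂ (Fin m)

variable {m : ℕ}

/-- the normal coordinate `w` of the point `x` -/
noncomputable def wc (p x : E m) : ℂ := 1 - inner ℂ p x

/-- the tangential part `z` of the point `x` -/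
noncomputable def zc (p x : E m) : E m := x - (inner ℂ p x : ℂ) • p

/-- T1. Second order expansion of the boundary at a farthest point. -/
def S_taylor : Prop :=
  ∀ (m : ℕ) (D : Set (E m)) (p : E m), IsOpen D → D ⊆ ball 0 1 → ‖p‖ = 1 → p ∈ closure D →
    ∀ (U : Set (E m)) (ρ : E m → ℝ), IsOpen U → p ∈ U → ContDiffOn ℝ 3 ρ U →
    (∀ x ∈ U, x ∈ D ↔ ρ x < 0) → fderiv ℝ ρ p ≠ 0 →
    ∃ (b : E m →L[ℝ] E m →L[ℝ] ℝ) (C r : ℝ), 0 ≤ C ∧ 0 < r ∧ (∀ x y, b x y = b y x) ∧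
      (∀ x ∈ D, ‖x - p‖ < r → b (x - p) (x - p) < (wc p x).re + C * ‖x - p‖ ^ 3) ∧
      (∀ x : E m, ‖x - p‖ < r → b (x - p) (x - p) + C * ‖x - p‖ ^ 3 < (wc p x).re → x ∈ D) ∧
      ∀ (z : E m) (t : ℝ), inner ℂ p z = 0 →
        (1 / 2) * (‖z‖ ^ 2 + t ^ 2) ≤
          b (z - ((t : ℂ) * Complex.I) • p) (z - ((t : ℂ) * Complex.I) • p)

/-- T2. Decomposition of a real quadratic form. -/
def S_dec : Prop :=
  ∀ (m : ℕ) (p : E m), ‖p‖ = 1 → ∀ (b : E m →L[ℝ] E m →L[ℝ] ℝ), (∀ x y, b x y = b y x) →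
    (∀ (z : E m) (t : ℝ), inner ℂ p z = 0 → (1 / 2) * (‖z‖ ^ 2 + t ^ 2) ≤
          b (z - ((t : ℂ) * Complex.I) • p) (z - ((t : ℂ) * Complex.I) • p)) →
    ∃ (B B' : E m →L[ℂ] E m) (q : E m → ℂ) (Λ : E m →L[ℂ] ℂ) (a : ℝ),
      (∀ x, B' (B x) = x) ∧ (∀ x, B (B' x) = x) ∧ ‖B p‖ = 1 ∧
      (∀ z, inner ℂ p z = 0 → inner ℂ (B p) (B z) = 0) ∧
      Differentiable ℂ q ∧ (∀ (c : ℂ) (z : E m), q (c • z) = c ^ 2 * q z) ∧
      (∃ C : ℝ, ∀ z, ‖q z‖ ≤ C * ‖z‖ ^ 2) ∧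
      ∀ (z : E m) (t : ℝ), inner ℂ p z = 0 →
        b (z - ((t : ℂ) * Complex.I) • p) (z - ((t : ℂ) * Complex.I) • p) =
          ‖B z‖ ^ 2 + (q z).re + t * (Λ z).re + a * t ^ 2

/-- The local data of `D` at the boundary point `p`. -/
structure LD (D : Set (E m)) (p : E m) (B B' : E m →L[ℂ] E m) (q : E m → ℂ)
    (Λ : E m →L[ℂ] ℂ) (a C r : ℝ) : Prop where
  op : IsOpen D
  sub : D ⊆ ball 0 1
  np : ‖p‖ = 1
  C0 : 0 ≤ C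
  r0 : 0 < r
  i1 : ∀ x, B' (B x) = x
  i2 : ∀ x, B (B' x) = x
  nB : ‖B p‖ = 1
  perp : ∀ z, inner ℂ p z = 0 → inner ℂ (B p) (B z) = 0
  qd : Differentiable ℂ q
  qh : ∀ (c : ℂ) (z : E m), q (c • z) = c ^ 2 * q z
  qb : ∀ z, ‖q z‖ ≤ C * ‖z‖ ^ 2
  pos : ∀ (z : E m) (t : ℝ), inner ℂ p z = 0 →
    (1 / 2) * (‖z‖ ^ 2 + t ^ 2) ≤ ‖B z‖ ^ 2 + (q z).re + t * (Λ z).re + a * t ^ 2
  outer : ∀ x ∈ D, ‖x - p‖ < r →
    ‖B (zc p x)‖ ^ 2 + (q (zc p x)).re + (wc p x).im * (Λ (zc p x)).re + a * (wc p x).im ^ 2 <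
      (wc p x).re * (1 + C * ‖x - p‖) + C * ‖x - p‖ * (‖zc p x‖ ^ 2 + (wc p x).im ^ 2)
  inner' : ∀ x : E m, ‖x - p‖ < r →
    ‖B (zc p x)‖ ^ 2 + (q (zc p x)).re + (wc p x).im * (Λ (zc p x)).re + a * (wc p x).im ^ 2 +
      C * ‖x - p‖ * (|(wc p x).re| + ‖zc p x‖ ^ 2 + (wc p x).im ^ 2) < (wc p x).re → x ∈ D

/-- the peak function `exp (- K w ^ β)` -/
noncomputable def nn (K β : ℝ) (w : ℂ) : ℂ := Complex.exp (-((K : ℂ) * w ^ (β : ℂ)))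

/-- the normal component of the map `F` -/
noncomputable def Wc (p : E m) (q : E m → ℂ) (Λ : E m →L[ℂ] ℂ) (K β : ℝ) (x : E m) : ℂ :=
  wc p x - nn K β (wc p x) ^ 2 * q (zc p x) +
    Complex.I * nn K β (wc p x) * wc p x * Λ (zc p x)

/-- the tangential component of the map `F` -/
noncomputable def Zc (p : E m) (K β : ℝ) (x : E m) : E m := nn K β (wc p x) • zc p x

/-- T4. The map `F` maps `D` into the Siegel domain. -/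
def S_map : Prop :=
  ∀ (m : ℕ) (D : Set (E m)) (p : E m) (B B' : E m →L[ℂ] E m) (q : E m → ℂ) (Λ : E m →L[ℂ] ℂ)
    (a C r : ℝ), LD D p B B' q Λ a C r →
    ∃ K β : ℝ, 0 < K ∧ 0 < β ∧ ∀ x ∈ D, ‖B (Zc p K β x)‖ ^ 2 < (Wc p q Λ K β x).re

/-- the approximate inverse of `F` after the dilation by `ε` -/
noncomputable def PP (p : E m) (q : E m → ℂ) (ε : ℝ) (Z : E m) (W : ℂ) : E m :=
  p + (ε : ℂ) • Z - ((ε : ℂ) ^ 2 * (W + q Z)) • p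

/-- T5. The approximate inverses map into `D`, locally uniformly. -/
def S_inv : Prop :=
  ∀ (m : ℕ) (D : Set (E m)) (p : E m) (B B' : E m →L[ℂ] E m) (q : E m → ℂ) (Λ : E m →L[ℂ] ℂ)
    (a C r : ℝ), LD D p B B' q Λ a C r → ∀ (Z₀ : E m) (W₀ : ℂ), ‖B Z₀‖ ^ 2 < W₀.re →
    ∃ η ε₀ : ℝ, 0 < η ∧ 0 < ε₀ ∧ ∀ (Z : E m) (W : ℂ) (ε : ℝ), inner ℂ p Z = 0 → ‖Z - Z₀‖ < η →
      ‖W - W₀‖ < η → 0 < ε → ε < ε₀ → PP p q ε Z W ∈ D

end Pool.Agent.H303.CB
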