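import Mathlib
import Pool.Agent.H303.CB.Stm
import Pool.Agent.H303.CB.Base

/-!
The biholomorphic map of a Siegel domain onto the ball, and the translations of the ball.
-/

set_option autoImplicit false

open Metric Set Filter Topology

namespace Pool.Agent.H303.CB

open Pool.Agent.W732.Cor (mv S_mv V)
open Pool.Agent.W721.Cor.Mv (inner_mv perp_mv den_ne inner_lt inner_pp inner_perp norm_comb norm_dec)

variable {m : ℕ}

/-- the Cayley transform -/
noncomputable def Th (B : E m →L[ℂ] E m) (p Z : E m) (W : ℂ) : E m :=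
  ((1 - W) / (1 + W)) • B p + (2 / (1 + W)) • B Z

theorem one_add_ne {W : ℂ} (h : 0 < W.re) : 1 + W ≠ 0 := by
  intro h1
  have := congrArg Complex.re h1
  simp at this
  linarith

theorem inner_Th {B : E m →L[ℂ] E m} {p Z : E m} {W : ℂ} (nB : ‖B p‖ = 1)
    (perp : (inner ℂ (B p) (B Z) : ℂ) = 0) :
    (inner ℂ (B p) (Th B p Z W) : ℂ) = (1 - W) / (1 + W) := by
  rw [Th, inner_add_right, inner_smul_right, inner_smul_right, inner_pp nB, perp]
  ring

theorem Th_ball {B : E m →L[ℂ] E m} {p Z : E m} {W : ℂ} (nB : ‖B p‖ = 1)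
    (perp : (inner ℂ (B p) (B Z) : ℂ) = 0) (h : ‖B Z‖ ^ 2 < W.re) :
    Th B p Z W ∈ ball (0 : V m) 1 := by
  have hW : 0 < W.re := lt_of_le_of_lt (sq_nonneg _) h
  have hne := one_add_ne hW
  have hpos : 0 < ‖1 + W‖ ^ 2 := by have := norm_pos_iff.2 hne; positivity
  rw [mem_ball_zero_iff]
  have h1 := norm_comb nB perp ((1 - W) / (1 + W)) (2 / (1 + W))
  have h2 : ‖Th B p Z W‖ ^ 2 < 1 := by
    rw [Th, h1, norm_div, norm_div, div_pow, div_pow, div_mul_eq_mul_div, ← add_div,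
      div_lt_one hpos]
    have e1 : ‖1 - W‖ ^ 2 = (1 - W.re) ^ 2 + W.im ^ 2 := by
      rw [Complex.sq_norm, Complex.normSq_apply]; simp; ring
    have e2 : ‖1 + W‖ ^ 2 = (1 + W.re) ^ 2 + W.im ^ 2 := by
      rw [Complex.sq_norm, Complex.normSq_apply]; simp; ring
    have e3 : ‖(2 : ℂ)‖ ^ 2 = 4 := by norm_num
    rw [e1, e2, e3]
    nlinarith
  nlinarith [norm_nonneg (Th B p Z W)]

/-- the parameter of the translation which corresponds to the dilation by `ε` -/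
noncomputable def ae (ε : ℝ) : ℝ := (1 - ε ^ 2) / (1 + ε ^ 2)

theorem ae_pos {ε : ℝ} (h0 : 0 < ε) (h1 : ε < 1) : 0 < ae ε := by
  unfold ae
  have : ε ^ 2 < 1 := by nlinarith
  apply div_pos <;> nlinarith

theorem ae_lt {ε : ℝ} (h0 : 0 < ε) : ae ε < 1 := by
  unfold ae
  rw [div_lt_one (by positivity)]
  nlinarith [sq_pos_of_pos h0]

theorem Th_mv {B : E m →L[ℂ] E m} {p Z : E m} {W : ℂ} (nB : ‖B p‖ = 1)
    (perp : (inner ℂ (B p) (B Z) : ℂ) = 0) (hW : 0 < W.re) {ε : ℝ} (h0 : 0 < ε) (h1 : ε < 1) :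
    mv (B p) (ae ε : ℂ) (Th B p Z W) = Th B p ((ε : ℂ) • Z) ((ε : ℂ) ^ 2 * W) := by
  have hne := one_add_ne hW
  have he2 : 0 < 1 + ε ^ 2 := by positivity
  have he2' : (1 + (ε : ℂ) ^ 2) ≠ 0 := by exact_mod_cast he2.ne'
  have hW' : 0 < ((ε : ℂ) ^ 2 * W).re := by
    have : ((ε : ℂ) ^ 2 * W).re = ε ^ 2 * W.re := by
      rw [← Complex.ofReal_pow, Complex.re_ofReal_mul]
    rw [this]; positivity
  have hne' := one_add_ne hW'
  have hperp' : Th B p Z W - (inner ℂ (B p) (Th B p Z W) : ℂ) • B p = (2 / (1 + W)) • B Z := by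
    rw [inner_Th nB perp, Th]
    abel
  have hs : √(1 - ‖((ae ε : ℝ) : ℂ)‖ ^ 2) = 2 * ε / (1 + ε ^ 2) := by
    rw [Complex.norm_real, Real.norm_eq_abs, sq_abs]
    have : 1 - (ae ε) ^ 2 = (2 * ε / (1 + ε ^ 2)) ^ 2 := by
      unfold ae
      field_simp
      ring
    rw [this, Real.sqrt_sq (by positivity)]
  have hae : ((ae ε : ℝ) : ℂ) = (1 - (ε : ℂ) ^ 2) / (1 + (ε : ℂ) ^ 2) := by
    unfold ae; push_cast; rfl
  have hden : 1 + ((ae ε : ℝ) : ℂ) * ((1 - W) / (1 + W)) =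
      2 * (1 + (ε : ℂ) ^ 2 * W) / ((1 + (ε : ℂ) ^ 2) * (1 + W)) := by
    rw [hae]
    field_simp
    ring
  have hnum : (1 - W) / (1 + W) + ((ae ε : ℝ) : ℂ) =
      2 * (1 - (ε : ℂ) ^ 2 * W) / ((1 + (ε : ℂ) ^ 2) * (1 + W)) := by
    rw [hae]
    field_simp
    ring
  unfold mv
  rw [hperp', inner_Th nB perp, hs, Complex.conj_ofReal, hden, hnum, Th, map_smul, smul_add,
    smul_smul, smul_smul, smul_smul, smul_smul]
  push_cast
  congr 2
  · field_simp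
  · field_simp

/-- the normal coordinate in the Siegel domain of a point of the ball -/
noncomputable def Wi (B : E m →L[ℂ] E m) (p ξ : E m) : ℂ :=
  (1 - inner ℂ (B p) ξ) / (1 + inner ℂ (B p) ξ)

/-- the tangential coordinate in the Siegel domain of a point of the ball -/
noncomputable def Zi (B B' : E m →L[ℂ] E m) (p ξ : E m) : E m :=
  (1 / (1 + inner ℂ (B p) ξ)) • B' (ξ - (inner ℂ (B p) ξ : ℂ) • B p)

theorem one_add_ne' {x : ℂ} (h : ‖x‖ < 1) : 1 + x ≠ 0 := by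
  intro h1
  have : x = -1 := by linear_combination h1
  rw [this] at h
  simp at h

theorem re_cayley {x : ℂ} (h : ‖x‖ < 1) :
    ((1 - x) / (1 + x)).re = (1 - ‖x‖ ^ 2) / ‖1 + x‖ ^ 2 := by
  have hne := one_add_ne' h
  rw [Complex.div_re, Complex.sq_norm, Complex.sq_norm, Complex.normSq_apply x,
    ← add_div]
  congr 1
  simp
  ring

section

variable {B B' : E m →L[ℂ] E m} {p : E m} (i1 : ∀ x, B' (B x) = x) (i2 : ∀ x, B (B' x) = x)
  (hp : ‖p‖ = 1) (nB : ‖B p‖ = 1) (perp : ∀ z, inner ℂ p z = 0 → inner ℂ (B p) (B z) = 0)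
include i1 i2 hp nB perp

theorem perp' {ζ : E m} (h : (inner ℂ (B p) ζ : ℂ) = 0) : (inner ℂ p (B' ζ) : ℂ) = 0 := by
  have h1 := perp (B' ζ - (inner ℂ p (B' ζ) : ℂ) • p) (inner_perp hp _)
  rw [map_sub, map_smul, i2, inner_sub_right, inner_smul_right, inner_pp nB, h] at h1
  simpa using h1

theorem perp_Zi (ξ : E m) : (inner ℂ p (Zi B B' p ξ) : ℂ) = 0 := by
  rw [Zi, inner_smul_right, perp' i1 i2 hp nB perp (inner_perp nB ξ)]
  ring

theorem siegel_i {ξ : E m} (hξ : ξ ∈ ball (0 : E m) 1) :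
    ‖B (Zi B B' p ξ)‖ ^ 2 < (Wi B p ξ).re := by
  have hx := inner_lt nB hξ
  have hne := one_add_ne' hx
  have hpos : 0 < ‖1 + (inner ℂ (B p) ξ : ℂ)‖ ^ 2 := by have := norm_pos_iff.2 hne; positivity
  have hd := norm_dec nB ξ
  have hξ1 : ‖ξ‖ ^ 2 < 1 := by
    rw [mem_ball_zero_iff] at hξ
    nlinarith [norm_nonneg ξ]
  rw [Wi, re_cayley hx, Zi, map_smul, i2, norm_smul, norm_div, norm_one, mul_pow, div_pow, one_pow,
    div_mul_eq_mul_div, one_mul]
  gcongr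
  linarith

theorem Th_i {ξ : E m} (hξ : ξ ∈ ball (0 : E m) 1) :
    Th B p (Zi B B' p ξ) (Wi B p ξ) = ξ := by
  have hx := inner_lt nB hξ
  have hne := one_add_ne' hx
  have h1 : 1 + Wi B p ξ = 2 / (1 + inner ℂ (B p) ξ) := by
    rw [Wi]; field_simp; ring
  have h2 : 1 - Wi B p ξ = 2 * inner ℂ (B p) ξ / (1 + inner ℂ (B p) ξ) := by
    rw [Wi]; field_simp; ring
  rw [Th, h1, h2, Zi, map_smul, i2, smul_smul]
  have h3 : 2 * inner ℂ (B p) ξ / (1 + inner ℂ (B p) ξ) / (2 / (1 + inner ℂ (B p) ξ)) =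
      (inner ℂ (B p) ξ : ℂ) := by field_simp
  have h4 : 2 / (2 / (1 + inner ℂ (B p) ξ)) * (1 / (1 + inner ℂ (B p) ξ)) = (1 : ℂ) := by
    field_simp
  rw [h3, h4, one_smul]
  abel

end

end Pool.Agent.H303.CB
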