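import Mathlib
import Pool.Agent.H303.CB.Th
import Pool.Agent.H303.CB.DichC

/-!
Transfer of solutions from `D` to the ball.
-/

set_option autoImplicit false

open Metric Set Filter Topology

namespace Pool.Agent.H303.CB

open Pool.Agent.W732.Cor (mv S_mv V)
open Pool.Agent.W721.Cor.Mv (inner_mv perp_mv den_ne inner_lt inner_pp inner_perp norm_comb norm_dec)

variable {m : ℕ}

theorem wc_PP {p : E m} (hp : ‖p‖ = 1) (q : E m → ℂ) (ε : ℝ) {Z : E m} (hZ : (inner ℂ p Z : ℂ) = 0)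
    (W : ℂ) : wc p (PP p q ε Z W) = (ε : ℂ) ^ 2 * (W + q Z) := by
  rw [wc, PP, inner_sub_right, inner_add_right, inner_smul_right, inner_smul_right, inner_pp hp, hZ]
  ring

theorem zc_PP {p : E m} (hp : ‖p‖ = 1) (q : E m → ℂ) (ε : ℝ) {Z : E m} (hZ : (inner ℂ p Z : ℂ) = 0)
    (W : ℂ) : zc p (PP p q ε Z W) = (ε : ℂ) • Z := by
  have h : (inner ℂ p (PP p q ε Z W) : ℂ) = 1 - (ε : ℂ) ^ 2 * (W + q Z) := by
    have := wc_PP hp q ε hZ W
    rw [wc] at this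
    linear_combination -this
  rw [zc, h, PP]
  module

/-- the map of `D` into the ball -/
noncomputable def Gm (B : E m →L[ℂ] E m) (p : E m) (q : E m → ℂ) (Λ : E m →L[ℂ] ℂ) (K β : ℝ)
    (x : E m) : E m := Th B p (Zc p K β x) (Wc p q Λ K β x)

/-- the dilated tangential coordinate -/
noncomputable def Zn (q : E m → ℂ) (K β ε : ℝ) (Z : E m) (W : ℂ) : E m :=
  nn K β ((ε : ℂ) ^ 2 * (W + q Z)) • Z

/-- the dilated normal coordinate -/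
noncomputable def Wn (q : E m → ℂ) (Λ : E m →L[ℂ] ℂ) (K β ε : ℝ) (Z : E m) (W : ℂ) : ℂ :=
  (W + q Z) - nn K β ((ε : ℂ) ^ 2 * (W + q Z)) ^ 2 * q Z +
    Complex.I * nn K β ((ε : ℂ) ^ 2 * (W + q Z)) * ε * (W + q Z) * Λ Z

theorem Zc_PP {p : E m} (hp : ‖p‖ = 1) (q : E m → ℂ) (K β ε : ℝ) {Z : E m}
    (hZ : (inner ℂ p Z : ℂ) = 0) (W : ℂ) :
    Zc p K β (PP p q ε Z W) = (ε : ℂ) • Zn q K β ε Z W := by
  rw [Zc, wc_PP hp q ε hZ, zc_PP hp q ε hZ, Zn, smul_comm]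

theorem Wc_PP {p : E m} (hp : ‖p‖ = 1) {q : E m → ℂ} (qh : ∀ (c : ℂ) (z : E m), q (c • z) = c ^ 2 * q z)
    (Λ : E m →L[ℂ] ℂ) (K β ε : ℝ) {Z : E m}
    (hZ : (inner ℂ p Z : ℂ) = 0) (W : ℂ) :
    Wc p q Λ K β (PP p q ε Z W) = (ε : ℂ) ^ 2 * Wn q Λ K β ε Z W := by
  rw [Wc, wc_PP hp q ε hZ, zc_PP hp q ε hZ, Wn, qh, map_smul, smul_eq_mul]
  ring

/-- the approximate inverse, on the ball -/
noncomputable def Pm (B B' : E m →L[ℂ] E m) (p : E m) (q : E m → ℂ) (ε : ℝ) (ξ : E m) : E m :=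
  PP p q ε (Zi B B' p ξ) (Wi B p ξ)

/-- the composition, dilated -/
noncomputable def EE (B B' : E m →L[ℂ] E m) (p : E m) (q : E m → ℂ) (Λ : E m →L[ℂ] ℂ) (K β ε : ℝ)
    (ξ : E m) : E m :=
  Th B p (Zn q K β ε (Zi B B' p ξ) (Wi B p ξ)) (Wn q Λ K β ε (Zi B B' p ξ) (Wi B p ξ))

theorem fdiv {X : Type*} [NormedAddCommGroup X] [NormedSpace ℂ X] {f g : X → ℂ} {x : X}
    (hf : DifferentiableAt ℂ f x) (hg : DifferentiableAt ℂ g x) (h : g x ≠ 0) :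
    DifferentiableAt ℂ (fun y => f y / g y) x := by
  simp only [div_eq_mul_inv]
  exact hf.fun_mul (hg.fun_inv h)

theorem diff_wc (p : E m) : Differentiable ℂ (wc p) := by
  unfold wc
  exact (innerSL ℂ p).differentiable.const_sub 1

theorem diff_zc (p : E m) : Differentiable ℂ (zc p) := by
  unfold zc
  exact differentiable_fun_id.sub ((innerSL ℂ p).differentiable.smul_const p)

theorem diff_nn (K β : ℝ) {w : ℂ} (hw : 0 < w.re) : DifferentiableAt ℂ (nn K β) w := by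
  unfold nn
  have h : w ∈ Complex.slitPlane := Or.inl hw
  exact (((differentiableAt_id.cpow_const (Or.inl hw)).const_mul _).neg).cexp

section

variable {D : Set (E m)} {p : E m} {B B' : E m →L[ℂ] E m} {q : E m → ℂ} {Λ : E m →L[ℂ] ℂ}
  {a C r : ℝ} (h : LD D p B B' q Λ a C r) {K β : ℝ}
  (hF : ∀ x ∈ D, ‖B (Zc p K β x)‖ ^ 2 < (Wc p q Λ K β x).re)
include h hF

theorem re_wc {x : E m} (hx : x ∈ D) : 0 < (wc p x).re := by
  have h1 := h.sub hx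
  have h2 := inner_lt h.np h1
  rw [wc, Complex.sub_re, Complex.one_re]
  have := Complex.re_le_norm (inner ℂ p x : ℂ)
  linarith

theorem perp_Zc (x : E m) : (inner ℂ (B p) (B (Zc p K β x)) : ℂ) = 0 := by
  rw [Zc, map_smul, inner_smul_right, zc, h.perp _ (inner_perp h.np x), mul_zero]

theorem Gm_ball {x : E m} (hx : x ∈ D) : Gm B p q Λ K β x ∈ ball (0 : E m) 1 :=
  Th_ball h.nB (perp_Zc h hF x) (hF x hx)

theorem Gm_diff : DifferentiableOn ℂ (Gm B p q Λ K β) D := by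
  intro x hx
  refine DifferentiableAt.differentiableWithinAt ?_
  have h1 : DifferentiableAt ℂ (fun x => nn K β (wc p x)) x :=
    (diff_nn K β (re_wc h hF hx)).comp x (diff_wc p x)
  have h2 : DifferentiableAt ℂ (Zc p K β) x := by
    unfold Zc
    exact h1.smul (diff_zc p x)
  have hq : DifferentiableAt ℂ (fun x => q (zc p x)) x := (h.qd _).comp x (diff_zc p x)
  have hL : DifferentiableAt ℂ (fun x => Λ (zc p x)) x := Λ.differentiableAt.comp x (diff_zc p x)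
  have h3 : DifferentiableAt ℂ (Wc p q Λ K β) x := by
    unfold Wc
    exact ((diff_wc p x).sub ((h1.pow 2).mul hq)).add
      (((h1.const_mul Complex.I).mul (diff_wc p x)).mul hL)
  have hW : 0 < (Wc p q Λ K β x).re := lt_of_le_of_lt (sq_nonneg _) (hF x hx)
  have hne := one_add_ne hW
  have h4 : DifferentiableAt ℂ (fun x => (1 - Wc p q Λ K β x) / (1 + Wc p q Λ K β x)) x :=
    fdiv (h3.const_sub 1) (h3.const_add 1) hne
  have h5 : DifferentiableAt ℂ (fun x => (2 : ℂ) / (1 + Wc p q Λ K β x)) x :=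
    fdiv (differentiableAt_const _) (h3.const_add 1) hne
  have h6 : DifferentiableAt ℂ (fun x => B (Zc p K β x)) x := B.differentiableAt.comp x h2
  exact (h4.smul_const (B p)).add (h5.smul h6)

theorem siegel_n {ε : ℝ} (h0 : 0 < ε) {Z : E m} (hZ : (inner ℂ p Z : ℂ) = 0) {W : ℂ}
    (hx : PP p q ε Z W ∈ D) : ‖B (Zn q K β ε Z W)‖ ^ 2 < (Wn q Λ K β ε Z W).re := by
  have h1 := hF _ hx
  rw [Zc_PP h.np q K β ε hZ, Wc_PP h.np h.qh Λ K β ε hZ, map_smul, norm_smul, Complex.norm_real,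
    Real.norm_eq_abs, abs_of_pos h0, mul_pow, ← Complex.ofReal_pow, Complex.re_ofReal_mul] at h1
  exact lt_of_mul_lt_mul_left h1 (sq_nonneg ε)

theorem perp_Zn {ε : ℝ} {Z : E m} (hZ : (inner ℂ p Z : ℂ) = 0) (W : ℂ) :
    (inner ℂ (B p) (B (Zn q K β ε Z W)) : ℂ) = 0 := by
  rw [Zn, map_smul, inner_smul_right, h.perp _ hZ, mul_zero]

theorem Gm_PP {ε : ℝ} (h0 : 0 < ε) (h1 : ε < 1) {Z : E m} (hZ : (inner ℂ p Z : ℂ) = 0) {W : ℂ}
    (hx : PP p q ε Z W ∈ D) : Gm B p q Λ K β (PP p q ε Z W) =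
      mv (B p) (ae ε : ℂ) (Th B p (Zn q K β ε Z W) (Wn q Λ K β ε Z W)) := by
  have h2 := siegel_n h hF h0 hZ hx
  have h3 : 0 < (Wn q Λ K β ε Z W).re := lt_of_le_of_lt (sq_nonneg _) h2
  rw [Th_mv h.nB (perp_Zn h hF hZ W) h3 h0 h1, Gm, Zc_PP h.np q K β ε hZ,
    Wc_PP h.np h.qh Λ K β ε hZ]

theorem EE_ball {ε : ℝ} (h0 : 0 < ε) {ξ : E m} (hx : Pm B B' p q ε ξ ∈ D) :
    EE B B' p q Λ K β ε ξ ∈ ball (0 : E m) 1 := by
  have hZ := perp_Zi h.i1 h.i2 h.np h.nB h.perp ξ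
  exact Th_ball h.nB (perp_Zn h hF hZ _) (siegel_n h hF h0 hZ hx)

theorem Gm_Pm {ε : ℝ} (h0 : 0 < ε) (h1 : ε < 1) {ξ : E m} (hx : Pm B B' p q ε ξ ∈ D) :
    Gm B p q Λ K β (Pm B B' p q ε ξ) = mv (B p) (ae ε : ℂ) (EE B B' p q Λ K β ε ξ) :=
  Gm_PP h hF h0 h1 (perp_Zi h.i1 h.i2 h.np h.nB h.perp ξ) hx

end

theorem nn_tendsto {K β : ℝ} (hβ : 0 < β) {ι : Type*} {l : Filter ι} {u : ι → ℂ}
    (hu : Tendsto u l (𝓝 0)) : Tendsto (fun i => nn K β (u i)) l (𝓝 1) := by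
  have h1 : Tendsto (fun i => (u i) ^ (β : ℂ)) l (𝓝 0) := by
    rw [tendsto_zero_iff_norm_tendsto_zero]
    have h2 : ∀ i, ‖(u i) ^ (β : ℂ)‖ = ‖u i‖ ^ β := by
      intro i
      rw [Complex.norm_cpow_real]
    simp only [h2]
    have h3 : Tendsto (fun i => ‖u i‖) l (𝓝 0) := by
      rw [← norm_zero (E := ℂ)]; exact hu.norm
    have h4 := h3.rpow_const (p := β) (Or.inr hβ.le)
    rwa [Real.zero_rpow hβ.ne'] at h4
  have h5 := ((h1.const_mul (K : ℂ)).neg).cexp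
  simpa [nn] using h5

theorem EE_tendsto {p : E m} {B B' : E m →L[ℂ] E m} {q : E m → ℂ} {Λ : E m →L[ℂ] ℂ}
    (i1 : ∀ x, B' (B x) = x) (i2 : ∀ x, B (B' x) = x)
    (hp : ‖p‖ = 1) (nB : ‖B p‖ = 1) (perp : ∀ z, inner ℂ p z = 0 → inner ℂ (B p) (B z) = 0)
    {K β : ℝ} (hβ : 0 < β) {ι : Type*} {l : Filter ι} {ε : ι → ℝ} (hε : Tendsto ε l (𝓝 0)) {ξ : E m}
    (hξ : ξ ∈ ball (0 : E m) 1) :
    Tendsto (fun i => EE B B' p q Λ K β (ε i) ξ) l (𝓝 ξ) := by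
  set Z := Zi B B' p ξ with hZ
  set W := Wi B p ξ with hW
  have hε' : Tendsto (fun i => ((ε i : ℝ) : ℂ)) l (𝓝 0) := by
    have := (Complex.continuous_ofReal.tendsto (0 : ℝ)).comp hε
    rw [Complex.ofReal_zero] at this
    exact this
  have hn : Tendsto (fun i => nn K β ((ε i : ℂ) ^ 2 * (W + q Z))) l (𝓝 1) := by
    apply nn_tendsto hβ
    have := (hε'.pow 2).mul_const (W + q Z)
    simpa using this
  have hZn : Tendsto (fun i => Zn q K β (ε i) Z W) l (𝓝 Z) := by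
    have := hn.smul_const Z
    simpa [Zn] using this
  have hWn : Tendsto (fun i => Wn q Λ K β (ε i) Z W) l (𝓝 W) := by
    have h1 := ((hn.pow 2).mul_const (q Z)).const_sub (W + q Z)
    have h2 := (((hn.const_mul Complex.I).mul hε').mul_const (W + q Z)).mul_const (Λ Z)
    have h3 := h1.add h2
    simpa [Wn] using h3
  have hWp : 0 < W.re := lt_of_le_of_lt (sq_nonneg _) (siegel_i i1 i2 hp nB perp hξ)
  have hne := one_add_ne hWp
  have h6 : Tendsto (fun i => Th B p (Zn q K β (ε i) Z W) (Wn q Λ K β (ε i) Z W)) l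
      (𝓝 (Th B p Z W)) := by
    unfold Th
    refine Tendsto.add ?_ ?_
    · exact ((hWn.const_sub 1).div (hWn.const_add 1) hne).smul_const _
    · exact ((tendsto_const_nhds).div (hWn.const_add 1) hne).smul
        ((B.continuous.tendsto Z).comp hZn)
  rw [Th_i i1 i2 hp nB perp hξ] at h6
  exact h6

section

variable {D : Set (E m)} {p : E m} {B B' : E m →L[ℂ] E m} {q : E m → ℂ} {Λ : E m →L[ℂ] ℂ}
  {a C r : ℝ} (h : LD D p B B' q Λ a C r)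
include h

theorem cont_Wi {ξ : E m} (hξ : ξ ∈ ball (0 : E m) 1) : DifferentiableAt ℂ (Wi B p) ξ := by
  have hne := one_add_ne' (inner_lt h.nB hξ)
  have h1 : DifferentiableAt ℂ (fun ξ : E m => (inner ℂ (B p) ξ : ℂ)) ξ :=
    (innerSL ℂ (B p)).differentiableAt
  have h4 : DifferentiableAt ℂ (fun ξ : E m => (1 - (inner ℂ (B p) ξ : ℂ)) /
      (1 + (inner ℂ (B p) ξ : ℂ))) ξ := fdiv (h1.const_sub 1) (h1.const_add 1) hne
  exact h4

theorem cont_Zi {ξ : E m} (hξ : ξ ∈ ball (0 : E m) 1) : DifferentiableAt ℂ (Zi B B' p) ξ := by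
  have hne := one_add_ne' (inner_lt h.nB hξ)
  have h1 : DifferentiableAt ℂ (fun ξ : E m => (inner ℂ (B p) ξ : ℂ)) ξ :=
    (innerSL ℂ (B p)).differentiableAt
  have h4 : DifferentiableAt ℂ (fun ξ : E m => (1 : ℂ) / (1 + (inner ℂ (B p) ξ : ℂ))) ξ :=
    fdiv (differentiableAt_const _) (h1.const_add 1) hne
  have h5 : DifferentiableAt ℂ (fun ξ : E m => ξ - (inner ℂ (B p) ξ : ℂ) • B p) ξ :=
    differentiableAt_fun_id.fun_sub (h1.smul_const (B p))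
  have h6 : DifferentiableAt ℂ (fun ξ : E m => B' (ξ - (inner ℂ (B p) ξ : ℂ) • B p)) ξ :=
    B'.differentiableAt.comp ξ h5
  exact h4.smul h6

theorem diff_Pm (ε : ℝ) {ξ : E m} (hξ : ξ ∈ ball (0 : E m) 1) :
    DifferentiableAt ℂ (Pm B B' p q ε) ξ := by
  have h1 := cont_Wi h hξ
  have h2 := cont_Zi h hξ
  have h3 : DifferentiableAt ℂ (fun ξ => q (Zi B B' p ξ)) ξ := (h.qd _).comp ξ h2
  have h4 : DifferentiableAt ℂ (fun ξ => p + (ε : ℂ) • Zi B B' p ξ) ξ :=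
    (h2.const_smul (ε : ℂ)).const_add p
  have h5 : DifferentiableAt ℂ (fun ξ => (ε : ℂ) ^ 2 * (Wi B p ξ + q (Zi B B' p ξ))) ξ :=
    (h1.fun_add h3).const_mul _
  exact h4.sub (h5.smul_const p)

/-- The approximate inverses map neighbourhoods of the points of the ball into `D` and near `p`. -/
theorem Pm_mem (hinv : S_inv) {W : Set (E m)} (hW : IsOpen W) (hpW : p ∈ W) {ξ : E m}
    (hξ : ξ ∈ ball (0 : E m) 1) : ∃ s ε₀ : ℝ, 0 < s ∧ 0 < ε₀ ∧ ball ξ s ⊆ ball 0 1 ∧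
      ∀ ε : ℝ, 0 < ε → ε < ε₀ → ∀ y ∈ ball ξ s, Pm B B' p q ε y ∈ D ∩ W := by
  obtain ⟨η, ε₁, hη, hε₁, h1⟩ := hinv m D p B B' q Λ a C r h (Zi B B' p ξ) (Wi B p ξ)
    (siegel_i h.i1 h.i2 h.np h.nB h.perp hξ)
  obtain ⟨κ, hκ, hκW⟩ := Metric.isOpen_iff.1 hW p hpW
  have c1 := (cont_Zi h hξ).continuousAt
  have c2 := (cont_Wi h hξ).continuousAt
  have c3 : ContinuousAt (fun y => ‖Zi B B' p y‖ + ‖Wi B p y + q (Zi B B' p y)‖) ξ :=
    c1.norm.add (c2.add ((h.qd.continuous.continuousAt).comp c1)).norm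
  set M := ‖Zi B B' p ξ‖ + ‖Wi B p ξ + q (Zi B B' p ξ)‖ + 1 with hM
  have hM1 : 1 ≤ M := by rw [hM]; have := norm_nonneg (Zi B B' p ξ); have := norm_nonneg (Wi B p ξ + q (Zi B B' p ξ)); linarith
  have e1 : ∀ᶠ y in 𝓝 ξ, ‖Zi B B' p y - Zi B B' p ξ‖ < η := by
    have := c1 (Metric.ball_mem_nhds _ hη)
    filter_upwards [this] with y hy
    rwa [mem_preimage, mem_ball, dist_eq_norm] at hy
  have e2 : ∀ᶠ y in 𝓝 ξ, ‖Wi B p y - Wi B p ξ‖ < η := by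
    have := c2 (Metric.ball_mem_nhds _ hη)
    filter_upwards [this] with y hy
    rwa [mem_preimage, mem_ball, dist_eq_norm] at hy
  have e3 : ∀ᶠ y in 𝓝 ξ, ‖Zi B B' p y‖ + ‖Wi B p y + q (Zi B B' p y)‖ < M :=
    c3.eventually_lt continuousAt_const (by rw [hM]; linarith)
  have e4 : ∀ᶠ y in 𝓝 ξ, y ∈ ball (0 : E m) 1 := isOpen_ball.mem_nhds hξ
  obtain ⟨s, hs, hball⟩ := Metric.eventually_nhds_iff_ball.1 ((e1.and e2).and (e3.and e4))
  refine ⟨s, min ε₁ (min 1 (κ / (2 * M))), hs, by positivity, fun y hy => (hball y hy).2.2,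
    fun ε hε0 hε y hy => ?_⟩
  obtain ⟨⟨a1, a2⟩, a3, a4⟩ := hball y hy
  have hεε : ε < ε₁ := hε.trans_le (min_le_left _ _)
  have hε1 : ε < 1 := hε.trans_le ((min_le_right _ _).trans (min_le_left _ _))
  have hε2 : ε < κ / (2 * M) := hε.trans_le ((min_le_right _ _).trans (min_le_right _ _))
  refine ⟨h1 _ _ _ (perp_Zi h.i1 h.i2 h.np h.nB h.perp y) a1 a2 hε0 hεε, hκW ?_⟩
  rw [mem_ball, dist_eq_norm, Pm, PP]
  have b1 : p + (ε : ℂ) • Zi B B' p y - ((ε : ℂ) ^ 2 * (Wi B p y + q (Zi B B' p y))) • p - p =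
      (ε : ℂ) • Zi B B' p y - ((ε : ℂ) ^ 2 * (Wi B p y + q (Zi B B' p y))) • p := by abel
  rw [b1]
  refine (norm_sub_le _ _).trans_lt ?_
  rw [norm_smul, norm_smul, h.np, norm_mul, norm_pow, Complex.norm_real, Real.norm_eq_abs,
    abs_of_pos hε0, mul_one]
  have b2 : ε ^ 2 * ‖Wi B p y + q (Zi B B' p y)‖ ≤ ε * ‖Wi B p y + q (Zi B B' p y)‖ := by
    gcongr
    nlinarith
  have b3 : ε * M < κ := by
    rw [lt_div_iff₀ (by positivity)] at hε2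
    nlinarith
  nlinarith [norm_nonneg (Zi B B' p y), norm_nonneg (Wi B p y + q (Zi B B' p y))]

/-- **Transfer.** -/
theorem transfer (hinv : S_inv) {N : ℕ} {M : ℝ} {W : Set (E m)} (hW : IsOpen W) (hpW : p ∈ W)
    {ι : Type*} (𝒰 : Ultrafilter ι) {ε : ι → ℝ} (hε0 : ∀ i, 0 < ε i)
    (hε : Tendsto ε 𝒰 (𝓝 0)) (Fs : ι → Fin N → E m → ℂ) (f : Fin N → E m → ℂ)
    (hsol : ∀ᶠ i in (𝒰 : Filter ι), ∃ g : Fin N → E m → ℂ,
      (∀ j, DifferentiableOn ℂ (g j) (D ∩ W)) ∧ (∀ j, ∀ z ∈ D ∩ W, ‖g j z‖ ≤ M) ∧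
        ∀ z ∈ D ∩ W, ∑ j, Fs i j z * g j z = 1)
    (hF : ∀ ξ ∈ ball (0 : E m) 1, ∀ j,
      Tendsto (fun i => Fs i j (Pm B B' p q (ε i) ξ)) 𝒰 (𝓝 (f j ξ))) :
    ∃ g : Fin N → E m → ℂ, (∀ j, DifferentiableOn ℂ (g j) (ball 0 1)) ∧
      (∀ j, ∀ z ∈ ball (0 : E m) 1, ‖g j z‖ ≤ M) ∧ ∀ z ∈ ball (0 : E m) 1, ∑ j, f j z * g j z = 1 := by
  refine Dich.lsc (B := ball (0 : E m) 1) (M := M) 𝒰
    (fun i => {ξ | ξ ∈ ball (0 : E m) 1 ∧ Pm B B' p q (ε i) ξ ∈ D ∩ W})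
    (fun i j ξ => Fs i j (Pm B B' p q (ε i) ξ)) f ?_ ?_ hF
  · filter_upwards [hsol] with i hi
    obtain ⟨g, g1, g2, g3⟩ := hi
    refine ⟨fun j ξ => g j (Pm B B' p q (ε i) ξ), fun j => ?_, fun j ξ hξ => g2 j _ hξ.2,
      fun ξ hξ => g3 _ hξ.2⟩
    intro ξ hξ
    have h1 : DifferentiableWithinAt ℂ (Pm B B' p q (ε i))
        {ξ | ξ ∈ ball (0 : E m) 1 ∧ Pm B B' p q (ε i) ξ ∈ D ∩ W} ξ :=
      (diff_Pm h (ε i) hξ.1).differentiableWithinAt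
    exact (g1 j _ hξ.2).comp ξ h1 (fun y hy => hy.2)
  · intro ξ hξ
    obtain ⟨s, ε₀, hs, hε₀, h1, h2⟩ := Pm_mem h hinv hW hpW hξ
    refine ⟨s, hs, ?_⟩
    filter_upwards [hε.eventually_lt_const hε₀] with i hi
    intro y hy
    exact ⟨h1 hy, h2 _ (hε0 i) hi y hy⟩

end

end Pool.Agent.H303.CB
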