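import Mathlib
import Pool.Agent.H303.CB.Base

/-!
Composition of real translations of the ball.
-/

set_option autoImplicit false

open Metric Set Filter Topology

namespace Pool.Agent.H303.CB

open Pool.Agent.W732.Cor (mv S_mv V)
open Pool.Agent.W721.Cor.Mv (inner_mv perp_mv den_ne inner_lt)

variable {m : ℕ}

theorem sc1 {a b x : ℂ} (h1 : 1 + a * x ≠ 0) (_h4 : (1 + a * b) + (a + b) * x ≠ 0)
    (h5 : 1 + a * b ≠ 0) :
    ((x + a) / (1 + a * x) + b) / (1 + b * ((x + a) / (1 + a * x))) =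
      (x + (a + b) / (1 + a * b)) / (1 + (a + b) / (1 + a * b) * x) := by
  have k1 : 1 + b * ((x + a) / (1 + a * x)) = ((1 + a * b) + (a + b) * x) / (1 + a * x) := by
    rw [eq_div_iff h1, add_mul, mul_assoc, div_mul_cancel₀ _ h1]; ring
  have k2 : 1 + (a + b) / (1 + a * b) * x = ((1 + a * b) + (a + b) * x) / (1 + a * b) := by
    rw [eq_div_iff h5, add_mul, mul_right_comm, div_mul_cancel₀ _ h5]; ring
  have k3 : (x + a) / (1 + a * x) + b = ((x + a) + b * (1 + a * x)) / (1 + a * x) := by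
    rw [eq_div_iff h1, add_mul, div_mul_cancel₀ _ h1]
  have k4 : x + (a + b) / (1 + a * b) = (x * (1 + a * b) + (a + b)) / (1 + a * b) := by
    rw [eq_div_iff h5, add_mul, div_mul_cancel₀ _ h5]
  rw [k1, k2, k3, k4, div_div_div_cancel_right₀ h1, div_div_div_cancel_right₀ h5]
  congr 1
  ring

theorem sc2 {a b x s t : ℂ} (h1 : 1 + a * x ≠ 0) (h4 : (1 + a * b) + (a + b) * x ≠ 0)
    (h5 : 1 + a * b ≠ 0) :
    s / (1 + b * ((x + a) / (1 + a * x))) * (t / (1 + a * x)) =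
      s * t / (1 + a * b) / (1 + (a + b) / (1 + a * b) * x) := by
  have k1 : 1 + b * ((x + a) / (1 + a * x)) = ((1 + a * b) + (a + b) * x) / (1 + a * x) := by
    rw [eq_div_iff h1, add_mul, mul_assoc, div_mul_cancel₀ _ h1]; ring
  have k2 : 1 + (a + b) / (1 + a * b) * x = ((1 + a * b) + (a + b) * x) / (1 + a * b) := by
    rw [eq_div_iff h5, add_mul, mul_right_comm, div_mul_cancel₀ _ h5]; ring
  rw [k1, k2, div_div_div_cancel_right₀ h5]
  generalize 1 + a * x = d at h1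
  generalize (1 + a * b) + (a + b) * x = e at h4
  field_simp

theorem mv_mv {p : V m} (hp : ‖p‖ = 1) {a b : ℝ} (ha0 : 0 < a) (ha : a < 1) (hb0 : 0 < b)
    (hb : b < 1) {z : V m} (hz : z ∈ ball (0 : V m) 1) :
    mv p (b : ℂ) (mv p (a : ℂ) z) = mv p (((a + b) / (1 + a * b) : ℝ) : ℂ) z := by
  have hab : 0 < 1 + a * b := by positivity
  have hc1 : (a + b) / (1 + a * b) < 1 := by
    rw [div_lt_one hab]; nlinarith
  have hc0 : 0 < (a + b) / (1 + a * b) := by positivity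
  have na : ‖(a : ℂ)‖ < 1 := by rw [Complex.norm_real, Real.norm_eq_abs, abs_of_pos ha0]; exact ha
  have nb : ‖(b : ℂ)‖ < 1 := by rw [Complex.norm_real, Real.norm_eq_abs, abs_of_pos hb0]; exact hb
  have nc : ‖(((a + b) / (1 + a * b) : ℝ) : ℂ)‖ < 1 := by
    rw [Complex.norm_real, Real.norm_eq_abs, abs_of_pos hc0]; exact hc1
  have hx := inner_lt hp hz
  have hd1 := den_ne na hx
  have hmz : mv p (a : ℂ) z ∈ ball (0 : V m) 1 :=
    (aut_mv t_mv hp (by rwa [mem_ball_zero_iff])).m1 hz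
  have hx' := inner_lt hp hmz
  have hd2 := den_ne nb hx'
  have hd3 := den_ne nc hx
  rw [inner_mv hp] at hd2
  simp only [Complex.conj_ofReal] at hd1 hd2 hd3
  set x : ℂ := inner ℂ p z with hxdef
  have hab' : (1 + (a : ℂ) * b) ≠ 0 := by
    have : ((1 + a * b : ℝ) : ℂ) ≠ 0 := by exact_mod_cast hab.ne'
    simpa using this
  have hd4 : (1 + (a : ℂ) * b) + (a + b) * x ≠ 0 := by
    intro h
    apply hd3
    push_cast
    field_simp
    linear_combination h
  -- scalar identities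
  have e1 : (inner ℂ p (mv p (b : ℂ) (mv p (a : ℂ) z)) : ℂ) =
      inner ℂ p (mv p (((a + b) / (1 + a * b) : ℝ) : ℂ) z) := by
    rw [inner_mv hp, inner_mv hp, inner_mv hp]
    simp only [Complex.conj_ofReal, ← hxdef]
    push_cast
    exact sc1 hd1 hd4 hab'
  have e2 : mv p (b : ℂ) (mv p (a : ℂ) z) - (inner ℂ p (mv p (b : ℂ) (mv p (a : ℂ) z)) : ℂ) • p =
      mv p (((a + b) / (1 + a * b) : ℝ) : ℂ) z -
        (inner ℂ p (mv p (((a + b) / (1 + a * b) : ℝ) : ℂ) z) : ℂ) • p := by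
    rw [perp_mv hp, perp_mv hp, perp_mv hp, smul_smul]
    congr 1
    rw [inner_mv hp]
    simp only [Complex.conj_ofReal, ← hxdef]
    have hs : √(1 - ‖(((a + b) / (1 + a * b) : ℝ) : ℂ)‖ ^ 2) =
        √(1 - ‖(b : ℂ)‖ ^ 2) * √(1 - ‖(a : ℂ)‖ ^ 2) / (1 + a * b) := by
      rw [Complex.norm_real, Complex.norm_real, Complex.norm_real, Real.norm_eq_abs,
        Real.norm_eq_abs, Real.norm_eq_abs, sq_abs, sq_abs, sq_abs]
      have h1 : 1 - ((a + b) / (1 + a * b)) ^ 2 =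
          ((1 - b ^ 2) * (1 - a ^ 2)) / (1 + a * b) ^ 2 := by
        field_simp
        ring
      rw [h1, Real.sqrt_div (by nlinarith [mul_pos (show 0 < 1 - b ^ 2 by nlinarith) (show 0 < 1 - a ^ 2 by nlinarith)]), Real.sqrt_mul (by nlinarith),
        Real.sqrt_sq hab.le]
    rw [hs]
    push_cast
    exact sc2 hd1 hd4 hab'
  have h1 : mv p (b : ℂ) (mv p (a : ℂ) z) =
      (mv p (b : ℂ) (mv p (a : ℂ) z) - (inner ℂ p (mv p (b : ℂ) (mv p (a : ℂ) z)) : ℂ) • p) +
        (inner ℂ p (mv p (b : ℂ) (mv p (a : ℂ) z)) : ℂ) • p := by rw [sub_add_cancel]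
  rw [h1, e2, e1, sub_add_cancel]

end Pool.Agent.H303.CB
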