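import Mathlib
import Pool.Agent.H303.CB.DichC
import Pool.Agent.H303.CB.Mv2

/-!
Generic corona data are universal with respect to the real translations along one complex geodesic.
This is a variant of `Dich.univ_dense` and `Dich.univ_residual`.
-/

set_option autoImplicit false

open Metric Set Filter Topology

namespace Pool.Agent.H303.CB.Dich

open Pool.Agent.W732.Cor (mv S_mv V)
open Pool.Agent.H303.CB (t_mv Aut aut_mv one_sub_inner mv_mv)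

variable {m N : ℕ}

/-- Density of universal data, with real translations. -/
theorem univ_dense' {δ : ℝ} (hδ : 0 < δ) {p : V m} (hp : ‖p‖ = 1) {F0 F' : Fin N → V m → ℂ}
    (s0 : SD δ F0) (s' : SD δ F') {r ε R ε' a0 : ℝ} (hr : r < 1) (hε : 0 < ε) (hR : R < 1)
    (hε' : 0 < ε') (ha0 : a0 < 1) :
    ∃ H : Fin N → V m → ℂ, SD δ H ∧ (∀ z : V m, ‖z‖ ≤ r → ∀ j, ‖H j z - F0 j z‖ ≤ ε) ∧
      ∃ c : ℝ, a0 < c ∧ 0 < c ∧ c < 1 ∧ ∀ z : V m, ‖z‖ ≤ R →
        ∀ j, ‖H j (mv p (c : ℂ) z) - F' j z‖ ≤ ε' := by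
  obtain ⟨ρ, r1, r2, r3⟩ := dil_close s' hR (show 0 < ε' / 3 by positivity)
  obtain ⟨s2, Lb⟩ := dil_SD s' r1 r2
  obtain ⟨ρ', q1, q2, q3⟩ := dil_close s0 hr (half_pos hε)
  obtain ⟨s1, L0⟩ := dil_SD s0 q1 q2
  set F1 : Fin N → V m → ℂ := fun j z => F0 j ((ρ' : ℂ) • z) with hF1
  set F2 : Fin N → V m → ℂ := fun j z => F' j ((ρ : ℂ) • z) with hF2
  set v : Fin N → ℂ := fun j => F0 j ((ρ' : ℂ) • p) with hv
  set v' : Fin N → ℂ := fun j => F' j ((ρ : ℂ) • -p) with hv'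
  have hnp : ‖-p‖ = 1 := by rw [norm_neg]; exact hp
  have L1 : Lm F1 p v := L0 p hp
  have L2 : Lm F2 (-p) v' := Lb (-p) hnp
  obtain ⟨κ1, k1, k2, k3⟩ := Lm_SD s1 hp L1
  obtain ⟨κ2, k4, k5, k6⟩ := Lm_SD s2 hnp L2
  obtain ⟨F4, s4, L4, L4'⟩ := conn hδ hp (v := v) (v' := v') (κ := min κ1 κ2) (lt_min k1 k4)
    (fun j => (k2 j).trans (by linarith [min_le_left κ1 κ2]))
    (fun j => (k5 j).trans (by linarith [min_le_right κ1 κ2]))
    (le_trans (by linarith [min_le_left κ1 κ2]) k3)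
    (le_trans (by linarith [min_le_right κ1 κ2]) k6)
  -- first gluing
  obtain ⟨a1, a11, a12, a13⟩ := Hg_SD hp s4 s2 L4 L2
  obtain ⟨a2, a21, a22, a23⟩ := Hg_in' (F2 := F2) hp L4 hR (show 0 < ε' / 3 by positivity)
  obtain ⟨a, ha⟩ : ∃ a : ℝ, a = (max a1 a2 + 1) / 2 := ⟨_, rfl⟩
  have hmx : max a1 a2 < 1 := max_lt a12 a22
  have haa1 : a1 < a := by rw [ha]; linarith [le_max_left a1 a2]
  have haa2 : a2 < a := by rw [ha]; linarith [le_max_right a1 a2]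
  have ha1 : a < 1 := by rw [ha]; linarith
  have ha0' : 0 < a := a11.trans haa1
  set H' : Fin N → V m → ℂ := Hg F4 F2 v' p a with hH'
  have s5 : SD δ H' := a13 a haa1 ha1
  have L5 : Lm H' (-p) v := Hg_Lm hp L4' L2 ha0' ha1
  have hin := a23 a haa2 ha1
  have A := aut_neg hp ha0' ha1
  -- the image of the closed ball of radius `R`
  obtain ⟨R', hR', hRR⟩ : ∃ R' : ℝ, R' < 1 ∧ ∀ z : V m, ‖z‖ ≤ R → ‖mv p (a : ℂ) z‖ ≤ R' := by
    by_cases hne : (closedBall (0 : V m) R).Nonempty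
    · have hsub : closedBall (0 : V m) R ⊆ ball 0 1 := closedBall_subset_ball hR
      obtain ⟨z0, hz0, hmax⟩ := (isCompact_closedBall (0 : V m) R).exists_isMaxOn hne
        ((A.d1.continuousOn.mono hsub).norm)
      refine ⟨‖mv p (a : ℂ) z0‖, mem_ball_zero_iff.1 (A.m1 (hsub hz0)), fun z hz => ?_⟩
      exact hmax (mem_closedBall_zero_iff.2 hz)
    · refine ⟨0, one_pos, fun z hz => ?_⟩
      exact absurd ⟨z, mem_closedBall_zero_iff.2 hz⟩ hne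
  -- second gluing
  obtain ⟨b1, b11, b12, b13⟩ := Hg_SD hp s1 s5 L1 L5
  obtain ⟨b2, b21, b22, b23⟩ := Hg_in' (F2 := H') hp L1 hR' (show 0 < ε' / 3 by positivity)
  obtain ⟨b3', b31', b32', b33'⟩ := Hg_far (F1 := F1) hp L5 (η := 1 - r) (by linarith)
    (half_pos hε)
  obtain ⟨b3, hb3⟩ : ∃ b3 : ℝ, b3 = max b3' a0 := ⟨_, rfl⟩
  have b32 : b3 < 1 := by rw [hb3]; exact max_lt b32' ha0
  have hb3' : b3' ≤ b3 := by rw [hb3]; exact le_max_left _ _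
  have hb3a : a0 ≤ b3 := by rw [hb3]; exact le_max_right _ _
  obtain ⟨b, hb⟩ : ∃ b : ℝ, b = (max b1 (max b2 b3) + 1) / 2 := ⟨_, rfl⟩
  have hmx' : max b1 (max b2 b3) < 1 := max_lt b12 (max_lt b22 b32)
  have hbb1 : b1 < b := by rw [hb]; linarith [le_max_left b1 (max b2 b3)]
  have hbb2 : b2 < b := by
    rw [hb]; linarith [le_max_right b1 (max b2 b3), le_max_left b2 b3]
  have hbb3 : b3 < b := by
    rw [hb]; linarith [le_max_right b1 (max b2 b3), le_max_right b2 b3]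
  have hb1 : b < 1 := by rw [hb]; linarith
  have hb0 : 0 < b := b11.trans hbb1
  have hab : 0 < 1 + a * b := by positivity
  refine ⟨Hg F1 H' v p b, b13 b hbb1 hb1, fun z hz j => ?_, (a + b) / (1 + a * b), ?_,
    by positivity, ?_, fun z hz j => ?_⟩
  · have hzB : z ∈ ball (0 : V m) 1 := by rw [mem_ball_zero_iff]; linarith
    have h7 := b33' b (lt_of_le_of_lt hb3' hbb3) hb1 z hzB (by
      have := norm_sub_norm_le p z
      rw [norm_sub_rev, hp] at this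
      linarith) j
    have h8 := q3 z hz j
    have h9 := norm_add_le (Hg F1 H' v p b j z - F1 j z) (F1 j z - F0 j z)
    rw [sub_add_sub_cancel] at h9
    linarith
  · rw [lt_div_iff₀ hab]
    have : a0 < b := by linarith
    nlinarith [mul_pos ha0' hb0, mul_pos ha0' (sub_pos.2 hb1), mul_pos ha0' (mul_pos hb0 (sub_pos.2 hb1)),
      mul_lt_mul_of_pos_right this hab]
  · rw [div_lt_one hab]
    nlinarith
  · have hzB : z ∈ ball (0 : V m) 1 := by rw [mem_ball_zero_iff]; linarith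
    rw [← mv_mv hp ha0' ha1 hb0 hb1 hzB]
    obtain ⟨c1, c2⟩ := b23 b hbb2 hb1 (mv p (a : ℂ) z) (hRR z hz)
    obtain ⟨c3, c4⟩ := hin z hz
    have h7 := c2 j
    have h8 := c4 j
    have h9 := r3 z hz j
    have h10 := norm_add₃_le (a := Hg F1 H' v p b j (mv p (b : ℂ) (mv p (a : ℂ) z)) -
      H' j (mv p (a : ℂ) z)) (b := H' j (mv p (a : ℂ) z) - F2 j z) (c := F2 j z - F' j z)
    rw [sub_add_sub_cancel, sub_add_sub_cancel] at h10
    linarith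

/-- universal at `p`, with real translations -/
def UnivP (X : Set (CB m N)) (p : V m) (F : CB m N) : Prop :=
  ∀ F' ∈ X, ∀ r : ℝ, r < 1 → ∀ ε : ℝ, 0 < ε → ∀ a0 : ℝ, a0 < 1 →
    ∃ c : ℝ, a0 < c ∧ 0 < c ∧ c < 1 ∧ ∀ z ∈ ball (0 : V m) 1, ‖z‖ ≤ r → ∀ j,
      ‖ex F j (mv p (c : ℂ) z) - ex F' j z‖ ≤ ε

theorem univP_residual {δ : ℝ} (hδ : 0 < δ) {p : V m} (hp : ‖p‖ = 1) :
    {F : closure (Str δ : Set (CB m N)) | UnivP (closure (Str δ)) p F.1} ∈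
      residual (closure (Str δ : Set (CB m N))) := by
  have i1 : LocallyCompactSpace (ball (0 : V m) 1) := isOpen_ball.locallyCompactSpace
  obtain ⟨s, hs1, hs2⟩ := TopologicalSpace.exists_countable_dense (Str δ : Set (CB m N))
  set 𝒟 : Set (CB m N) := Subtype.val '' s with h𝒟
  have h𝒟c : 𝒟.Countable := hs1.image _
  have h𝒟s : 𝒟 ⊆ Str δ := by
    rintro _ ⟨F, -, rfl⟩; exact F.2
  have h𝒟d : closure (Str δ : Set (CB m N)) ⊆ closure 𝒟 := by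
    refine closure_minimal ?_ isClosed_closure
    intro F hF
    have h1 : (⟨F, hF⟩ : (Str δ : Set (CB m N))) ∈ closure s := hs2 _
    exact (image_closure_subset_closure_image continuous_subtype_val) ⟨_, h1, rfl⟩
  have hdense : ∀ G ∈ 𝒟, ∀ k : ℕ,
      {F : closure (Str δ : Set (CB m N)) | ∃ c : ℝ, 1 - 1 / ((k : ℝ) + 1) < c ∧ 0 < c ∧ c < 1 ∧
        ∀ z ∈ ball (0 : V m) 1, ‖z‖ ≤ 1 - 1 / ((k : ℝ) + 2) →
          ∀ j, ‖ex F.1 j (mv p (c : ℂ) z) - ex G j z‖ ≤ 1 / ((k : ℝ) + 1)} ∈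
          residual (closure (Str δ : Set (CB m N))) := by
    rintro G hG k
    set O := {F : closure (Str δ : Set (CB m N)) | ∃ c : ℝ, 1 - 1 / ((k : ℝ) + 1) < c ∧ 0 < c ∧
        c < 1 ∧ ∀ z ∈ ball (0 : V m) 1, ‖z‖ ≤ 1 - 1 / ((k : ℝ) + 2) →
          ∀ j, ‖ex F.1 j (mv p (c : ℂ) z) - ex G j z‖ ≤ 1 / ((k : ℝ) + 1)} with hO
    refine mem_of_superset (residual_of_dense_open (isOpen_interior (s := O)) ?_) interior_subset
    rw [dense_iff_inter_open]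
    rintro U hU ⟨⟨F, hF⟩, hFU⟩
    obtain ⟨O', hO', hOU⟩ := isOpen_induced_iff.1 hU
    have hFO : F ∈ O' := by rw [← hOU] at hFU; exact hFU
    obtain ⟨F0, hF0O, hF0⟩ := mem_closure_iff.1 hF O' hO' hFO
    obtain ⟨e, he⟩ : ∃ e : ℝ, e = 1 / (2 * ((k : ℝ) + 1)) := ⟨_, rfl⟩
    have he0 : 0 < e := by rw [he]; positivity
    have hk1 : 1 - 1 / ((k : ℝ) + 2) < 1 := by
      have : 0 < 1 / ((k : ℝ) + 2) := by positivity
      linarith
    have hk2 : 1 - 1 / ((k : ℝ) + 1) < 1 := by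
      have : 0 < 1 / ((k : ℝ) + 1) := by positivity
      linarith
    have hex : ∀ n : ℕ, ∃ H : Fin N → V m → ℂ, SD δ H ∧
        (∀ z : V m, ‖z‖ ≤ 1 - 1 / ((n : ℝ) + 2) → ∀ j, ‖H j z - ex F0 j z‖ ≤ 1 / ((n : ℝ) + 1)) ∧
        ∃ c : ℝ, 1 - 1 / ((k : ℝ) + 1) < c ∧ 0 < c ∧ c < 1 ∧
          ∀ z : V m, ‖z‖ ≤ 1 - 1 / ((k : ℝ) + 2) → ∀ j, ‖H j (mv p (c : ℂ) z) - ex G j z‖ ≤ e := by
      intro n
      refine univ_dense' hδ hp (ex_SD hF0) (ex_SD (h𝒟s hG)) ?_ (by positivity) hk1 he0 hk2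
      have : 0 < 1 / ((n : ℝ) + 2) := by positivity
      linarith
    choose H H1 H2 c hc1 hc2 hc3 H4 using hex
    have ht : Tendsto (fun n => mkC (H n) (H1 n).1) atTop (𝓝 F0) := by
      refine tendsto_CB ?_
      intro n z hz j
      have := H2 n z hz j
      rw [ex_apply F0 j z.2] at this
      exact this
    obtain ⟨n, hn⟩ := (ht.eventually (hO'.mem_nhds hF0O)).exists
    have hmem : mkC (H n) (H1 n).1 ∈ closure (Str δ : Set (CB m N)) :=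
      subset_closure (mkC_Str (H1 n))
    have hA : Aut (mv p (c n : ℂ)) (mv p (-(c n : ℂ))) := aut_mv t_mv hp (by
      rw [mem_ball_zero_iff, Complex.norm_real, Real.norm_eq_abs, abs_of_pos (hc2 n)]
      exact hc3 n)
    obtain ⟨E, hE1, hE2⟩ := aut_equiv hA
    refine ⟨⟨mkC (H n) (H1 n).1, hmem⟩, by rw [← hOU]; exact hn, ?_⟩
    rw [mem_interior_iff_mem_nhds]
    have hK := (compact_r (m := m) hk1).image hE1.cont
    have hnb := near_K (mkC (H n) (H1 n).1) hK (show 0 < 1 / (2 * ((k : ℝ) + 1)) by positivity)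
    refine mem_of_superset (continuous_subtype_val.continuousAt.preimage_mem_nhds hnb) ?_
    intro F1 hF1
    refine ⟨c n, hc1 n, hc2 n, hc3 n, fun z hzB hz j => ?_⟩
    have c2 := H4 n z hz j
    have c3 := hF1 (E ⟨z, hzB⟩) ⟨⟨z, hzB⟩, hz, rfl⟩ j
    rw [mkC_apply, hE2] at c3
    have hm : mv p (c n : ℂ) z ∈ ball (0 : V m) 1 := hA.m1 hzB
    have c7 : (E ⟨z, hzB⟩) = ⟨mv p (c n : ℂ) z, hm⟩ := Subtype.ext (hE2 _)
    rw [c7] at c3
    rw [ex_apply F1.1 j hm]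
    have c5 := norm_add_le (F1.1 ⟨mv p (c n : ℂ) z, hm⟩ j - H n j (mv p (c n : ℂ) z))
      (H n j (mv p (c n : ℂ) z) - ex G j z)
    rw [sub_add_sub_cancel] at c5
    have c6 : 1 / (2 * ((k : ℝ) + 1)) + 1 / (2 * ((k : ℝ) + 1)) = 1 / ((k : ℝ) + 1) := by
      field_simp; norm_num
    simp only at c3
    linarith
  have hcount : (⋂ G ∈ 𝒟, ⋂ k : ℕ, {F : closure (Str δ : Set (CB m N)) | ∃ c : ℝ,
        1 - 1 / ((k : ℝ) + 1) < c ∧ 0 < c ∧ c < 1 ∧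
        ∀ z ∈ ball (0 : V m) 1, ‖z‖ ≤ 1 - 1 / ((k : ℝ) + 2) →
          ∀ j, ‖ex F.1 j (mv p (c : ℂ) z) - ex G j z‖ ≤ 1 / ((k : ℝ) + 1)}) ∈
        residual (closure (Str δ : Set (CB m N))) := by
    refine (countable_bInter_mem h𝒟c).2 fun G hG => ?_
    refine countable_iInter_mem.2 fun k => ?_
    exact hdense G hG k
  refine mem_of_superset hcount ?_
  intro F hF F' hF' r hr ε hε a0 ha0
  -- `k`
  have t1 : Tendsto (fun n : ℕ => 1 / ((n : ℝ) + 2)) atTop (𝓝 0) := by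
    refine Tendsto.div_atTop tendsto_const_nhds ?_
    exact tendsto_atTop_add_const_right _ _ tendsto_natCast_atTop_atTop
  have t2 : Tendsto (fun n : ℕ => 1 / ((n : ℝ) + 1)) atTop (𝓝 0) :=
    tendsto_one_div_add_atTop_nhds_zero_nat
  obtain ⟨k, hk1, hk2, hk3⟩ := ((t1.eventually_lt_const (show (0 : ℝ) < 1 - r by linarith)).and
    ((t2.eventually_lt_const (half_pos hε)).and
    (t2.eventually_lt_const (show (0 : ℝ) < 1 - a0 by linarith)))).exists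
  -- `G`
  have hG : ∃ G ∈ 𝒟, ∀ z ∈ {z : ball (0 : V m) 1 | ‖(z : V m)‖ ≤ r}, ∀ j, ‖G z j - F' z j‖ ≤ ε / 2 := by
    have h1 := mem_closure_iff_nhds.1 (h𝒟d hF') _ (near_K F' (compact_r (m := m) hr) (half_pos hε))
    obtain ⟨G, hG1, hG2⟩ := h1
    exact ⟨G, hG2, hG1⟩
  obtain ⟨G, hG1, hG2⟩ := hG
  rw [mem_iInter₂] at hF
  have h1 := hF G hG1
  rw [mem_iInter] at h1
  obtain ⟨c, hc1, hc2, hc3, hc4⟩ := h1 k
  refine ⟨c, by linarith, hc2, hc3, fun z hzB hz j => ?_⟩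
  have c3 := hc4 z hzB (by linarith) j
  have c4 := hG2 ⟨z, hzB⟩ hz j
  rw [← ex_apply G j hzB, ← ex_apply F' j hzB] at c4
  have c5 := norm_add_le (ex F.1 j (mv p (c : ℂ) z) - ex G j z) (ex G j z - ex F' j z)
  rw [sub_add_sub_cancel] at c5
  linarith

end Pool.Agent.H303.CB.Dich
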