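import Mathlib
import Pool.Agent.H303.CB.Tr
import Pool.Agent.H303.CB.Univ

/-!
The local data at a farthest point.
-/

set_option autoImplicit false

open Metric Set Filter Topology

namespace Pool.Agent.H303.CB

open Pool.Agent.W732.Cor (mv S_mv V)
open Pool.Agent.W721.Cor.Mv (inner_mv perp_mv den_ne inner_lt inner_pp inner_perp norm_comb norm_dec)

variable {m : ℕ}

/-- T3. The local data exist. -/
theorem exists_LD (ht : S_taylor) (hd : S_dec) {D : Set (E m)} {p : E m} (hD : IsOpen D)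
    (hD1 : D ⊆ ball 0 1) (hp : ‖p‖ = 1) (hpD : p ∈ closure D) {U : Set (E m)} {ρ : E m → ℝ}
    (hU : IsOpen U) (hpU : p ∈ U) (hρ : ContDiffOn ℝ 3 ρ U) (hUD : ∀ x ∈ U, x ∈ D ↔ ρ x < 0)
    (hne : fderiv ℝ ρ p ≠ 0) :
    ∃ (B B' : E m →L[ℂ] E m) (q : E m → ℂ) (Λ : E m →L[ℂ] ℂ) (a C r : ℝ),
      LD D p B B' q Λ a C r := by
  obtain ⟨b, C, r, hC, hr, hsym, hout, hin, hpos⟩ := ht m D p hD hD1 hp hpD U ρ hU hpU hρ hUD hne
  obtain ⟨B, B', q, Λ, a, i1, i2, nB, perp, qd, qh, ⟨Cq, qb⟩, hQ⟩ := hd m p hp b hsym hpos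
  -- the form in terms of the coordinates
  have key : ∀ x : E m, ‖x - p‖ ≤ 1 → |b (x - p) (x - p) -
      (‖B (zc p x)‖ ^ 2 + (q (zc p x)).re + (wc p x).im * (Λ (zc p x)).re +
        a * (wc p x).im ^ 2)| ≤ 5 * ‖b‖ * ‖x - p‖ * |(wc p x).re| ∧
      ‖x - p‖ ^ 2 = ‖zc p x‖ ^ 2 + (wc p x).re ^ 2 + (wc p x).im ^ 2 := by
    intro x hx
    have hz : (inner ℂ p (zc p x) : ℂ) = 0 := inner_perp hp x
    have e1 : x - p = zc p x - (wc p x) • p := by
      rw [zc, wc]; module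
    have e2 : ‖x - p‖ ^ 2 = ‖zc p x‖ ^ 2 + (wc p x).re ^ 2 + (wc p x).im ^ 2 := by
      have h1 := norm_comb hp hz (-(wc p x)) 1
      rw [one_smul, norm_one, one_pow, one_mul, norm_neg] at h1
      have h2 : -(wc p x) • p + zc p x = x - p := by rw [e1, neg_smul]; abel
      rw [h2] at h1
      rw [h1, Complex.sq_norm, Complex.normSq_apply]
      ring
    refine ⟨?_, e2⟩
    rw [← hQ _ _ hz]
    set s := (wc p x).re with hs
    set t := (wc p x).im with htt
    set u := zc p x - ((t : ℂ) * Complex.I) • p with hu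
    have e3 : x - p = u - (s : ℂ) • p := by
      rw [e1, hu, ← Complex.re_add_im (wc p x)]
      simp only [← hs, ← htt]
      module
    have e4 : (s : ℂ) • p = s • p := by
      rw [← Complex.coe_smul]
    have e5 : b (x - p) (x - p) - b u u = - s * b u p - s * b p (x - p) := by
      rw [e3, e4]
      simp only [map_sub, map_smul, ContinuousLinearMap.sub_apply, ContinuousLinearMap.smul_apply,
        smul_eq_mul]
      ring
    have hs1 : |s| ≤ ‖x - p‖ := by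
      apply abs_le_of_sq_le_sq _ (norm_nonneg _)
      nlinarith [sq_nonneg ‖zc p x‖, sq_nonneg t]
    have hu1 : ‖u‖ ≤ 2 * ‖x - p‖ := by
      have : u = (x - p) + (s : ℂ) • p := by rw [e3]; abel
      rw [this]
      refine (norm_add_le _ _).trans ?_
      rw [norm_smul, Complex.norm_real, Real.norm_eq_abs, hp, mul_one]
      linarith
    rw [e5]
    have h1 : |b u p| ≤ ‖b‖ * ‖u‖ * 1 := by
      have := b.le_opNorm₂ u p
      rwa [hp, Real.norm_eq_abs] at this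
    have h2 : |b p (x - p)| ≤ ‖b‖ * 1 * ‖x - p‖ := by
      have := b.le_opNorm₂ p (x - p)
      rwa [hp, Real.norm_eq_abs] at this
    calc |-s * b u p - s * b p (x - p)| ≤ |-s * b u p| + |s * b p (x - p)| := abs_sub _ _
      _ = |s| * |b u p| + |s| * |b p (x - p)| := by rw [abs_mul, abs_mul, abs_neg]
      _ ≤ |s| * (‖b‖ * (2 * ‖x - p‖) * 1) + |s| * (‖b‖ * 1 * ‖x - p‖) := by
          gcongr
          exact h1.trans (by gcongr)
      _ ≤ 5 * ‖b‖ * ‖x - p‖ * |s| := by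
          have : 0 ≤ |s| * (‖b‖ * ‖x - p‖) := by positivity
          nlinarith
  obtain ⟨C₁, hC₁⟩ : ∃ C₁ : ℝ, C₁ = 5 * ‖b‖ + C + |Cq| := ⟨_, rfl⟩
  have hC₁0 : 0 ≤ C₁ := by rw [hC₁]; positivity
  refine ⟨B, B', q, Λ, a, C₁, min r 1, hD, hD1, hp, hC₁0, by positivity, i1, i2, nB, perp, qd, qh,
    ?_, ?_, ?_, ?_⟩
  · intro z
    refine (qb z).trans ?_
    gcongr
    rw [hC₁]
    have := norm_nonneg b
    linarith [le_abs_self Cq]
  · intro z t hz
    rw [← hQ z t hz]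
    exact hpos z t hz
  · intro x hx hxr
    have hxr1 : ‖x - p‖ ≤ 1 := (hxr.trans_le (min_le_right _ _)).le
    obtain ⟨k1, k2⟩ := key x hxr1
    have k3 := hout x hx (hxr.trans_le (min_le_left _ _))
    have hs : 0 < (wc p x).re := by
      have h2 := inner_lt hp (hD1 hx)
      rw [wc, Complex.sub_re, Complex.one_re]
      have := Complex.re_le_norm (inner ℂ p x : ℂ)
      linarith
    rw [abs_of_pos hs] at k1
    have k4 := (abs_le.1 k1).1
    have k5 : ‖x - p‖ ^ 3 = ‖x - p‖ * (‖zc p x‖ ^ 2 + (wc p x).im ^ 2) +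
        ‖x - p‖ * (wc p x).re ^ 2 := by
      rw [pow_succ, k2]; ring
    have hs1 : (wc p x).re ≤ 1 := by
      have : (wc p x).re ^ 2 ≤ 1 := by nlinarith [sq_nonneg ‖zc p x‖, sq_nonneg (wc p x).im, norm_nonneg (x - p)]
      nlinarith
    have k6 : ‖x - p‖ * (wc p x).re ^ 2 ≤ ‖x - p‖ * (wc p x).re := by
      have : (wc p x).re ^ 2 ≤ (wc p x).re := by nlinarith
      gcongr
    have hb := norm_nonneg b
    have n1 : 0 ≤ ‖x - p‖ * (‖zc p x‖ ^ 2 + (wc p x).im ^ 2) := by positivity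
    have n2 : 0 ≤ ‖x - p‖ * (wc p x).re := by positivity
    have n3 := abs_nonneg Cq
    have n4 := mul_nonneg hb n1
    have n5 := mul_nonneg n3 n1
    have n6 := mul_nonneg n3 n2
    have n7 := mul_nonneg hC (sub_nonneg.2 k6)
    rw [hC₁]
    nlinarith
  · intro x hxr hx
    have hxr1 : ‖x - p‖ ≤ 1 := (hxr.trans_le (min_le_right _ _)).le
    obtain ⟨k1, k2⟩ := key x hxr1
    refine hin x (hxr.trans_le (min_le_left _ _)) ?_
    have k4 := (abs_le.1 k1).2
    have k5 : ‖x - p‖ ^ 3 = ‖x - p‖ * (‖zc p x‖ ^ 2 + (wc p x).im ^ 2) +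
        ‖x - p‖ * (wc p x).re ^ 2 := by
      rw [pow_succ, k2]; ring
    have hs1 : |(wc p x).re| ≤ 1 := by
      apply abs_le_of_sq_le_sq _ zero_le_one
      nlinarith [sq_nonneg ‖zc p x‖, sq_nonneg (wc p x).im, norm_nonneg (x - p)]
    have k6 : ‖x - p‖ * (wc p x).re ^ 2 ≤ ‖x - p‖ * |(wc p x).re| := by
      have : (wc p x).re ^ 2 ≤ |(wc p x).re| := by
        rw [← sq_abs]; nlinarith [abs_nonneg (wc p x).re]
      gcongr
    have hb := norm_nonneg b
    have n1 : 0 ≤ ‖x - p‖ * (‖zc p x‖ ^ 2 + (wc p x).im ^ 2) := by positivity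
    have n2 : 0 ≤ ‖x - p‖ * |(wc p x).re| := by positivity
    have n3 := abs_nonneg Cq
    have n4 := mul_nonneg hb n1
    have n5 := mul_nonneg n3 n1
    have n6 := mul_nonneg n3 n2
    have n7 := mul_nonneg hC (sub_nonneg.2 k6)
    rw [hC₁] at hx
    nlinarith

end Pool.Agent.H303.CB
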