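import Mathlib
import Pool.Agent.H303.CB.Asm

/-!
The two transfer theorems at a boundary point on the unit sphere.
-/

set_option autoImplicit false

open Metric Set Filter Topology

namespace Pool.Agent.H303.CB

open Pool.Agent.W732.Cor (mv S_mv V)
open Pool.Agent.W721.Cor.Mv (inner_mv perp_mv den_ne inner_lt inner_pp inner_perp norm_comb norm_dec)

variable {m : ℕ}

/-- The Bezout equation has a holomorphic solution bounded by `C` on `D`. -/
def Solvable {N : ℕ} (D : Set (E m)) (C : ℝ) (F : Fin N → E m → ℂ) : Prop :=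
  ∃ g : Fin N → E m → ℂ, (∀ j, DifferentiableOn ℂ (g j) D) ∧ (∀ j, ∀ z ∈ D, ‖g j z‖ ≤ C) ∧
    ∀ z ∈ D, ∑ j, F j z * g j z = 1

/-- The property of a boundary point `p` of `D`: the transfer to the ball is possible. -/
def TP (D : Set (E m)) (p : E m) : Prop :=
  ∃ (G : ℕ → E m → E m) (G' : E m → E m) (e : E m), ‖e‖ = 1 ∧
    (∀ k, DifferentiableOn ℂ (G k) D ∧ MapsTo (G k) D (ball 0 1)) ∧
    DifferentiableOn ℂ G' D ∧ MapsTo G' D (ball 0 1) ∧
    (∀ (N : ℕ) (f : Fin N → E m → ℂ) (C : ℝ) (W : Set (E m)), IsOpen W → p ∈ W →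
      (∀ j, DifferentiableOn ℂ (f j) (ball 0 1)) →
      (∃ᶠ k in atTop, Solvable (D ∩ W) C (fun j x => f j (G k x))) → Solvable (ball 0 1) C f) ∧
    ∀ (N : ℕ) (δ : ℝ) (F : Dich.CB m N), F ∈ closure (Dich.Str δ : Set (Dich.CB m N)) →
      Dich.UnivP (closure (Dich.Str δ)) e F → ∀ (C : ℝ) (W : Set (E m)), IsOpen W → p ∈ W →
      Solvable (D ∩ W) C (fun j x => Dich.ex F j (G' x)) →
      ∀ F' ∈ closure (Dich.Str δ : Set (Dich.CB m N)), Solvable (ball 0 1) C (Dich.ex F')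

theorem tp_of_LD (hmap : S_map) (hinv : S_inv) {D : Set (E m)} {p : E m} {B B' : E m →L[ℂ] E m}
    {q : E m → ℂ} {Λ : E m →L[ℂ] ℂ} {a C r : ℝ} (h : LD D p B B' q Λ a C r) : TP D p := by
  obtain ⟨K, β, hK, hβ, hF⟩ := hmap m D p B B' q Λ a C r h
  obtain ⟨εs, hεs⟩ : ∃ εs : ℕ → ℝ, ∀ k : ℕ, εs k = 1 / ((k : ℝ) + 2) := ⟨_, fun _ => rfl⟩
  have hε0 : ∀ k, 0 < εs k := by intro k; rw [hεs]; positivity
  have hε1 : ∀ k, εs k < 1 := by
    intro k; rw [hεs, div_lt_one (by positivity)]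
    have : (0 : ℝ) ≤ k := Nat.cast_nonneg k
    linarith
  have hεt : Tendsto εs atTop (𝓝 0) := by
    have : εs = fun k : ℕ => 1 / ((k : ℝ) + 2) := by funext k; exact hεs k
    rw [this]
    refine Tendsto.div_atTop tendsto_const_nhds ?_
    exact tendsto_atTop_add_const_right _ _ tendsto_natCast_atTop_atTop
  have hA : ∀ k, Aut (mv (B p) (ae (εs k) : ℂ)) (mv (B p) (-(ae (εs k) : ℂ))) := fun k =>
    aut_mv t_mv h.nB (by
      rw [mem_ball_zero_iff, Complex.norm_real, Real.norm_eq_abs,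
        abs_of_pos (ae_pos (hε0 k) (hε1 k))]
      exact ae_lt (hε0 k))
  refine ⟨fun k x => mv (B p) (-(ae (εs k) : ℂ)) (Gm B p q Λ K β x), Gm B p q Λ K β, B p, h.nB,
    fun k => ⟨?_, ?_⟩, Gm_diff h hF, fun x hx => Gm_ball h hF hx, ?_, ?_⟩
  · exact (hA k).d2.comp (Gm_diff h hF) (fun x hx => Gm_ball h hF hx)
  · intro x hx
    exact (hA k).m2 (Gm_ball h hF hx)
  · -- the sequence
    intro N f C W hW hpW hf hfr
    obtain ⟨𝒰, h𝒰⟩ : ∃ 𝒰 : Ultrafilter ℕ, (𝒰 : Filter ℕ) ≤ atTop ⊓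
        𝓟 {k | Solvable (D ∩ W) C (fun j x => f j (mv (B p) (-(ae (εs k) : ℂ))
          (Gm B p q Λ K β x)))} := by
      have : (atTop ⊓ 𝓟 {k | Solvable (D ∩ W) C (fun j x => f j (mv (B p) (-(ae (εs k) : ℂ))
          (Gm B p q Λ K β x)))}).NeBot := by
        rw [← frequently_mem_iff_neBot]
        exact hfr
      exact ⟨Ultrafilter.of _, Ultrafilter.of_le _⟩
    have hle : (𝒰 : Filter ℕ) ≤ atTop := h𝒰.trans inf_le_left
    have hsol : ∀ᶠ k in (𝒰 : Filter ℕ), Solvable (D ∩ W) C (fun j x => f j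
        (mv (B p) (-(ae (εs k) : ℂ)) (Gm B p q Λ K β x))) :=
      h𝒰.trans inf_le_right (mem_principal_self _)
    refine transfer h hinv hW hpW 𝒰 hε0 (hεt.mono_left hle)
      (fun k j x => f j (mv (B p) (-(ae (εs k) : ℂ)) (Gm B p q Λ K β x))) f hsol ?_
    intro ξ hξ j
    have hE : Tendsto (fun k => EE B B' p q Λ K β (εs k) ξ) 𝒰 (𝓝 ξ) :=
      EE_tendsto h.i1 h.i2 h.np h.nB h.perp hβ (hεt.mono_left hle) hξ
    have hc : Tendsto (fun k => f j (EE B B' p q Λ K β (εs k) ξ)) 𝒰 (𝓝 (f j ξ)) :=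
      (((hf j).differentiableAt (isOpen_ball.mem_nhds hξ)).continuousAt.tendsto).comp hE
    refine hc.congr' ?_
    obtain ⟨s, ε₀, hs, hε₀, h1, h2⟩ := Pm_mem h hinv hW hpW hξ
    filter_upwards [(hεt.mono_left hle).eventually_lt_const hε₀] with k hk
    have h3 := (h2 (εs k) (hε0 k) hk ξ (mem_ball_self hs)).1
    rw [Gm_Pm h hF (hε0 k) (hε1 k) h3, (hA k).i1 _ (EE_ball h hF (hε0 k) h3)]
  · -- universal data
    intro N δ F hFX hu C W hW hpW hsol F' hF'
    have t1 : Tendsto (fun n : ℕ => 1 / ((n : ℝ) + 2)) atTop (𝓝 0) := by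
      refine Tendsto.div_atTop tendsto_const_nhds ?_
      exact tendsto_atTop_add_const_right _ _ tendsto_natCast_atTop_atTop
    have t2 : Tendsto (fun n : ℕ => 1 / ((n : ℝ) + 1)) atTop (𝓝 0) :=
      tendsto_one_div_add_atTop_nhds_zero_nat
    have hex : ∀ n : ℕ, ∃ c : ℝ, 1 - 1 / ((n : ℝ) + 1) < c ∧ 0 < c ∧ c < 1 ∧
        ∀ z ∈ ball (0 : V m) 1, ‖z‖ ≤ 1 - 1 / ((n : ℝ) + 2) → ∀ j,
          ‖Dich.ex F j (mv (B p) (c : ℂ) z) - Dich.ex F' j z‖ ≤ 1 / ((n : ℝ) + 1) := by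
      intro n
      refine hu F' hF' _ ?_ _ (by positivity) _ ?_
      · have : 0 < 1 / ((n : ℝ) + 2) := by positivity
        linarith
      · have : 0 < 1 / ((n : ℝ) + 1) := by positivity
        linarith
    choose c hc1 hc2 hc3 hc4 using hex
    have hct : Tendsto c atTop (𝓝 1) := by
      refine tendsto_of_tendsto_of_tendsto_of_le_of_le (g := fun n : ℕ => 1 - 1 / ((n : ℝ) + 1))
        (h := fun _ => (1 : ℝ)) ?_ tendsto_const_nhds (fun n => (hc1 n).le) (fun n => (hc3 n).le)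
      simpa using t2.const_sub 1
    obtain ⟨es, hes⟩ : ∃ es : ℕ → ℝ, ∀ k, es k = √((1 - c k) / (1 + c k)) := ⟨_, fun _ => rfl⟩
    have hes2 : ∀ k, es k ^ 2 = (1 - c k) / (1 + c k) := by
      intro k
      rw [hes, Real.sq_sqrt]
      exact div_nonneg (by linarith [hc3 k]) (by linarith [hc2 k])
    have he0 : ∀ k, 0 < es k := by
      intro k
      rw [hes]
      exact Real.sqrt_pos.2 (div_pos (by linarith [hc3 k]) (by linarith [hc2 k]))
    have he1 : ∀ k, es k < 1 := by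
      intro k
      have h1 : es k ^ 2 < 1 := by
        rw [hes2, div_lt_one (by linarith [hc2 k])]
        linarith [hc2 k]
      nlinarith [he0 k]
    have hae : ∀ k, ae (es k) = c k := by
      intro k
      have h1 : 1 + c k ≠ 0 := by linarith [hc2 k]
      rw [ae, hes2]
      field_simp
      ring
    have het : Tendsto es atTop (𝓝 0) := by
      have h1 : es = fun k => √((1 - c k) / (1 + c k)) := funext hes
      rw [h1]
      have h2 : Tendsto (fun k => (1 - c k) / (1 + c k)) atTop (𝓝 ((1 - 1) / (1 + 1))) :=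
        (hct.const_sub 1).div (hct.const_add 1) (by norm_num)
      have h3 := h2.sqrt
      simpa using h3
    set 𝒰 : Ultrafilter ℕ := Ultrafilter.of atTop with h𝒰
    have hle : (𝒰 : Filter ℕ) ≤ atTop := Ultrafilter.of_le _
    refine transfer h hinv hW hpW 𝒰 he0 (het.mono_left hle)
      (fun _ j x => Dich.ex F j (Gm B p q Λ K β x)) (Dich.ex F')
      (Eventually.of_forall fun _ => hsol) ?_
    intro ξ hξ j
    have hE : Tendsto (fun k => EE B B' p q Λ K β (es k) ξ) 𝒰 (𝓝 ξ) :=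
      EE_tendsto h.i1 h.i2 h.np h.nB h.perp hβ (het.mono_left hle) hξ
    have hH : Dich.Hol F' := (Dich.str_sub δ |> fun hs => closure_minimal hs (Dich.closed_dat δ)) hF' |>.1
    have hc : Tendsto (fun k => Dich.ex F' j (EE B B' p q Λ K β (es k) ξ)) 𝒰
        (𝓝 (Dich.ex F' j ξ)) :=
      (((Dich.ex_diff hH j).differentiableAt
        (isOpen_ball.mem_nhds hξ)).continuousAt.tendsto).comp hE
    obtain ⟨s, ε₀, hs, hε₀, h1, h2⟩ := Pm_mem h hinv hW hpW hξ
    have hξ' : ‖ξ‖ < 1 := mem_ball_zero_iff.1 hξ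
    have h5 : Tendsto (fun k => Dich.ex F j (Gm B p q Λ K β (Pm B B' p q (es k) ξ)) -
        Dich.ex F' j (EE B B' p q Λ K β (es k) ξ)) 𝒰 (𝓝 0) := by
      refine squeeze_zero_norm' ?_ (t2.mono_left hle)
      have h6 : ∀ᶠ k in (𝒰 : Filter ℕ), ‖EE B B' p q Λ K β (es k) ξ‖ ≤ 1 - 1 / ((k : ℝ) + 2) := by
        have h7 : Tendsto (fun k => ‖EE B B' p q Λ K β (es k) ξ‖ + 1 / ((k : ℝ) + 2)) 𝒰
            (𝓝 (‖ξ‖ + 0)) := hE.norm.add (t1.mono_left hle)
        rw [add_zero] at h7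
        filter_upwards [h7.eventually_lt_const hξ'] with k hk
        linarith
      filter_upwards [(het.mono_left hle).eventually_lt_const hε₀, h6] with k hk hk6
      have h3 := (h2 (es k) (he0 k) hk ξ (mem_ball_self hs)).1
      have h4 := Gm_Pm h hF (he0 k) (he1 k) h3
      rw [h4, hae]
      exact hc4 k _ (EE_ball h hF (he0 k) h3) hk6 j
    have h8 := h5.add hc
    rw [zero_add] at h8
    refine h8.congr fun k => ?_
    abel

end Pool.Agent.H303.CB
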