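import Pool.Agent.H303.CB.Stm

/-! Task CB-T1 of helper303: second order expansion of the boundary at a farthest point (helper337) -/

set_option autoImplicit false

open Metric Set Filter Topology
open scoped ContDiff

namespace Pool.Agent.H303.CB

namespace T1

/-- second order Taylor expansion -/
lemma taylor2 {F : Type*} [NormedAddCommGroup F] [NormedSpace ℝ F] (ρ : F → ℝ) (p : F)
    (h : ContDiffAt ℝ 3 ρ p) (hsym : ∀ x y, fderiv ℝ (fderiv ℝ ρ) p x y = fderiv ℝ (fderiv ℝ ρ) p y x) :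
    ∃ K r : ℝ, 0 ≤ K ∧ 0 < r ∧ ∀ v : F, ‖v‖ < r →
      |ρ (p + v) - ρ p - fderiv ℝ ρ p v - (1 / 2) * fderiv ℝ (fderiv ℝ ρ) p v v| ≤ K * ‖v‖ ^ 3 := by
  have h2 : ContDiffAt ℝ 2 (fderiv ℝ ρ) p := h.fderiv_right (by norm_num)
  have h3 : ContDiffAt ℝ 1 (fderiv ℝ (fderiv ℝ ρ)) p := h2.fderiv_right (by norm_num)
  obtain ⟨K, t, ht, hK⟩ := h3.exists_lipschitzOnWith
  have e1 : ∀ᶠ y in 𝓝 p, ContDiffAt ℝ 3 ρ y := h.eventually (by simp)
  have e2 : ∀ᶠ y in 𝓝 p, ContDiffAt ℝ 2 (fderiv ℝ ρ) y := h2.eventually (by simp)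
  obtain ⟨r, hr, hball⟩ := Metric.mem_nhds_iff.1 ((e1.and e2).and ht)
  have hmem : ∀ u : F, ‖u‖ < r → (ContDiffAt ℝ 3 ρ (p + u) ∧ ContDiffAt ℝ 2 (fderiv ℝ ρ) (p + u)) ∧
      p + u ∈ t := by
    intro u hu
    exact hball (by rw [mem_ball, dist_eq_norm, add_sub_cancel_left]; exact hu)
  set D2 := fderiv ℝ (fderiv ℝ ρ) p with hD2
  have hadd : ∀ u : F, HasFDerivAt (fun u : F => p + u) (ContinuousLinearMap.id ℝ F) u := fun u =>
    (hasFDerivAt_id u).const_add p
  have step1 : ∀ w : F, ‖w‖ < r → ‖fderiv ℝ ρ (p + w) - fderiv ℝ ρ p - D2 w‖ ≤ K * ‖w‖ ^ 2 := by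
    intro w hw
    have hd : ∀ u ∈ closedBall (0 : F) ‖w‖, HasFDerivWithinAt (fun u => fderiv ℝ ρ (p + u) - D2 u)
        (fderiv ℝ (fderiv ℝ ρ) (p + u) - D2) (closedBall (0 : F) ‖w‖) u := by
      intro u hu
      have hu' : ‖u‖ < r := by
        rw [mem_closedBall, dist_zero_right] at hu
        linarith
      have h5 : HasFDerivAt (fderiv ℝ ρ) (fderiv ℝ (fderiv ℝ ρ) (p + u)) (p + u) :=
        ((hmem u hu').1.2.differentiableAt (by norm_num)).hasFDerivAt
      have h6 : HasFDerivAt (fun u => fderiv ℝ ρ (p + u)) (fderiv ℝ (fderiv ℝ ρ) (p + u)) u := by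
        have := h5.comp u (hadd u)
        rw [ContinuousLinearMap.comp_id] at this
        exact this
      exact (h6.sub D2.hasFDerivAt).hasFDerivWithinAt
    have hb : ∀ u ∈ closedBall (0 : F) ‖w‖, ‖fderiv ℝ (fderiv ℝ ρ) (p + u) - D2‖ ≤ K * ‖w‖ := by
      intro u hu
      rw [mem_closedBall, dist_zero_right] at hu
      have hu' : ‖u‖ < r := by linarith
      have h5 := hK.dist_le_mul (p + u) (hmem u hu').2 p (by
        have := (hmem 0 (by rw [norm_zero]; exact hr)).2
        rwa [add_zero] at this)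
      rw [dist_eq_norm, dist_eq_norm, add_sub_cancel_left] at h5
      refine h5.trans ?_
      exact mul_le_mul_of_nonneg_left hu K.2
    have h5 := (convex_closedBall (0 : F) ‖w‖).norm_image_sub_le_of_norm_hasFDerivWithin_le hd hb
      (mem_closedBall_self (norm_nonneg w)) (by rw [mem_closedBall, dist_zero_right] : w ∈ _)
    simp only [add_zero, map_zero, sub_zero] at h5
    have h6 : fderiv ℝ ρ (p + w) - D2 w - fderiv ℝ ρ p = fderiv ℝ ρ (p + w) - fderiv ℝ ρ p - D2 w := by
      abel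
    rw [h6] at h5
    refine h5.trans (le_of_eq ?_)
    ring
  refine ⟨K, r, K.2, hr, fun v hv => ?_⟩
  have hd : ∀ u ∈ closedBall (0 : F) ‖v‖, HasFDerivWithinAt
      (fun u => ρ (p + u) - fderiv ℝ ρ p u - (1 / 2 : ℝ) • D2 u u)
      (fderiv ℝ ρ (p + u) - fderiv ℝ ρ p - D2 u) (closedBall (0 : F) ‖v‖) u := by
    intro u hu
    have hu' : ‖u‖ < r := by
      rw [mem_closedBall, dist_zero_right] at hu
      linarith
    have h5 : HasFDerivAt ρ (fderiv ℝ ρ (p + u)) (p + u) :=
      ((hmem u hu').1.1.differentiableAt (by norm_num)).hasFDerivAt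
    have h6 : HasFDerivAt (fun u => ρ (p + u)) (fderiv ℝ ρ (p + u)) u := by
      have := h5.comp u (hadd u)
      rw [ContinuousLinearMap.comp_id] at this
      exact this
    have h7 : HasFDerivAt (fun u => D2 u u) ((2 : ℝ) • D2 u) u := by
      have h8 := D2.hasFDerivAt (x := u) |>.clm_apply (hasFDerivAt_id u)
      have h9 : (D2 u).comp (ContinuousLinearMap.id ℝ F) + D2.flip (id u) = (2 : ℝ) • D2 u := by
        ext x
        simp only [ContinuousLinearMap.comp_id, id, add_apply, smul_apply,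
          ContinuousLinearMap.flip_apply, smul_eq_mul]
        rw [hsym x u]
        ring
      rw [h9] at h8
      exact h8
    have h10 : HasFDerivAt (fun u => (1 / 2 : ℝ) • D2 u u) (D2 u) u := by
      have h11 := h7.const_smul (1 / 2 : ℝ)
      rw [smul_smul] at h11
      norm_num at h11
      exact h11
    exact ((h6.sub (fderiv ℝ ρ p).hasFDerivAt).sub h10).hasFDerivWithinAt
  have hb : ∀ u ∈ closedBall (0 : F) ‖v‖, ‖fderiv ℝ ρ (p + u) - fderiv ℝ ρ p - D2 u‖ ≤
      K * ‖v‖ ^ 2 := by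
    intro u hu
    rw [mem_closedBall, dist_zero_right] at hu
    refine (step1 u (by linarith)).trans ?_
    exact mul_le_mul_of_nonneg_left (pow_le_pow_left₀ (norm_nonneg _) hu 2) K.2
  have h5 := (convex_closedBall (0 : F) ‖v‖).norm_image_sub_le_of_norm_hasFDerivWithin_le hd hb
    (mem_closedBall_self (norm_nonneg v)) (by rw [mem_closedBall, dist_zero_right] : v ∈ _)
  simp only [add_zero, map_zero, sub_zero, smul_eq_mul, mul_zero] at h5
  rw [Real.norm_eq_abs] at h5
  have h6 : ρ (p + v) - (fderiv ℝ ρ p) v - 1 / 2 * (D2 v) v - ρ p =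
      ρ (p + v) - ρ p - (fderiv ℝ ρ p) v - 1 / 2 * (D2 v) v := by ring
  rw [h6] at h5
  refine h5.trans (le_of_eq ?_)
  ring

variable {m : ℕ}

lemma re_inner_smul (p x : E m) (c : ℝ) :
    (inner ℂ p (c • x) : ℂ).re = c * (inner ℂ p x : ℂ).re := by
  have h : c • x = (c : ℂ) • x := (Complex.coe_smul c x).symm
  rw [h, inner_smul_right, Complex.re_ofReal_mul]

lemma normsq_add (x y : E m) : ‖x + y‖ ^ 2 = ‖x‖ ^ 2 + 2 * (inner ℂ x y : ℂ).re + ‖y‖ ^ 2 :=
  norm_add_sq (𝕜 := ℂ) x y

end T1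

open T1 in
theorem t_taylor : S_taylor := by
  intro m D p hDo hD1 hp hpD U ρ hU hpU hρ hDρ hd0
  have hρp : ContDiffAt ℝ 3 ρ p := hρ.contDiffAt (hU.mem_nhds hpU)
  have hpnot : p ∉ D := by
    intro h
    have := hD1 h
    rw [mem_ball, dist_zero_right, hp] at this
    exact lt_irrefl _ this
  have hρ0 : ρ p = 0 := by
    apply le_antisymm
    · by_contra hcon
      push Not at hcon
      have h1 : ∀ᶠ x in 𝓝 p, 0 < ρ x := hρp.continuousAt.eventually_const_lt hcon
      have h2 : ∀ᶠ x in 𝓝 p, x ∈ U := hU.mem_nhds hpU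
      obtain ⟨x, ⟨hx1, hx2⟩, hxD⟩ := (mem_closure_iff_nhds.1 hpD _ (h1.and h2))
      have := (hDρ x hx2).1 hxD
      linarith
    · by_contra hcon
      push Not at hcon
      exact hpnot ((hDρ p hpU).2 hcon)
  have hder : HasFDerivAt ρ (fderiv ℝ ρ p) p := (hρp.differentiableAt (by norm_num)).hasFDerivAt
  set l1 := fderiv ℝ ρ p with hl1
  -- the sign of the gradient
  have hneg : ∀ v : E m, l1 v < 0 → (inner ℂ p v : ℂ).re < 0 := by
    intro v hv
    have h1 : HasDerivAt (fun t : ℝ => ρ (p + t • v)) (l1 v) 0 := by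
      have h2 : HasDerivAt (fun t : ℝ => p + t • v) v 0 := by
        have h3 := ((hasDerivAt_id (0 : ℝ)).smul_const v).const_add p
        rw [one_smul] at h3
        exact h3
      have h4 : HasFDerivAt ρ l1 ((fun t : ℝ => p + t • v) 0) := by
        simp only [zero_smul, add_zero]
        exact hder
      exact h4.comp_hasDerivAt (0 : ℝ) h2
    have h5 : ∀ᶠ t in 𝓝[>] (0 : ℝ), ρ (p + t • v) < 0 := by
      have h6 := h1.hasDerivWithinAt (s := Ioi 0)
      rw [hasDerivWithinAt_iff_tendsto_slope' (by simp)] at h6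
      filter_upwards [h6.eventually_lt_const hv, self_mem_nhdsWithin] with t ht1 ht2
      rw [slope_def_field, sub_zero, zero_smul, add_zero, hρ0, sub_zero] at ht1
      have ht2' : 0 < t := ht2
      by_contra hcon
      push Not at hcon
      have := div_nonneg hcon ht2'.le
      linarith
    have h7 : ∀ᶠ t in 𝓝[>] (0 : ℝ), p + t • v ∈ U := by
      have h8 : ContinuousAt (fun t : ℝ => p + t • v) 0 := by fun_prop
      have h9 : ∀ᶠ t in 𝓝 (0 : ℝ), p + t • v ∈ U := by
        apply h8.eventually_mem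
        apply hU.mem_nhds
        rw [zero_smul, add_zero]
        exact hpU
      exact h9.filter_mono nhdsWithin_le_nhds
    obtain ⟨t, ⟨ht1, ht2⟩, ht3⟩ := ((h5.and h7).and self_mem_nhdsWithin).exists
    have ht3' : 0 < t := ht3
    have h10 := hD1 ((hDρ _ ht2).2 ht1)
    rw [mem_ball, dist_zero_right] at h10
    have h11 : ‖p + t • v‖ ^ 2 < 1 := by
      have := norm_nonneg (p + t • v)
      nlinarith
    rw [normsq_add, hp, re_inner_smul] at h11
    have h12 : 0 ≤ ‖t • v‖ ^ 2 := by positivity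
    by_contra hcon
    push Not at hcon
    have := mul_nonneg ht3'.le hcon
    linarith
  have hpp : (inner ℂ p p : ℂ).re = 1 := by
    rw [inner_self_eq_norm_sq_to_K, hp]
    simp
  have hker : ∀ v : E m, (inner ℂ p v : ℂ).re = 0 → l1 v = 0 := by
    intro v hv
    by_contra hcon
    rcases lt_or_gt_of_ne hcon with h | h
    · have := hneg v h
      linarith
    · have h1 : l1 (-v) < 0 := by rw [map_neg]; linarith
      have h2 := hneg (-v) h1
      rw [inner_neg_right, Complex.neg_re] at h2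
      linarith
  set lam := l1 p with hlam
  have hl : ∀ v : E m, l1 v = lam * (inner ℂ p v : ℂ).re := by
    intro v
    have h1 : (inner ℂ p (v - (inner ℂ p v : ℂ).re • p) : ℂ).re = 0 := by
      rw [inner_sub_right, Complex.sub_re, re_inner_smul, hpp, mul_one, sub_self]
    have h2 := hker _ h1
    rw [map_sub, map_smul, smul_eq_mul] at h2
    linarith
  have hlam0 : 0 < lam := by
    rcases lt_trichotomy lam 0 with h | h | h
    · have := hneg p h
      rw [hpp] at this
      linarith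
    · exfalso
      apply hd0
      ext v
      rw [hl v, h, zero_mul]
      rfl
    · exact h
  have hsym : ∀ x y, fderiv ℝ (fderiv ℝ ρ) p x y = fderiv ℝ (fderiv ℝ ρ) p y x := by
    have h1 : IsSymmSndFDerivAt ℝ ρ p := hρp.isSymmSndFDerivAt (by
      rw [minSmoothness_of_isRCLikeNormedField]
      norm_num)
    intro x y
    exact h1 x y
  obtain ⟨K, r1, hK, hr1, hT⟩ := taylor2 ρ p hρp hsym
  obtain ⟨r2, hr2, hball⟩ := Metric.isOpen_iff.1 hU p hpU
  set D2 := fderiv ℝ (fderiv ℝ ρ) p with hD2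
  set b : E m →L[ℝ] E m →L[ℝ] ℝ := (1 / (2 * lam)) • D2 with hb
  have hbv : ∀ x y, b x y = 1 / (2 * lam) * D2 x y := fun x y => rfl
  set r := min r1 r2 with hr
  have hr0 : 0 < r := lt_min hr1 hr2
  have hwc : ∀ x : E m, (inner ℂ p (x - p) : ℂ).re = -(wc p x).re := by
    intro x
    unfold wc
    rw [inner_sub_right, Complex.sub_re, hpp, Complex.sub_re, Complex.one_re]
    ring
  have hexp : ∀ x : E m, ‖x - p‖ < r → |ρ x + lam * (wc p x).re - lam * b (x - p) (x - p)| ≤
      K * ‖x - p‖ ^ 3 := by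
    intro x hx
    have h1 := hT (x - p) (hx.trans_le (min_le_left _ _))
    rw [add_sub_cancel, hρ0, hl, hwc] at h1
    have h2 : ρ x + lam * (wc p x).re - lam * b (x - p) (x - p) =
        ρ x - 0 - lam * -(wc p x).re - 1 / 2 * D2 (x - p) (x - p) := by
      rw [hbv]
      field_simp
      ring
    rw [h2]
    exact h1
  have hxU : ∀ x : E m, ‖x - p‖ < r → x ∈ U := by
    intro x hx
    apply hball
    rw [mem_ball, dist_eq_norm]
    exact hx.trans_le (min_le_right _ _)
  have hCK : K / lam * lam = K := by field_simp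
  have hin : ∀ x : E m, ‖x - p‖ < r → b (x - p) (x - p) + K / lam * ‖x - p‖ ^ 3 < (wc p x).re →
      x ∈ D := by
    intro x hx hlt
    rw [hDρ x (hxU x hx)]
    have h1 := (abs_le.1 (hexp x hx)).2
    have h2 := mul_lt_mul_of_pos_left hlt hlam0
    have h3 : lam * (b (x - p) (x - p) + K / lam * ‖x - p‖ ^ 3) =
        lam * b (x - p) (x - p) + (K / lam * lam) * ‖x - p‖ ^ 3 := by ring
    rw [h3, hCK] at h2
    linarith
  refine ⟨b, K / lam, r, by positivity, hr0, ?_, ?_, hin, ?_⟩
  · intro x y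
    rw [hbv, hbv, hsym]
  · intro x hxD hx
    have h0 := (hDρ x (hxU x hx)).1 hxD
    have h1 := (abs_le.1 (hexp x hx)).1
    have h2 : lam * b (x - p) (x - p) < lam * ((wc p x).re + K / lam * ‖x - p‖ ^ 3) := by
      have h3 : lam * ((wc p x).re + K / lam * ‖x - p‖ ^ 3) =
        lam * (wc p x).re + (K / lam * lam) * ‖x - p‖ ^ 3 := by ring
      rw [h3, hCK]
      linarith
    exact lt_of_mul_lt_mul_left h2 hlam0.le
  · intro z t hz
    set u : E m := z - ((t : ℂ) * Complex.I) • p with hu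
    have hpu : (inner ℂ p u : ℂ).re = 0 := by
      rw [hu, inner_sub_right, hz, inner_smul_right, inner_self_eq_norm_sq_to_K, hp]
      simp
    have hnu : ‖u‖ ^ 2 = ‖z‖ ^ 2 + t ^ 2 := by
      have h1 : u = z + (-((t : ℂ) * Complex.I)) • p := by rw [hu, neg_smul, sub_eq_add_neg]
      rw [h1, normsq_add, inner_smul_right]
      have h2 : inner ℂ z p = (0 : ℂ) := by
        rw [← inner_conj_symm, hz, map_zero]
      rw [h2, norm_smul, hp, norm_neg, norm_mul, Complex.norm_I, Complex.norm_real]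
      simp
    refine le_of_forall_gt_imp_ge_of_dense fun k hk => ?_
    -- the points
    have hlim : Tendsto (fun e : ℝ => b u u - 2 * e * k * b u p + e ^ 2 * k ^ 2 * b p p +
        K / lam * (|e| * (‖u - (e * k) • p‖) ^ 3)) (𝓝 0) (𝓝 (b u u)) := by
      have h1 : Continuous (fun e : ℝ => b u u - 2 * e * k * b u p + e ^ 2 * k ^ 2 * b p p +
        K / lam * (|e| * (‖u - (e * k) • p‖) ^ 3)) := by fun_prop
      have h2 := h1.tendsto 0
      simp only [mul_zero, zero_mul, abs_zero, sub_zero, add_zero, ne_eq, OfNat.ofNat_ne_zero,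
        not_false_eq_true, zero_pow] at h2
      exact h2
    have hsm : Tendsto (fun e : ℝ => ‖e • u - (e ^ 2 * k) • p‖) (𝓝 0) (𝓝 0) := by
      have h1 : Continuous (fun e : ℝ => ‖e • u - (e ^ 2 * k) • p‖) := by fun_prop
      have h2 := h1.tendsto 0
      simp only [zero_smul, zero_mul, sub_zero, norm_zero, ne_eq, OfNat.ofNat_ne_zero,
        not_false_eq_true, zero_pow] at h2
      exact h2
    have hev : ∀ᶠ e in 𝓝[>] (0 : ℝ), (b u u - 2 * e * k * b u p + e ^ 2 * k ^ 2 * b p p +
        K / lam * (|e| * (‖u - (e * k) • p‖) ^ 3) < k) ∧ ‖e • u - (e ^ 2 * k) • p‖ < r :=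
      ((hlim.eventually_lt_const hk).and (hsm.eventually_lt_const hr0)).filter_mono
        nhdsWithin_le_nhds
    obtain ⟨e, ⟨he1, he2⟩, he3⟩ := (hev.and self_mem_nhdsWithin).exists
    have he : 0 < e := he3
    set v : E m := e • u - (e ^ 2 * k) • p with hv
    have hxp : p + v - p = v := by abel
    have hre : (wc p (p + v)).re = e ^ 2 * k := by
      have h1 := hwc (p + v)
      rw [hxp, hv, inner_sub_right, Complex.sub_re, re_inner_smul, re_inner_smul, hpu, hpp] at h1
      linarith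
    have hbvv : b v v = e ^ 2 * (b u u - 2 * e * k * b u p + e ^ 2 * k ^ 2 * b p p) := by
      have h1 : b p u = b u p := by rw [hbv, hbv, hsym]
      rw [hv]
      simp only [map_sub, map_smul, sub_apply, smul_apply,
        smul_eq_mul]
      rw [h1]
      ring
    have hnv : ‖v‖ = e * ‖u - (e * k) • p‖ := by
      have h1 : v = e • (u - (e * k) • p) := by
        have h8 : e * (e * k) = e ^ 2 * k := by ring
        rw [hv, smul_sub e u, smul_smul, h8]
      rw [h1, norm_smul, Real.norm_eq_abs, abs_of_pos he]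
    have hmem : p + v ∈ D := by
      apply hin (p + v)
      · rw [hxp]
        exact he2
      · rw [hxp, hre, hbvv, hnv]
        rw [abs_of_pos he] at he1
        have h1 := mul_lt_mul_of_pos_left he1 (by positivity : 0 < e ^ 2)
        refine lt_of_eq_of_lt ?_ h1
        ring
    have h1 := hD1 hmem
    rw [mem_ball, dist_zero_right] at h1
    have h2 : ‖p + v‖ ^ 2 < 1 := by
      have := norm_nonneg (p + v)
      nlinarith
    have h3 : p + v = (1 - e ^ 2 * k) • p + e • u := by
      rw [hv, sub_smul, one_smul]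
      abel
    rw [h3, normsq_add, norm_smul, norm_smul, hp, mul_one, re_inner_smul] at h2
    have h4 : (inner ℂ ((1 - e ^ 2 * k) • p) u : ℂ).re = 0 := by
      have h5 : (1 - e ^ 2 * k) • p = ((1 - e ^ 2 * k : ℝ) : ℂ) • p := (Complex.coe_smul _ p).symm
      rw [h5, inner_smul_left, Complex.conj_ofReal, Complex.re_ofReal_mul, hpu, mul_zero]
    rw [h4, mul_zero, mul_zero, add_zero, mul_pow, hnu, Real.norm_eq_abs, Real.norm_eq_abs,
      sq_abs, sq_abs] at h2
    have h5 : 0 < e ^ 2 := by positivity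
    have h6 : e ^ 2 * (‖z‖ ^ 2 + t ^ 2) < e ^ 2 * (2 * k) := by
      nlinarith [sq_nonneg (e ^ 2 * k)]
    have h7 := lt_of_mul_lt_mul_left h6 h5.le
    linarith

end Pool.Agent.H303.CB
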