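import Pool.Agent.H303.CB.Stm

/-! Project CB of helper303, part T2: decomposition of a real quadratic form. -/

set_option autoImplicit false

open Metric Set Filter Topology
open scoped ContDiff ComplexConjugate

namespace Pool.Agent.H253.CB

open Pool.Agent.H303.CB

variable {m : ℕ}

section forms

variable (b : E m →L[ℝ] E m →L[ℝ] ℝ)

theorem csmul (c : ℂ) (x : E m) : c • x = c.re • x + c.im • (Complex.I • x) := by
  conv_lhs => rw [← Complex.re_add_im c]
  rw [add_smul, mul_smul]
  rw [Complex.coe_smul, Complex.coe_smul]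

theorem cIsmul (c : ℂ) (x : E m) : Complex.I • (c • x) = c.re • (Complex.I • x) - c.im • x := by
  rw [smul_comm, csmul c (Complex.I • x), smul_smul Complex.I Complex.I x, Complex.I_mul_I,
    neg_one_smul, smul_neg, sub_eq_add_neg]

theorem b1 (c : ℂ) (x y : E m) : b (c • x) y = c.re * b x y + c.im * b (Complex.I • x) y := by
  rw [csmul]
  simp

theorem b2 (c : ℂ) (x y : E m) : b (Complex.I • (c • x)) y = c.re * b (Complex.I • x) y - c.im * b x y := by
  rw [cIsmul]
  simp

theorem b3 (c : ℂ) (x y : E m) : b x (c • y) = c.re * b x y + c.im * b x (Complex.I • y) := by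
  rw [csmul]
  simp

theorem b4 (c : ℂ) (x y : E m) : b x (Complex.I • (c • y)) = c.re * b x (Complex.I • y) - c.im * b x y := by
  rw [cIsmul]
  simp

/-- the hermitian part -/
noncomputable def h0 (x y : E m) : ℂ :=
  ⟨(b x y + b (Complex.I • x) (Complex.I • y)) / 2, -(b x (Complex.I • y) - b (Complex.I • x) y) / 2⟩

/-- the complex bilinear part -/
noncomputable def g0 (x y : E m) : ℂ :=
  ⟨(b x y - b (Complex.I • x) (Complex.I • y)) / 2, -(b x (Complex.I • y) + b (Complex.I • x) y) / 2⟩

theorem h0_add_left (x x' y : E m) : h0 b (x + x') y = h0 b x y + h0 b x' y := by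
  apply Complex.ext <;> simp [h0, smul_add] <;> ring

theorem h0_add_right (x y y' : E m) : h0 b x (y + y') = h0 b x y + h0 b x y' := by
  apply Complex.ext <;> simp [h0, smul_add] <;> ring

theorem h0_smul_left (c : ℂ) (x y : E m) : h0 b (c • x) y = conj c * h0 b x y := by
  unfold h0
  rw [b1 b c x y, b2 b c x (Complex.I • y), b1 b c x (Complex.I • y), b2 b c x y]
  apply Complex.ext <;> simp only [Complex.mul_re, Complex.mul_im, Complex.conj_re,
    Complex.conj_im] <;> ring

theorem h0_smul_right (c : ℂ) (x y : E m) : h0 b x (c • y) = c * h0 b x y := by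
  unfold h0
  rw [b3 b c x y, b4 b c (Complex.I • x) y, b3 b c (Complex.I • x) y, b4 b c x y]
  apply Complex.ext <;> simp only [Complex.mul_re, Complex.mul_im] <;> ring

theorem g0_add_left (x x' y : E m) : g0 b (x + x') y = g0 b x y + g0 b x' y := by
  apply Complex.ext <;> simp [g0, smul_add] <;> ring

theorem g0_add_right (x y y' : E m) : g0 b x (y + y') = g0 b x y + g0 b x y' := by
  apply Complex.ext <;> simp [g0, smul_add] <;> ring

theorem g0_smul_left (c : ℂ) (x y : E m) : g0 b (c • x) y = c * g0 b x y := by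
  unfold g0
  rw [b1 b c x y, b2 b c x (Complex.I • y), b1 b c x (Complex.I • y), b2 b c x y]
  apply Complex.ext <;> simp only [Complex.mul_re, Complex.mul_im] <;> ring

theorem g0_smul_right (c : ℂ) (x y : E m) : g0 b x (c • y) = c * g0 b x y := by
  unfold g0
  rw [b3 b c x y, b4 b c (Complex.I • x) y, b3 b c (Complex.I • x) y, b4 b c x y]
  apply Complex.ext <;> simp only [Complex.mul_re, Complex.mul_im] <;> ring

variable (hb : ∀ x y, b x y = b y x)

include hb in
theorem h0_symm (x y : E m) : conj (h0 b y x) = h0 b x y := by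
  apply Complex.ext
  · simp only [h0, Complex.conj_re]
    rw [hb y x, hb (Complex.I • y) (Complex.I • x)]
  · simp only [h0, Complex.conj_im]
    rw [hb y (Complex.I • x), hb (Complex.I • y) x]
    ring

end forms

/-- the projection to the complement of `p` -/
noncomputable def Pr (p : E m) : E m →L[ℂ] E m :=
  ContinuousLinearMap.id ℂ (E m) - (innerSL ℂ p).smulRight p

theorem Pr_apply (p x : E m) : Pr p x = x - (inner ℂ p x : ℂ) • p := by
  simp [Pr]

theorem t_dec : S_dec := by
  intro m p hp b hb hpos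
  have hpp : (inner ℂ p p : ℂ) = 1 := by
    rw [inner_self_eq_norm_sq_to_K, hp]
    simp
  have hPp : Pr p p = 0 := by
    rw [Pr_apply, hpp, one_smul, sub_self]
  have hPz : ∀ z : E m, inner ℂ p z = (0 : ℂ) → Pr p z = z := by
    intro z hz
    rw [Pr_apply, hz, zero_smul, sub_zero]
  have hPperp : ∀ x : E m, inner ℂ p (Pr p x) = (0 : ℂ) := by
    intro x
    rw [Pr_apply, inner_sub_right, inner_smul_right, hpp, mul_one, sub_self]
  -- positivity
  have hbz : ∀ z : E m, inner ℂ p z = (0 : ℂ) → (1 / 2) * ‖z‖ ^ 2 ≤ b z z := by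
    intro z hz
    have := hpos z 0 hz
    simpa using this
  have hb2 : ∀ z : E m, inner ℂ p z = (0 : ℂ) →
      (1 / 2) * ‖z‖ ^ 2 ≤ (b z z + b (Complex.I • z) (Complex.I • z)) / 2 := by
    intro z hz
    have h1 := hbz z hz
    have h2 := hbz (Complex.I • z) (by rw [inner_smul_right, hz, mul_zero])
    rw [norm_smul, Complex.norm_I, one_mul] at h2
    linarith
  -- the hermitian form
  obtain ⟨h, hdef⟩ : ∃ h : E m → E m → ℂ, h = fun x y =>
      conj (inner ℂ p x : ℂ) * (inner ℂ p y : ℂ) + h0 b (Pr p x) (Pr p y) := ⟨_, rfl⟩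
  have hadd_r : ∀ x y y', h x (y + y') = h x y + h x y' := by
    intro x y y'
    simp only [hdef]
    rw [inner_add_right, map_add, h0_add_right]
    ring
  have hsm_r : ∀ (c : ℂ) x y, h x (c • y) = c * h x y := by
    intro c x y
    simp only [hdef]
    rw [inner_smul_right, map_smul, h0_smul_right]
    ring
  have hsymm : ∀ x y, conj (h y x) = h x y := by
    intro x y
    simp only [hdef]
    rw [map_add, map_mul, Complex.conj_conj, h0_symm b hb]
    ring
  have hadd_l : ∀ x x' y, h (x + x') y = h x y + h x' y := by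
    intro x x' y
    rw [← hsymm, hadd_r, map_add, hsymm, hsymm]
  have hsm_l : ∀ (c : ℂ) x y, h (c • x) y = conj c * h x y := by
    intro c x y
    rw [← hsymm, hsm_r, map_mul, hsymm]
  have hself : ∀ x, h x x = ((‖(inner ℂ p x : ℂ)‖ ^ 2 +
      (b (Pr p x) (Pr p x) + b (Complex.I • Pr p x) (Complex.I • Pr p x)) / 2 : ℝ) : ℂ) := by
    intro x
    simp only [hdef]
    rw [← Complex.normSq_eq_conj_mul_self, Complex.normSq_eq_norm_sq]
    apply Complex.ext
    · simp [h0]
    · simp only [h0, Complex.add_im, Complex.ofReal_im]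
      rw [hb (Complex.I • Pr p x) (Pr p x)]
      ring
  have hposd : ∀ x, 0 ≤ (h x x).re := by
    intro x
    rw [hself, Complex.ofReal_re]
    have := hb2 _ (hPperp x)
    have h2 : 0 ≤ (1 / 2) * ‖Pr p x‖ ^ 2 := by positivity
    have h3 : 0 ≤ ‖(inner ℂ p x : ℂ)‖ ^ 2 := by positivity
    linarith
  have hdefn : ∀ x, h x x = 0 → x = 0 := by
    intro x hx
    have h1 : (h x x).re = 0 := by rw [hx]; rfl
    rw [hself, Complex.ofReal_re] at h1
    have := hb2 _ (hPperp x)
    have h2 : 0 ≤ (1 / 2) * ‖Pr p x‖ ^ 2 := by positivity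
    have h3 : 0 ≤ ‖(inner ℂ p x : ℂ)‖ ^ 2 := by positivity
    have h4 : ‖(inner ℂ p x : ℂ)‖ ^ 2 = 0 := by linarith
    have h5 : ‖Pr p x‖ ^ 2 = 0 := by linarith
    have h6 : (inner ℂ p x : ℂ) = 0 := norm_eq_zero.1 (pow_eq_zero_iff (two_ne_zero) |>.1 h4)
    have h7 : Pr p x = 0 := norm_eq_zero.1 (pow_eq_zero_iff (two_ne_zero) |>.1 h5)
    rwa [hPz x h6] at h7
  -- the operator
  obtain ⟨hL, hLd⟩ : ∃ hL : E m → (E m →L[ℂ] ℂ), ∀ x y, hL x y = h x y := by
    refine ⟨fun x => LinearMap.toContinuousLinearMap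
      { toFun := h x, map_add' := hadd_r x, map_smul' := fun c y => ?_ }, fun x y => rfl⟩
    rw [hsm_r]
    rfl
  obtain ⟨T, hT⟩ : ∃ T : E m →L[ℂ] E m, ∀ x y, inner ℂ (T x) y = h x y := by
    refine ⟨LinearMap.toContinuousLinearMap
      { toFun := fun x => (InnerProductSpace.toDual ℂ (E m)).symm (hL x), map_add' := ?_,
        map_smul' := ?_ }, fun x y => ?_⟩
    · intro x y
      rw [← map_add]
      congr 1
      ext z
      rw [ContinuousLinearMap.add_apply, hLd, hLd, hLd, hadd_l]
    · intro c x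
      have e1 : hL (c • x) = conj c • hL x := by
        ext z
        rw [ContinuousLinearMap.smul_apply, hLd, hLd, hsm_l, smul_eq_mul]
      rw [e1, map_smulₛₗ]
      simp
    · change inner ℂ ((InnerProductSpace.toDual ℂ (E m)).symm (hL x)) y = h x y
      rw [InnerProductSpace.toDual_symm_apply, hLd]
  have hT' : ∀ x y, inner ℂ x (T y) = h x y := by
    intro x y
    rw [← inner_conj_symm, hT, hsymm]
  have hTp : 0 ≤ T := by
    rw [ContinuousLinearMap.nonneg_iff_isPositive]
    refine ⟨fun x y => ?_, fun x => ?_⟩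
    · change inner ℂ (T x) y = inner ℂ x (T y)
      rw [hT, hT']
    · change 0 ≤ RCLike.re (inner ℂ (T x) x)
      rw [hT]
      exact hposd x
  have hB2 : CFC.sqrt T * CFC.sqrt T = T := CFC.sqrt_mul_sqrt_self T hTp
  have hBsa : IsSelfAdjoint (CFC.sqrt T) := (CFC.sqrt_nonneg T).isSelfAdjoint
  obtain ⟨B, hBdef⟩ : ∃ B, B = CFC.sqrt T := ⟨_, rfl⟩
  rw [← hBdef] at hB2 hBsa
  have hBB : ∀ x y, inner ℂ (B x) (B y) = h x y := by
    intro x y
    rw [← hT']
    conv_rhs => rw [← hB2]
    have h1 : ContinuousLinearMap.adjoint B = B := hBsa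
    have h2 := ContinuousLinearMap.adjoint_inner_left B (B y) x
    rw [h1] at h2
    rw [ContinuousLinearMap.mul_apply, h2]
  have hBn : ∀ x, ‖B x‖ ^ 2 = (h x x).re := by
    intro x
    rw [← hBB, inner_self_eq_norm_sq_to_K]
    norm_cast
  have hBinj : Function.Injective B.toLinearMap := by
    rw [← LinearMap.ker_eq_bot, LinearMap.ker_eq_bot']
    intro x hx
    apply hdefn
    have : B x = 0 := hx
    rw [← hBB, this, inner_zero_left]
  set Be := LinearEquiv.ofInjectiveEndo B.toLinearMap hBinj with hBe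
  have hBe1 : ∀ x, Be x = B x := fun x => rfl
  -- the complex bilinear form
  set G : E m →ₗ[ℂ] E m →ₗ[ℂ] ℂ := LinearMap.mk₂ ℂ (g0 b) (g0_add_left b)
    (fun c x y => g0_smul_left b c x y) (g0_add_right b) (fun c x y => g0_smul_right b c x y) with hG
  obtain ⟨G', hG'⟩ : ∃ G' : E m →L[ℂ] (E m →L[ℂ] ℂ), ∀ x y, G' x y = g0 b x y := by
    refine ⟨LinearMap.toContinuousLinearMap
      ((LinearMap.toContinuousLinearMap : (E m →ₗ[ℂ] ℂ) ≃ₗ[ℂ] (E m →L[ℂ] ℂ)).toLinearMap ∘ₗ G),
      fun x y => rfl⟩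
  obtain ⟨Λ, hΛ⟩ : ∃ Λ : E m →L[ℂ] ℂ, ∀ z, (Λ z).re = -2 * b z (Complex.I • p) := by
    refine ⟨LinearMap.toContinuousLinearMap
      { toFun := fun z => ⟨-2 * b z (Complex.I • p), 2 * b (Complex.I • z) (Complex.I • p)⟩,
        map_add' := ?_, map_smul' := ?_ }, fun z => rfl⟩
    · intro x y
      apply Complex.ext <;> simp [smul_add] <;> ring
    · intro c x
      rw [b1 b c x (Complex.I • p), b2 b c x (Complex.I • p)]
      apply Complex.ext <;> simp only [RingHom.id_apply, smul_eq_mul, Complex.mul_re,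
        Complex.mul_im] <;> ring
  refine ⟨B, LinearMap.toContinuousLinearMap Be.symm.toLinearMap, fun z => G' z z, Λ,
    b (Complex.I • p) (Complex.I • p), fun x => ?_, fun x => ?_, ?_, fun z hz => ?_, ?_,
    fun c z => ?_, ⟨‖G'‖, fun z => ?_⟩, fun z t hz => ?_⟩
  · exact Be.symm_apply_apply x
  · exact Be.apply_symm_apply x
  · have h1 : ‖B p‖ ^ 2 = 1 := by
      rw [hBn, hself, hPp, hpp]
      simp
    have h2 : 0 ≤ ‖B p‖ := norm_nonneg _
    nlinarith
  · rw [hBB]
    simp only [hdef]
    rw [hPp, hz]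
    have : h0 b 0 (Pr p z) = 0 := by
      have := h0_smul_left b 0 0 (Pr p z)
      simpa using this
    rw [this]
    simp
  · exact G'.differentiable.clm_apply differentiable_id
  · simp only [hG']
    rw [g0_smul_left, g0_smul_right]
    ring
  · have := G'.le_opNorm₂ z z
    calc ‖G' z z‖ ≤ ‖G'‖ * ‖z‖ * ‖z‖ := this
      _ = _ := by ring
  · change _ = ‖B z‖ ^ 2 + (G' z z).re + _ + _
    rw [hBn, hself, hΛ, hPz z hz, hz, hG']
    have e1 : ((t : ℂ) * Complex.I) • p = t • (Complex.I • p) := by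
      rw [mul_smul, Complex.coe_smul]
    rw [e1]
    simp only [map_sub, ContinuousLinearMap.sub_apply, map_smul, ContinuousLinearMap.smul_apply,
      smul_eq_mul]
    rw [hb (Complex.I • p) z]
    simp only [g0, norm_zero, Complex.ofReal_re]
    ring

end Pool.Agent.H253.CB
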