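import Pool.Agent.H303.CB.Stm

/-!
Project CB (helper303), T4: the map `F` maps `D` into the Siegel domain.
-/

set_option autoImplicit false

open Metric Set Filter Topology

namespace Pool.Agent.H643.CB

open Pool.Agent.H303.CB

/-! ### the peak function -/

/-- the real and imaginary parts of `K w ^ β` -/
lemma pow_est {K β : ℝ} (hK : 0 < K) (hβ : 0 < β) (hβ4 : β ≤ 1 / 4) {w : ℂ} (hw : 0 < w.re) :
    K / 2 * ‖w‖ ^ β ≤ ((K : ℂ) * w ^ (β : ℂ)).re ∧
    |((K : ℂ) * w ^ (β : ℂ)).im| ≤ 4 * β * ((K : ℂ) * w ^ (β : ℂ)).re := by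
  have hre : ((K : ℂ) * w ^ (β : ℂ)).re = K * (‖w‖ ^ β * Real.cos (w.arg * β)) := by
    rw [Complex.re_ofReal_mul, Complex.cpow_ofReal_re]
  have him : ((K : ℂ) * w ^ (β : ℂ)).im = K * (‖w‖ ^ β * Real.sin (w.arg * β)) := by
    rw [Complex.im_ofReal_mul, Complex.cpow_ofReal_im]
  have harg : |w.arg| < Real.pi / 2 := Complex.abs_arg_lt_pi_div_two_iff.2 (Or.inl hw)
  have hpi : Real.pi < 3.15 := Real.pi_lt_d2
  have h1 : |w.arg * β| ≤ 2 * β := by
    rw [abs_mul, abs_of_pos hβ]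
    have : |w.arg| ≤ 2 := by linarith
    exact mul_le_mul_of_nonneg_right this hβ.le
  have h2 : |w.arg * β| ≤ 1 / 2 := by linarith
  have hcos : 1 / 2 ≤ Real.cos (w.arg * β) := by
    have h3 := Real.one_sub_sq_div_two_le_cos (x := w.arg * β)
    have h4 : (w.arg * β) ^ 2 ≤ (1 / 2) ^ 2 := by
      rw [← sq_abs]
      exact pow_le_pow_left₀ (abs_nonneg _) h2 2
    linarith
  have hpow : 0 ≤ ‖w‖ ^ β := Real.rpow_nonneg (norm_nonneg _) _
  have hKp : 0 ≤ K * ‖w‖ ^ β := mul_nonneg hK.le hpow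
  have e1 : K / 2 * ‖w‖ ^ β ≤ K * (‖w‖ ^ β * Real.cos (w.arg * β)) := by
    have := mul_le_mul_of_nonneg_left hcos hKp
    nlinarith
  refine ⟨by rw [hre]; exact e1, ?_⟩
  rw [him, hre]
  have h5 : |Real.sin (w.arg * β)| ≤ 2 * β := Real.abs_sin_le_abs.trans h1
  rw [abs_mul, abs_mul, abs_of_pos hK, abs_of_nonneg hpow]
  calc K * (‖w‖ ^ β * |Real.sin (w.arg * β)|) = (K * ‖w‖ ^ β) * |Real.sin (w.arg * β)| := by ring
    _ ≤ (K * ‖w‖ ^ β) * (2 * β) := mul_le_mul_of_nonneg_left h5 hKp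
    _ = 4 * β * (K / 2 * ‖w‖ ^ β) := by ring
    _ ≤ 4 * β * (K * (‖w‖ ^ β * Real.cos (w.arg * β))) :=
        mul_le_mul_of_nonneg_left e1 (by positivity)

/-- the peak function compared with its modulus -/
lemma nn_est (K β : ℝ) (w : ℂ) :
    ‖nn K β w‖ = Real.exp (-((K : ℂ) * w ^ (β : ℂ)).re) ∧
    ‖nn K β w - (Real.exp (-((K : ℂ) * w ^ (β : ℂ)).re) : ℝ)‖ ≤
      Real.exp (-((K : ℂ) * w ^ (β : ℂ)).re) * |((K : ℂ) * w ^ (β : ℂ)).im| := by
  set u : ℂ := (K : ℂ) * w ^ (β : ℂ) with hu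
  have h1 : nn K β w = (Real.exp (-u.re) : ℝ) * Complex.exp (Complex.I * ((-u.im : ℝ) : ℂ)) := by
    unfold nn
    rw [← hu, Complex.ofReal_exp, ← Complex.exp_add]
    congr 1
    apply Complex.ext <;> simp
  constructor
  · unfold nn
    rw [← hu, Complex.norm_exp, Complex.neg_re]
  · have h2 : nn K β w - (Real.exp (-u.re) : ℝ) =
        (Real.exp (-u.re) : ℝ) * (Complex.exp (Complex.I * ((-u.im : ℝ) : ℂ)) - 1) := by
      rw [h1]; ring
    rw [h2, norm_mul, Complex.norm_real, Real.norm_of_nonneg (Real.exp_pos _).le]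
    refine mul_le_mul_of_nonneg_left ?_ (Real.exp_pos _).le
    refine Real.norm_exp_I_mul_ofReal_sub_one_le.trans ?_
    rw [Real.norm_eq_abs, abs_neg]

lemma exp_mul_le {X : ℝ} : X * Real.exp (-X) ≤ 1 - Real.exp (-X) := by
  have h1 := Real.add_one_le_exp X
  have h2 : Real.exp (-X) * Real.exp X = 1 := by rw [← Real.exp_add]; simp
  have h3 := Real.exp_pos (-X)
  nlinarith

lemma one_sub_exp_ge {X u : ℝ} (hu0 : 0 ≤ u) (hX : 2 * u ≤ X) (hu : 2 * u ≤ 1) :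
    u ≤ 1 - Real.exp (-X) := by
  have h0 : Real.exp (-X) ≤ Real.exp (-(2 * u)) := Real.exp_le_exp.2 (by linarith)
  have h1 : Real.exp (-(2 * u)) * (1 + 2 * u) ≤ 1 := by
    have h2 := Real.add_one_le_exp (2 * u)
    have h3 : Real.exp (-(2 * u)) * Real.exp (2 * u) = 1 := by rw [← Real.exp_add]; simp
    have h4 := Real.exp_pos (-(2 * u))
    nlinarith
  have h2 : (1 - u) * (1 + 2 * u) ≥ 1 := by nlinarith
  have h3 : 0 < 1 + 2 * u := by linarith
  have h4 : Real.exp (-(2 * u)) ≤ 1 - u := by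
    by_contra h5
    push Not at h5
    nlinarith
  linarith

/-! ### real inequality near the point -/

lemma near_ineq {s R Q μ δ C C1 C4 β : ℝ} (hs : 0 < s) (hR : 0 ≤ R) (hQ1 : R / 2 ≤ Q)
    (hQ2 : Q ≤ C4 * R) (hμ0 : 0 < μ) (hμ1 : μ ≤ 1) (hδ : 0 ≤ δ) (hC : 0 ≤ C) (hC1 : 1 ≤ C1)
    (hβ : 0 < β) (hβC : 4 * β * C1 ≤ 1 / 4) (hδ1 : C1 * δ < 1)
    (hδμ : (2 * C + (C1 + C) * C4) * δ ≤ (1 - μ) / 4)
    (hout : Q < s * (1 + C * δ) + C * δ * R) :
    μ * Q + 4 * β * C1 * (1 - μ) * R + s * μ * C1 * δ < s := by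
  have hQ0 : 0 ≤ Q := by linarith
  have h1 : 0 < 1 - C1 * δ := by linarith
  have h2 : 0 < 1 + C * δ := by positivity
  -- lower bound
  have h3 : (1 - C1 * δ) * (Q - C * δ * R) < (1 - C1 * δ) * (s * (1 + C * δ)) :=
    mul_lt_mul_of_pos_left (by linarith) h1
  have h4 : Q - C * δ * R - C1 * δ * Q ≤ (1 - C1 * δ) * (Q - C * δ * R) := by
    have : 0 ≤ C1 * δ * (C * δ * R) := by positivity
    nlinarith
  have h5 : s * (1 - C1 * δ) ≤ s * (1 - μ * C1 * δ) := by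
    refine mul_le_mul_of_nonneg_left ?_ hs.le
    have : μ * (C1 * δ) ≤ 1 * (C1 * δ) := mul_le_mul_of_nonneg_right hμ1 (by positivity)
    linarith
  have h6 : Q - C * δ * R - C1 * δ * Q < (1 + C * δ) * (s * (1 - μ * C1 * δ)) := by
    calc Q - C * δ * R - C1 * δ * Q ≤ (1 - C1 * δ) * (Q - C * δ * R) := h4
      _ < (1 - C1 * δ) * (s * (1 + C * δ)) := h3
      _ = (1 + C * δ) * (s * (1 - C1 * δ)) := by ring
      _ ≤ _ := mul_le_mul_of_nonneg_left h5 h2.le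
  -- upper bound
  have h7 : 4 * β * C1 * (1 - μ) * R ≤ (1 - μ) * R / 4 := by
    have : (4 * β * C1) * ((1 - μ) * R) ≤ (1 / 4) * ((1 - μ) * R) :=
      mul_le_mul_of_nonneg_right hβC (mul_nonneg (by linarith) hR)
    linarith
  have h7' : 0 ≤ 4 * β * C1 * (1 - μ) * R := by
    have : 0 ≤ 1 - μ := by linarith
    positivity
  have h8 : μ * Q + 4 * β * C1 * (1 - μ) * R ≤ Q + R := by
    have e1 : μ * Q ≤ 1 * Q := mul_le_mul_of_nonneg_right hμ1 hQ0
    have e2 : (1 - μ) * R / 4 ≤ R := by nlinarith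
    linarith
  have h9 : (1 + C * δ) * (μ * Q + 4 * β * C1 * (1 - μ) * R) ≤
      μ * Q + (1 - μ) * R / 4 + C * δ * (Q + R) := by
    have e1 : C * δ * (μ * Q + 4 * β * C1 * (1 - μ) * R) ≤ C * δ * (Q + R) :=
      mul_le_mul_of_nonneg_left h8 (by positivity)
    nlinarith
  have h10 : μ * Q + (1 - μ) * R / 4 + C * δ * (Q + R) ≤ Q - C * δ * R - C1 * δ * Q := by
    have e1 : (1 - μ) * (R / 2) ≤ (1 - μ) * Q := mul_le_mul_of_nonneg_left hQ1 (by linarith)
    have e2 : (2 * C + (C1 + C) * C4) * δ * R ≤ (1 - μ) / 4 * R :=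
      mul_le_mul_of_nonneg_right hδμ hR
    have e3 : (C1 + C) * δ * Q ≤ (C1 + C) * δ * (C4 * R) :=
      mul_le_mul_of_nonneg_left hQ2 (by positivity)
    nlinarith
  have h11 : (1 + C * δ) * (μ * Q + 4 * β * C1 * (1 - μ) * R) <
      (1 + C * δ) * (s * (1 - μ * C1 * δ)) := (h9.trans h10).trans_lt h6
  have h12 := lt_of_mul_lt_mul_left h11 h2.le
  linarith

/-! ### geometry -/

section geo

variable {m : ℕ} {p x : E m}

lemma inner_zc (hp : ‖p‖ = 1) (x : E m) : inner ℂ p (zc p x) = 0 := by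
  unfold zc
  rw [inner_sub_right, inner_smul_right, inner_self_eq_norm_sq_to_K, hp]
  simp

lemma norm_sub_p (hp : ‖p‖ = 1) (x : E m) : ‖x - p‖ ^ 2 = ‖zc p x‖ ^ 2 + ‖wc p x‖ ^ 2 := by
  have h1 : x - p = zc p x + (-(wc p x)) • p := by
    unfold zc wc
    module
  have h2 : inner ℂ (zc p x) ((-(wc p x)) • p) = 0 := by
    rw [inner_smul_right, ← inner_conj_symm, inner_zc hp, map_zero, mul_zero]
  have h3 := norm_add_sq_eq_norm_sq_add_norm_sq_of_inner_eq_zero (zc p x) ((-(wc p x)) • p) h2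
  rw [h1, pow_two, h3, norm_smul, norm_neg, hp]
  ring

lemma norm_x (hp : ‖p‖ = 1) (x : E m) :
    ‖x‖ ^ 2 = ‖zc p x‖ ^ 2 + (1 - 2 * (wc p x).re + ‖wc p x‖ ^ 2) := by
  have h1 : x = zc p x + (1 - wc p x) • p := by
    unfold zc wc
    module
  have h2 : inner ℂ (zc p x) ((1 - wc p x) • p) = 0 := by
    rw [inner_smul_right, ← inner_conj_symm, inner_zc hp, map_zero, mul_zero]
  have h3 := norm_add_sq_eq_norm_sq_add_norm_sq_of_inner_eq_zero (zc p x) ((1 - wc p x) • p) h2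
  have h4 : ‖1 - wc p x‖ ^ 2 = 1 - 2 * (wc p x).re + ‖wc p x‖ ^ 2 := by
    rw [← Complex.normSq_eq_norm_sq, ← Complex.normSq_eq_norm_sq, Complex.normSq_apply,
      Complex.normSq_apply]
    simp only [Complex.sub_re, Complex.one_re, Complex.sub_im, Complex.one_im]
    ring
  conv_lhs => rw [h1]
  rw [pow_two, h3, norm_smul, hp, ← h4]
  ring

end geo

theorem t_map : S_map := by
  intro m D p B B' q Λ a C r hD
  have hp := hD.np
  have hC := hD.C0
  -- constants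
  set C1 : ℝ := 2 * C + ‖Λ‖ + 1 with hC1
  set C4 : ℝ := ‖B‖ ^ 2 + C + ‖Λ‖ + |a| with hC4
  have hC1' : 1 ≤ C1 := by rw [hC1]; have := norm_nonneg Λ; linarith
  have hC4' : 0 ≤ C4 := by rw [hC4]; positivity
  set C7 : ℝ := 2 * C + (C1 + C) * C4 + C1 + 1 with hC7
  have hC7' : 1 ≤ C7 := by
    rw [hC7]
    have : 0 ≤ (C1 + C) * C4 := by positivity
    linarith
  set β : ℝ := 1 / (16 * C1) with hβ
  have hβ0 : 0 < β := by positivity
  have hβ4 : β ≤ 1 / 4 := by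
    rw [hβ]
    apply one_div_le_one_div_of_le (by norm_num)
    linarith
  have hβC : 4 * β * C1 ≤ 1 / 4 := by
    rw [hβ]
    apply le_of_eq
    field_simp
    norm_num
  set r1 : ℝ := min (r / 2) (1 / (8 * C7)) with hr1
  have hr10 : 0 < r1 := lt_min (by linarith [hD.r0]) (by positivity)
  have hr1r : r1 < r := (min_le_left _ _).trans_lt (by linarith [hD.r0])
  have hr1C : r1 * C7 ≤ 1 / 8 := by
    have h1 : r1 ≤ 1 / (8 * C7) := min_le_right _ _
    calc r1 * C7 ≤ 1 / (8 * C7) * C7 := mul_le_mul_of_nonneg_right h1 (by linarith)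
      _ = 1 / 8 := by field_simp
  have hr11 : r1 ≤ 1 := (le_mul_of_one_le_right hr10.le hC7').trans (by linarith)
  set y1 : ℝ := (r1 ^ 2 / 2) ^ β with hy1
  have hy10 : 0 < y1 := Real.rpow_pos_of_pos (by positivity) _
  set C8 : ℝ := 4 * ‖B‖ ^ 2 + 4 * C + 4 * ‖Λ‖ + 1 with hC8
  have hC80 : 0 < C8 := by positivity
  refine ⟨32 * C7 + 4 * C8 / (r1 ^ 2 * y1), β, by positivity, hβ0, ?_⟩
  set K : ℝ := 32 * C7 + 4 * C8 / (r1 ^ 2 * y1) with hK
  have hK0 : 0 < K := by positivity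
  intro x hx
  set z : E m := zc p x with hz
  set w : ℂ := wc p x with hw
  set s : ℝ := w.re with hs
  set t : ℝ := w.im with ht
  set δ : ℝ := ‖x - p‖ with hδ
  have hδ2 : δ ^ 2 = ‖z‖ ^ 2 + ‖w‖ ^ 2 := norm_sub_p hp x
  have hx1 : ‖x‖ < 1 := by simpa using hD.sub hx
  have hδs : δ ^ 2 < 2 * s := by
    have h1 := norm_x hp x
    have h2 : ‖x‖ ^ 2 < 1 := by
      rw [sq_lt_one_iff₀ (norm_nonneg x)]
      exact hx1
    rw [h1] at h2
    rw [hδ2]
    linarith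
  have hs0 : 0 < s := by
    have := sq_nonneg δ
    linarith
  have hsw : s ≤ ‖w‖ := (le_abs_self _).trans (Complex.abs_re_le_norm w)
  have htw : |t| ≤ ‖w‖ := Complex.abs_im_le_norm w
  have hδ0 : 0 ≤ δ := norm_nonneg _
  have hzδ : ‖z‖ ≤ δ := by
    apply le_of_sq_le_sq _ hδ0
    have := sq_nonneg ‖w‖
    linarith
  have hwδ : ‖w‖ ≤ δ := by
    apply le_of_sq_le_sq _ hδ0
    have := sq_nonneg ‖z‖
    linarith
  have hδ22 : δ < 2 := by
    by_contra h
    push Not at h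
    have h1 : 2 * δ ≤ δ * δ := mul_le_mul_of_nonneg_right h hδ0
    have h2 : δ ^ 2 = δ * δ := pow_two δ
    linarith
  have hz0 : inner ℂ p z = 0 := inner_zc hp x
  -- the peak function
  set X : ℝ := ((K : ℂ) * w ^ (β : ℂ)).re with hX
  set Y : ℝ := ((K : ℂ) * w ^ (β : ℂ)).im with hY
  obtain ⟨hX1, hY1⟩ := pow_est hK0 hβ0 hβ4 (w := w) hs0
  obtain ⟨hn1, hn2⟩ := nn_est K β w
  rw [← hX] at hX1 hY1 hn1 hn2
  rw [← hY] at hY1 hn2
  set μ : ℝ := Real.exp (-X) with hμ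
  set n : ℂ := nn K β w with hn
  have hX0 : 0 ≤ X := le_trans (by positivity) hX1
  have hμ0 : 0 < μ := Real.exp_pos _
  have hμ1 : μ ≤ 1 := Real.exp_le_one_iff.2 (by linarith)
  have hnμ : ‖n - (μ : ℝ)‖ ≤ 4 * β * (1 - μ) := by
    refine hn2.trans ?_
    calc μ * |Y| ≤ μ * (4 * β * X) := mul_le_mul_of_nonneg_left hY1 hμ0.le
      _ = 4 * β * (X * Real.exp (-X)) := by rw [hμ]; ring
      _ ≤ 4 * β * (1 - μ) := mul_le_mul_of_nonneg_left exp_mul_le (by positivity)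
  -- the goal
  have hBz : ‖B (Zc p K β x)‖ ^ 2 = μ ^ 2 * ‖B z‖ ^ 2 := by
    have h1 : B (Zc p K β x) = n • B z := by
      unfold Zc
      rw [map_smul]
    rw [h1, norm_smul, hn1, mul_pow]
  have hWc : (Wc p q Λ K β x).re = s - (n ^ 2 * q z).re + (Complex.I * n * w * Λ z).re := by
    unfold Wc
    rw [Complex.add_re, Complex.sub_re]
  rw [hBz, hWc]
  have hqz : ‖q z‖ ≤ C * ‖z‖ ^ 2 := hD.qb z
  have hΛz : ‖Λ z‖ ≤ ‖Λ‖ * ‖z‖ := Λ.le_opNorm z
  have hBz' : ‖B z‖ ≤ ‖B‖ * ‖z‖ := B.le_opNorm z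
  by_cases hnear : δ < r1
  · -- near part
    set R : ℝ := ‖z‖ ^ 2 + t ^ 2 with hR
    set Q : ℝ := ‖B z‖ ^ 2 + (q z).re + t * (Λ z).re + a * t ^ 2 with hQ
    have hR0 : 0 ≤ R := by positivity
    have htz : |t| * ‖z‖ ≤ R := by
      have h2 := two_mul_le_add_sq |t| ‖z‖
      rw [sq_abs] at h2
      have h3 : 0 ≤ |t| * ‖z‖ := by positivity
      rw [hR]
      linarith
    have hqre : |(q z).re| ≤ C * ‖z‖ ^ 2 := (Complex.abs_re_le_norm _).trans hqz
    have hΛre : |(Λ z).re| ≤ ‖Λ‖ * ‖z‖ := (Complex.abs_re_le_norm _).trans hΛz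
    have hzR : ‖z‖ ^ 2 ≤ R := le_add_of_nonneg_right (sq_nonneg t)
    have htR : t ^ 2 ≤ R := le_add_of_nonneg_left (sq_nonneg ‖z‖)
    have htΛ : |t * (Λ z).re| ≤ ‖Λ‖ * R := by
      rw [abs_mul]
      calc |t| * |(Λ z).re| ≤ |t| * (‖Λ‖ * ‖z‖) := mul_le_mul_of_nonneg_left hΛre (abs_nonneg _)
        _ = ‖Λ‖ * (|t| * ‖z‖) := by ring
        _ ≤ ‖Λ‖ * R := mul_le_mul_of_nonneg_left htz (norm_nonneg _)
    have hQ1 : R / 2 ≤ Q := by
      have := hD.pos z t hz0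
      linarith
    have hQ2 : Q ≤ C4 * R := by
      have e1 : ‖B z‖ ^ 2 ≤ ‖B‖ ^ 2 * R := by
        calc ‖B z‖ ^ 2 ≤ (‖B‖ * ‖z‖) ^ 2 := pow_le_pow_left₀ (norm_nonneg _) hBz' 2
          _ = ‖B‖ ^ 2 * ‖z‖ ^ 2 := by ring
          _ ≤ ‖B‖ ^ 2 * R := mul_le_mul_of_nonneg_left hzR (by positivity)
      have e2 : (q z).re ≤ C * R := (le_abs_self _).trans (hqre.trans
        (mul_le_mul_of_nonneg_left hzR hC))
      have e3 : t * (Λ z).re ≤ ‖Λ‖ * R := (le_abs_self _).trans htΛ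
      have e4 : a * t ^ 2 ≤ |a| * R := by
        calc a * t ^ 2 ≤ |a| * t ^ 2 := mul_le_mul_of_nonneg_right (le_abs_self _) (sq_nonneg _)
          _ ≤ |a| * R := mul_le_mul_of_nonneg_left htR (abs_nonneg _)
      rw [hC4]
      linarith
    have hout : Q < s * (1 + C * δ) + C * δ * R := hD.outer x hx (hnear.trans hr1r)
    -- `1 - μ ≥ 4 C7 δ`
    have hXδ : 2 * (4 * C7 * δ) ≤ X := by
      have e1 : δ / 2 ≤ ‖w‖ ^ β := by
        have e2 : δ ^ 2 / 2 ≤ ‖w‖ := by linarith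
        have e3 : (δ ^ 2 / 2) ^ β ≤ ‖w‖ ^ β := Real.rpow_le_rpow (by positivity) e2 hβ0.le
        refine le_trans ?_ e3
        rcases hδ0.eq_or_lt with h0 | h0
        · rw [← h0]
          simp only [zero_div]
          positivity
        · have e4 : (δ ^ 2 / 2) ^ (1 / 2 : ℝ) ≤ (δ ^ 2 / 2) ^ β := by
            apply Real.rpow_le_rpow_of_exponent_ge (by positivity)
            · have : δ ^ 2 ≤ 1 ^ 2 := pow_le_pow_left₀ hδ0 (hnear.le.trans hr11) 2
              linarith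
            · linarith
          refine le_trans ?_ e4
          rw [← Real.sqrt_eq_rpow]
          apply Real.le_sqrt_of_sq_le
          have : (δ / 2) ^ 2 = δ ^ 2 / 4 := by ring
          rw [this]
          have := sq_nonneg δ
          linarith
      have e5 : K / 2 * (δ / 2) ≤ X := (mul_le_mul_of_nonneg_left e1 (by positivity)).trans hX1
      have e6 : 32 * C7 ≤ K := by
        rw [hK]
        have : 0 ≤ 4 * C8 / (r1 ^ 2 * y1) := by positivity
        linarith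
      have e7 : 32 * C7 * δ ≤ K * δ := mul_le_mul_of_nonneg_right e6 hδ0
      linarith
    have hδC7 : δ * C7 ≤ 1 / 8 := (mul_le_mul_of_nonneg_right hnear.le (by linarith)).trans hr1C
    have hμδ : 4 * C7 * δ ≤ 1 - μ :=
      one_sub_exp_ge (by positivity) hXδ (by linarith)
    have hδ1 : C1 * δ < 1 := by
      have e1 : C1 ≤ C7 := by
        rw [hC7]
        have : 0 ≤ (C1 + C) * C4 := by positivity
        linarith
      have e2 : C1 * δ ≤ C7 * δ := mul_le_mul_of_nonneg_right e1 hδ0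
      linarith
    have hδμ : (2 * C + (C1 + C) * C4) * δ ≤ (1 - μ) / 4 := by
      have e1 : 2 * C + (C1 + C) * C4 ≤ C7 := by rw [hC7]; linarith
      have e2 := mul_le_mul_of_nonneg_right e1 hδ0
      linarith
    have hmain := near_ineq hs0 hR0 hQ1 hQ2 hμ0 hμ1 hδ0 hC hC1' hβ0 hβC hδ1 hδμ hout
    -- the estimate of the left side
    have ha : 0 ≤ a := by
      have h1 := hD.pos 0 1 (by simp)
      have h2 : q 0 = 0 := by
        have := hD.qh 0 0
        simpa using this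
      rw [h2] at h1
      simp at h1
      linarith
    have hA : 0 ≤ ‖B z‖ ^ 2 + (q z).re := by
      have h1 := hD.pos z 0 hz0
      have h2 : 0 ≤ ‖z‖ ^ 2 := by positivity
      simp at h1
      linarith
    have hn2μ : ‖n ^ 2 - ((μ : ℝ) : ℂ) ^ 2‖ ≤ 2 * (4 * β * (1 - μ)) := by
      have e1 : n ^ 2 - ((μ : ℝ) : ℂ) ^ 2 = (n + (μ : ℝ)) * (n - (μ : ℝ)) := by ring
      rw [e1, norm_mul]
      have e2 : ‖n + (μ : ℝ)‖ ≤ 2 := by
        refine (norm_add_le _ _).trans ?_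
        rw [hn1, Complex.norm_real, Real.norm_of_nonneg hμ0.le]
        linarith
      exact mul_le_mul e2 hnμ (norm_nonneg _) (by norm_num)
    have t1 : (n ^ 2 * q z).re ≤ μ ^ 2 * (q z).re + 2 * (4 * β * (1 - μ)) * (C * ‖z‖ ^ 2) := by
      have e1 : (n ^ 2 * q z).re = μ ^ 2 * (q z).re + ((n ^ 2 - ((μ : ℝ) : ℂ) ^ 2) * q z).re := by
        have e2 : n ^ 2 * q z = ((μ ^ 2 : ℝ) : ℂ) * q z + (n ^ 2 - ((μ : ℝ) : ℂ) ^ 2) * q z := by
          push_cast; ring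
        rw [e2, Complex.add_re, Complex.re_ofReal_mul]
      rw [e1]
      have e3 : ((n ^ 2 - ((μ : ℝ) : ℂ) ^ 2) * q z).re ≤ 2 * (4 * β * (1 - μ)) * (C * ‖z‖ ^ 2) := by
        refine (Complex.re_le_norm _).trans ?_
        rw [norm_mul]
        exact mul_le_mul hn2μ hqz (norm_nonneg _) (by
          have : 0 ≤ 1 - μ := by linarith
          positivity)
      linarith
    have t2 : -(Complex.I * n * w * Λ z).re ≤ μ * (t * (Λ z).re) +
        4 * β * (1 - μ) * (‖Λ‖ * (|t| * ‖z‖)) + s * μ * (‖Λ‖ * ‖z‖) := by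
      have e1 : -(Complex.I * n * w * Λ z) = ((μ * t : ℝ) : ℂ) * Λ z +
          ((t : ℂ) * (n - (μ : ℝ))) * Λ z - (Complex.I * s * n) * Λ z := by
        have e2 : w = s + t * Complex.I := (Complex.re_add_im w).symm
        have e3 : -(Complex.I * n * w * Λ z) = -(Complex.I * n * (s + t * Complex.I) * Λ z) := by
          rw [← e2]
        rw [e3]
        push_cast
        linear_combination (-(t : ℂ) * n * Λ z) * Complex.I_sq
      have e4 : -(Complex.I * n * w * Λ z).re = (-(Complex.I * n * w * Λ z)).re := by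
        rw [Complex.neg_re]
      rw [e4, e1, Complex.sub_re, Complex.add_re, Complex.re_ofReal_mul]
      have e5 : (((t : ℂ) * (n - (μ : ℝ))) * Λ z).re ≤
          4 * β * (1 - μ) * (‖Λ‖ * (|t| * ‖z‖)) := by
        refine (Complex.re_le_norm _).trans ?_
        rw [norm_mul, norm_mul, Complex.norm_real, Real.norm_eq_abs]
        have e6 : 0 ≤ 1 - μ := by linarith
        calc |t| * ‖n - (μ : ℝ)‖ * ‖Λ z‖ ≤ |t| * (4 * β * (1 - μ)) * (‖Λ‖ * ‖z‖) := by
              refine mul_le_mul ?_ hΛz (norm_nonneg _) (by positivity)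
              exact mul_le_mul_of_nonneg_left hnμ (abs_nonneg _)
          _ = _ := by ring
      have e7 : -((Complex.I * s * n) * Λ z).re ≤ s * μ * (‖Λ‖ * ‖z‖) := by
        refine (neg_le_abs _).trans ((Complex.abs_re_le_norm _).trans ?_)
        rw [norm_mul, norm_mul, norm_mul, Complex.norm_I, Complex.norm_real,
          Real.norm_of_nonneg hs0.le, hn1, one_mul]
        exact mul_le_mul_of_nonneg_left hΛz (by positivity)
      linarith
    have hconv : μ ^ 2 * (‖B z‖ ^ 2 + (q z).re) + μ * (t * (Λ z).re) ≤ μ * Q := by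
      have e1 : μ ^ 2 * (‖B z‖ ^ 2 + (q z).re) ≤ μ * (‖B z‖ ^ 2 + (q z).re) := by
        refine mul_le_mul_of_nonneg_right ?_ hA
        rw [pow_two]
        exact mul_le_of_le_one_left hμ0.le hμ1
      have e2 : 0 ≤ μ * (a * t ^ 2) := by positivity
      rw [hQ]
      linarith
    have t3 : 2 * (4 * β * (1 - μ)) * (C * ‖z‖ ^ 2) +
        4 * β * (1 - μ) * (‖Λ‖ * (|t| * ‖z‖)) ≤ 4 * β * C1 * (1 - μ) * R := by
      have e0 : 0 ≤ 1 - μ := by linarith
      have e1 : C * ‖z‖ ^ 2 ≤ C * R := mul_le_mul_of_nonneg_left hzR hC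
      have e2 : ‖Λ‖ * (|t| * ‖z‖) ≤ ‖Λ‖ * R := mul_le_mul_of_nonneg_left htz (norm_nonneg _)
      have e3 : 2 * (C * ‖z‖ ^ 2) + ‖Λ‖ * (|t| * ‖z‖) ≤ C1 * R := by
        rw [hC1]
        linarith
      have e4 := mul_le_mul_of_nonneg_left e3 (show 0 ≤ 4 * β * (1 - μ) by positivity)
      linarith
    have t4 : s * μ * (‖Λ‖ * ‖z‖) ≤ s * μ * C1 * δ := by
      have e1 : ‖Λ‖ * ‖z‖ ≤ C1 * δ := by
        refine mul_le_mul ?_ hzδ (norm_nonneg _) (by positivity)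
        rw [hC1]
        linarith
      have e2 := mul_le_mul_of_nonneg_left e1 (show 0 ≤ s * μ by positivity)
      linarith
    linarith
  · -- far part
    push Not at hnear
    have hs1 : r1 ^ 2 / 2 < s := by
      have : r1 ^ 2 ≤ δ ^ 2 := pow_le_pow_left₀ hr10.le hnear 2
      linarith
    have hμ2 : μ ^ 2 ≤ μ := by
      rw [pow_two]
      exact mul_le_of_le_one_left hμ0.le hμ1
    have hX2 : K / 2 * y1 ≤ X := by
      refine le_trans (mul_le_mul_of_nonneg_left ?_ (by positivity)) hX1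
      exact Real.rpow_le_rpow (by positivity) (hs1.le.trans hsw) hβ0.le
    have hX3 : 2 * C8 / r1 ^ 2 < X := by
      have e1 : 4 * C8 / (r1 ^ 2 * y1) < K := by rw [hK]; linarith
      have e2 : 4 * C8 / (r1 ^ 2 * y1) / 2 * y1 = 2 * C8 / r1 ^ 2 := by
        field_simp
        norm_num
      rw [← e2]
      refine lt_of_lt_of_le ?_ hX2
      refine mul_lt_mul_of_pos_right ?_ hy10
      linarith
    have hμX : μ * X ≤ 1 := by
      have := exp_mul_le (X := X)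
      have h3 : 0 < Real.exp (-X) := Real.exp_pos _
      rw [hμ]
      linarith
    have hμC : μ * C8 < r1 ^ 2 / 2 := by
      have e1 : μ * (2 * C8 / r1 ^ 2) < 1 := (mul_lt_mul_of_pos_left hX3 hμ0).trans_le hμX
      have e2 : μ * (2 * C8 / r1 ^ 2) = μ * C8 / (r1 ^ 2 / 2) := by
        field_simp
      rw [e2, div_lt_one (by positivity)] at e1
      exact e1
    have hz2 : ‖z‖ ^ 2 ≤ 4 := by
      have : ‖z‖ ^ 2 ≤ 2 ^ 2 := pow_le_pow_left₀ (norm_nonneg z) (hzδ.trans hδ22.le) 2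
      linarith
    have f1 : μ ^ 2 * ‖B z‖ ^ 2 ≤ μ * (4 * ‖B‖ ^ 2) := by
      have e1 : ‖B z‖ ^ 2 ≤ 4 * ‖B‖ ^ 2 := by
        calc ‖B z‖ ^ 2 ≤ (‖B‖ * ‖z‖) ^ 2 := pow_le_pow_left₀ (norm_nonneg _) hBz' 2
          _ = ‖B‖ ^ 2 * ‖z‖ ^ 2 := by ring
          _ ≤ ‖B‖ ^ 2 * 4 := mul_le_mul_of_nonneg_left hz2 (by positivity)
          _ = _ := by ring
      exact mul_le_mul hμ2 e1 (by positivity) hμ0.le
    have f2 : (n ^ 2 * q z).re ≤ μ * (4 * C) := by
      refine (Complex.re_le_norm _).trans ?_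
      rw [norm_mul, norm_pow, hn1]
      have e1 : ‖q z‖ ≤ 4 * C := by
        have := mul_le_mul_of_nonneg_left hz2 hC
        linarith
      exact mul_le_mul hμ2 e1 (norm_nonneg _) hμ0.le
    have f3 : -(Complex.I * n * w * Λ z).re ≤ μ * (4 * ‖Λ‖) := by
      refine (neg_le_abs _).trans ((Complex.abs_re_le_norm _).trans ?_)
      rw [norm_mul, norm_mul, norm_mul, Complex.norm_I, hn1, one_mul]
      have e1 : ‖Λ z‖ ≤ ‖Λ‖ * 2 := hΛz.trans (mul_le_mul_of_nonneg_left (by linarith) (norm_nonneg _))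
      calc μ * ‖w‖ * ‖Λ z‖ ≤ μ * 2 * (‖Λ‖ * 2) :=
            mul_le_mul (mul_le_mul_of_nonneg_left (by linarith) hμ0.le) e1 (norm_nonneg _)
              (by positivity)
        _ = _ := by ring
    have f4 : μ * (4 * ‖B‖ ^ 2) + μ * (4 * C) + μ * (4 * ‖Λ‖) ≤ μ * C8 := by
      have e1 : μ * C8 = μ * (4 * ‖B‖ ^ 2) + μ * (4 * C) + μ * (4 * ‖Λ‖) + μ := by
        rw [hC8]; ring
      linarith
    linarith

end Pool.Agent.H643.CB
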