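import Pool.Agent.H303.CB.Stm

/-! Part T5 of project CB: the approximate inverses map into `D`. -/

set_option autoImplicit false

open Metric Set Filter Topology
open scoped ContDiff

namespace Pool.Agent.H303.CB

namespace T5

variable {m : ℕ}

theorem inner_PP {p : E m} (hp : ‖p‖ = 1) (q : E m → ℂ) (ε : ℝ) {Z : E m} (W : ℂ)
    (hZ : inner ℂ p Z = 0) :
    inner ℂ p (PP p q ε Z W) = 1 - (ε : ℂ) ^ 2 * (W + q Z) := by
  unfold PP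
  rw [inner_sub_right, inner_add_right, inner_smul_right, inner_smul_right, hZ,
    inner_self_eq_norm_sq_to_K, hp]
  simp

theorem wc_PP {p : E m} (hp : ‖p‖ = 1) (q : E m → ℂ) (ε : ℝ) {Z : E m} (W : ℂ)
    (hZ : inner ℂ p Z = 0) : wc p (PP p q ε Z W) = ((ε ^ 2 : ℝ) : ℂ) * (W + q Z) := by
  unfold wc
  rw [inner_PP hp q ε W hZ]
  push_cast
  ring

theorem zc_PP {p : E m} (hp : ‖p‖ = 1) (q : E m → ℂ) (ε : ℝ) {Z : E m} (W : ℂ)
    (hZ : inner ℂ p Z = 0) : zc p (PP p q ε Z W) = (ε : ℂ) • Z := by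
  unfold zc
  rw [inner_PP hp q ε W hZ]
  unfold PP
  module

theorem cont_nhds (B : E m →L[ℂ] E m) (Z₀ : E m) (W₀ : ℂ) (h0 : ‖B Z₀‖ ^ 2 < W₀.re) :
    ∃ η > 0, ∀ (Z : E m) (W : ℂ), ‖Z - Z₀‖ < η → ‖W - W₀‖ < η →
      (W₀.re - ‖B Z₀‖ ^ 2) / 2 < W.re - ‖B Z‖ ^ 2 := by
  have hc : Continuous (fun x : E m × ℂ => x.2.re - ‖B x.1‖ ^ 2) := by fun_prop
  have h1 : ∀ᶠ x in 𝓝 (Z₀, W₀), (W₀.re - ‖B Z₀‖ ^ 2) / 2 < x.2.re - ‖B x.1‖ ^ 2 := by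
    have h2 : (W₀.re - ‖B Z₀‖ ^ 2) / 2 < W₀.re - ‖B Z₀‖ ^ 2 := by linarith
    exact hc.continuousAt.eventually (lt_mem_nhds h2)
  rw [Metric.eventually_nhds_iff] at h1
  obtain ⟨η, h2, h3⟩ := h1
  refine ⟨η, h2, fun Z W hZ hW => h3 (y := (Z, W)) ?_⟩
  rw [Prod.dist_eq]
  exact max_lt (by rwa [dist_eq_norm]) (by rwa [dist_eq_norm])

theorem sq_le_self' {ε : ℝ} (h0 : 0 < ε) (h1 : ε < 1) : ε ^ 2 ≤ ε := by nlinarith

theorem p43 {ε : ℝ} (h0 : 0 < ε) (h1 : ε < 1) : ε ^ 4 ≤ ε ^ 3 := by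
  have : 0 < ε ^ 3 := by positivity
  nlinarith

theorem p22 {ε : ℝ} (h0 : 0 < ε) (h1 : ε < 1) : (ε ^ 2) ^ 2 ≤ ε ^ 2 := by
  have : ε ^ 2 ≤ 1 := by nlinarith
  nlinarith [sq_nonneg ε]

end T5

open T5

theorem t_inv : S_inv := by
  intro m D p B B' q Λ a C r h Z₀ W₀ h0
  obtain ⟨η₁, hη₁, hcont⟩ := cont_nhds B Z₀ W₀ h0
  set c : ℝ := (W₀.re - ‖B Z₀‖ ^ 2) / 2 with hc
  have hcpos : 0 < c := by rw [hc]; linarith
  have hC := h.C0
  set A : ℝ := ‖Z₀‖ + 1 with hA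
  have hA1 : 1 ≤ A := by rw [hA]; linarith [norm_nonneg Z₀]
  set M : ℝ := A + (‖W₀‖ + 1) + C * A ^ 2 with hM
  have hCA : 0 ≤ C * A ^ 2 := by positivity
  have hM1 : 1 ≤ M := by rw [hM]; linarith [norm_nonneg W₀]
  set M2 : ℝ := M ^ 2 * ‖Λ‖ + |a| * M ^ 2 + 2 * C * M * (M + 2 * M ^ 2) with hM2
  have hM2pos : 0 ≤ M2 := by positivity
  refine ⟨min η₁ 1, min 1 (min (c / (M2 + 1)) (r / (2 * M))), lt_min hη₁ one_pos,
    lt_min one_pos (lt_min (by positivity) (div_pos h.r0 (by positivity))), ?_⟩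
  intro Z W ε hpZ hZ hW hε hε0
  have hε1 : ε < 1 := lt_of_lt_of_le hε0 (min_le_left _ _)
  have hε2 : ε < c / (M2 + 1) :=
    lt_of_lt_of_le hε0 ((min_le_right _ _).trans (min_le_left _ _))
  have hε3 : ε < r / (2 * M) :=
    lt_of_lt_of_le hε0 ((min_le_right _ _).trans (min_le_right _ _))
  have hZ1 : ‖Z - Z₀‖ < 1 := lt_of_lt_of_le hZ (min_le_right _ _)
  have hW1 : ‖W - W₀‖ < 1 := lt_of_lt_of_le hW (min_le_right _ _)
  have hkey := hcont Z W (lt_of_lt_of_le hZ (min_le_left _ _))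
    (lt_of_lt_of_le hW (min_le_left _ _))
  have hZA : ‖Z‖ ≤ A := by
    have : ‖Z‖ ≤ ‖Z₀‖ + ‖Z - Z₀‖ := by
      have := norm_add_le Z₀ (Z - Z₀)
      rwa [add_sub_cancel] at this
    rw [hA]; linarith
  have hWA : ‖W‖ ≤ ‖W₀‖ + 1 := by
    have : ‖W‖ ≤ ‖W₀‖ + ‖W - W₀‖ := by
      have := norm_add_le W₀ (W - W₀)
      rwa [add_sub_cancel] at this
    linarith
  have hZM : ‖Z‖ ≤ M := by rw [hM]; linarith [norm_nonneg W₀]
  have hqZ : ‖q Z‖ ≤ C * A ^ 2 := by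
    refine (h.qb Z).trans ?_
    gcongr
  have hwM : ‖W + q Z‖ ≤ M := by
    have := norm_add_le W (q Z)
    rw [hM]; linarith
  set w : ℂ := W + q Z with hw
  have hwre : |w.re| ≤ M := (Complex.abs_re_le_norm w).trans hwM
  have hwim : |w.im| ≤ M := (Complex.abs_im_le_norm w).trans hwM
  have e1 := wc_PP h.np q ε W hpZ
  have e2 := zc_PP h.np q ε W hpZ
  rw [← hw] at e1
  have hxp : ‖PP p q ε Z W - p‖ ≤ 2 * ε * M := by
    have e3 : PP p q ε Z W - p = (ε : ℂ) • Z - (((ε ^ 2 : ℝ) : ℂ) * w) • p := by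
      unfold PP
      rw [← hw]
      push_cast
      module
    rw [e3]
    refine (norm_sub_le _ _).trans ?_
    rw [norm_smul, norm_smul, norm_mul, h.np, Complex.norm_real, Complex.norm_real,
      Real.norm_of_nonneg hε.le, Real.norm_of_nonneg (sq_nonneg ε)]
    have h1 : ε * ‖Z‖ ≤ ε * M := by gcongr
    have h2 : ε ^ 2 * ‖w‖ ≤ ε * M := by
      have : ε ^ 2 ≤ ε := sq_le_self' hε hε1
      gcongr
    linarith
  apply h.inner'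
  · refine lt_of_le_of_lt hxp ?_
    rw [lt_div_iff₀ (by positivity)] at hε3
    linarith
  · rw [e1, e2, map_smul, norm_smul, h.qh, map_smul, norm_smul, Complex.norm_real,
      Real.norm_of_nonneg hε.le, Complex.re_ofReal_mul, Complex.im_ofReal_mul, smul_eq_mul,
      Complex.re_ofReal_mul, ← Complex.ofReal_pow, Complex.re_ofReal_mul]
    have hΛ : |(Λ Z).re| ≤ ‖Λ‖ * M := by
      refine (Complex.abs_re_le_norm _).trans ((Λ.le_opNorm Z).trans ?_)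
      gcongr
    have t1 : ε ^ 2 * w.im * (ε * (Λ Z).re) ≤ ε ^ 2 * (ε * (M ^ 2 * ‖Λ‖)) := by
      have h1 : w.im * (Λ Z).re ≤ M ^ 2 * ‖Λ‖ := by
        calc w.im * (Λ Z).re ≤ |w.im * (Λ Z).re| := le_abs_self _
          _ = |w.im| * |(Λ Z).re| := abs_mul _ _
          _ ≤ M * (‖Λ‖ * M) := by gcongr
          _ = M ^ 2 * ‖Λ‖ := by ring
      have h2 : ε ^ 3 * (w.im * (Λ Z).re) ≤ ε ^ 3 * (M ^ 2 * ‖Λ‖) := by gcongr
      linarith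
    have t2 : a * (ε ^ 2 * w.im) ^ 2 ≤ ε ^ 2 * (ε * (|a| * M ^ 2)) := by
      have h1 : a * w.im ^ 2 ≤ |a| * M ^ 2 := by
        have h3 : w.im ^ 2 ≤ M ^ 2 := by
          rw [← sq_abs w.im]
          gcongr
        calc a * w.im ^ 2 ≤ |a| * w.im ^ 2 := by gcongr; exact le_abs_self a
          _ ≤ |a| * M ^ 2 := by gcongr
      have h2 : ε ^ 4 * (a * w.im ^ 2) ≤ ε ^ 3 * (|a| * M ^ 2) := by
        have h4 : ε ^ 4 ≤ ε ^ 3 := p43 hε hε1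
        calc ε ^ 4 * (a * w.im ^ 2) ≤ ε ^ 4 * (|a| * M ^ 2) := by gcongr
          _ ≤ ε ^ 3 * (|a| * M ^ 2) := by gcongr
      linarith
    have t3 : C * ‖PP p q ε Z W - p‖ * (|ε ^ 2 * w.re| + (ε * ‖Z‖) ^ 2 + (ε ^ 2 * w.im) ^ 2) ≤
        ε ^ 2 * (ε * (2 * C * M * (M + 2 * M ^ 2))) := by
      have h1 : |ε ^ 2 * w.re| ≤ ε ^ 2 * M := by
        rw [abs_mul, abs_of_nonneg (sq_nonneg ε)]
        gcongr
      have h2 : (ε * ‖Z‖) ^ 2 ≤ ε ^ 2 * M ^ 2 := by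
        rw [mul_pow]
        gcongr
      have h3 : (ε ^ 2 * w.im) ^ 2 ≤ ε ^ 2 * M ^ 2 := by
        have h5 : w.im ^ 2 ≤ M ^ 2 := by
          rw [← sq_abs w.im]
          gcongr
        have h4 : (ε ^ 2) ^ 2 ≤ ε ^ 2 := p22 hε hε1
        rw [mul_pow]
        gcongr
      calc C * ‖PP p q ε Z W - p‖ * (|ε ^ 2 * w.re| + (ε * ‖Z‖) ^ 2 + (ε ^ 2 * w.im) ^ 2)
          ≤ C * (2 * ε * M) * (ε ^ 2 * M + ε ^ 2 * M ^ 2 + ε ^ 2 * M ^ 2) := by gcongr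
        _ = ε ^ 2 * (ε * (2 * C * M * (M + 2 * M ^ 2))) := by ring
    have t4 : ε * M2 < c := by
      rw [lt_div_iff₀ (by positivity)] at hε2
      linarith
    have hwre2 : w.re = W.re + (q Z).re := by rw [hw, Complex.add_re]
    have t5 : ε ^ 2 * (‖B Z‖ ^ 2 + (q Z).re + ε * M2) < ε ^ 2 * w.re := by
      apply mul_lt_mul_of_pos_left _ (by positivity)
      rw [hwre2]
      linarith
    have t6 : ε ^ 2 * (‖B Z‖ ^ 2 + (q Z).re + ε * M2) = (ε * ‖B Z‖) ^ 2 + ε ^ 2 * (q Z).re +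
        ε ^ 2 * (ε * (M ^ 2 * ‖Λ‖)) + ε ^ 2 * (ε * (|a| * M ^ 2)) +
        ε ^ 2 * (ε * (2 * C * M * (M + 2 * M ^ 2))) := by
      rw [hM2]
      ring
    linarith

end Pool.Agent.H303.CB

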