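import Mathlib
import Pool.Agent.H303.CB.Main
import Pool.Agent.H303.CB.T1
import Pool.Agent.H303.CB.T4
import Pool.Agent.H303.CB.T5
import Pool.Agent.H303.CB.T2

/-!
Transfer to the ball from domains with a smooth farthest point.
-/

set_option autoImplicit false

open Metric Set Filter Topology

namespace Pool.Agent.H303.CB

variable {m : ℕ}

/-- The boundary of `D` is of class `C³` near `p`. -/
def SmoothAt (D : Set (E m)) (p : E m) : Prop :=
  ∃ (U : Set (E m)) (ρ : E m → ℝ), IsOpen U ∧ p ∈ U ∧ ContDiffOn ℝ 3 ρ U ∧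
    (∀ x ∈ U, x ∈ D ↔ ρ x < 0) ∧ fderiv ℝ ρ p ≠ 0

theorem tp_unit {D : Set (E m)} {p : E m} (hD : IsOpen D)
    (hD1 : D ⊆ ball 0 1) (hp : ‖p‖ = 1) (hpD : p ∈ closure D) (hs : SmoothAt D p) : TP D p := by
  obtain ⟨U, ρ, hU, hpU, hρ, hUD, hne⟩ := hs
  obtain ⟨B, B', q, Λ, a, C, r, h⟩ := exists_LD t_taylor Pool.Agent.H253.CB.t_dec hD hD1 hp hpD hU
    hpU hρ hUD hne
  exact tp_of_LD Pool.Agent.H643.CB.t_map t_inv h

/-- affine change of coordinates -/
theorem tp_affine {D : Set (E m)} {p c : E m} {R : ℝ} (hR : 0 < R)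
    (h : TP {y : E m | c + (R : ℂ) • y ∈ D} ((R : ℂ)⁻¹ • (p - c))) : TP D p := by
  have hR' : (R : ℂ) ≠ 0 := by exact_mod_cast hR.ne'
  obtain ⟨G, G', e, he, hG, hG'1, hG'2, h1, h2⟩ := h
  have hS : ∀ x : E m, c + (R : ℂ) • ((R : ℂ)⁻¹ • (x - c)) = x := by
    intro x
    rw [smul_smul, mul_inv_cancel₀ hR', one_smul]; abel
  have hT : ∀ y : E m, (R : ℂ)⁻¹ • (c + (R : ℂ) • y - c) = y := by
    intro y
    rw [add_sub_cancel_left, smul_smul, inv_mul_cancel₀ hR', one_smul]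
  have hSd : Differentiable ℂ (fun x : E m => (R : ℂ)⁻¹ • (x - c)) := by fun_prop
  have hTd : Differentiable ℂ (fun y : E m => c + (R : ℂ) • y) := by fun_prop
  have hSm : MapsTo (fun x : E m => (R : ℂ)⁻¹ • (x - c)) D {y : E m | c + (R : ℂ) • y ∈ D} := by
    intro x hx
    change c + (R : ℂ) • ((R : ℂ)⁻¹ • (x - c)) ∈ D
    rwa [hS]
  have key : ∀ {N : ℕ} {C : ℝ} {W : Set (E m)} {g : Fin N → E m → ℂ},
      Solvable (D ∩ W) C (fun j x => g j ((R : ℂ)⁻¹ • (x - c))) →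
      Solvable ({y : E m | c + (R : ℂ) • y ∈ D} ∩ {y : E m | c + (R : ℂ) • y ∈ W}) C g := by
    rintro N C W g ⟨s, s1, s2, s3⟩
    refine ⟨fun j y => s j (c + (R : ℂ) • y), fun j => ?_, fun j y hy => s2 j _ hy, fun y hy => ?_⟩
    · exact (s1 j).comp hTd.differentiableOn (fun y hy => hy)
    · have := s3 _ hy
      simp only [hT] at this
      exact this
  refine ⟨fun k x => G k ((R : ℂ)⁻¹ • (x - c)), fun x => G' ((R : ℂ)⁻¹ • (x - c)), e, he,
    fun k => ⟨(hG k).1.comp hSd.differentiableOn hSm, fun x hx => (hG k).2 (hSm hx)⟩,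
    hG'1.comp hSd.differentiableOn hSm, fun x hx => hG'2 (hSm hx), ?_, ?_⟩
  · intro N f C W hW hpW hf hfr
    refine h1 N f C {y : E m | c + (R : ℂ) • y ∈ W} (hW.preimage hTd.continuous) ?_ hf ?_
    · change c + (R : ℂ) • ((R : ℂ)⁻¹ • (p - c)) ∈ W
      rwa [hS]
    · exact hfr.mono fun k hk => key (g := fun j x => f j (G k x)) hk
  · intro N δ F hFX hu C W hW hpW hsol
    refine h2 N δ F hFX hu C {y : E m | c + (R : ℂ) • y ∈ W} (hW.preimage hTd.continuous) ?_ ?_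
    · change c + (R : ℂ) • ((R : ℂ)⁻¹ • (p - c)) ∈ W
      rwa [hS]
    · exact key (g := fun j x => Dich.ex F j (G' x)) hsol

theorem tp_ball {D : Set (E m)} {p c : E m} {R : ℝ} (hR : 0 < R) (hD : IsOpen D)
    (hD1 : D ⊆ ball c R) (hp : ‖p - c‖ = R) (hpD : p ∈ closure D) (hs : SmoothAt D p) :
    TP D p := by
  have hR' : (R : ℂ) ≠ 0 := by exact_mod_cast hR.ne'
  have hS : ∀ x : E m, c + (R : ℂ) • ((R : ℂ)⁻¹ • (x - c)) = x := by
    intro x
    rw [smul_smul, mul_inv_cancel₀ hR', one_smul]; abel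
  have hT : ∀ y : E m, (R : ℂ)⁻¹ • (c + (R : ℂ) • y - c) = y := by
    intro y
    rw [add_sub_cancel_left, smul_smul, inv_mul_cancel₀ hR', one_smul]
  have hTc : Continuous (fun y : E m => c + (R : ℂ) • y) := by fun_prop
  have hSc : Continuous (fun x : E m => (R : ℂ)⁻¹ • (x - c)) := by fun_prop
  refine tp_affine hR (tp_unit (hD.preimage hTc) ?_ ?_ ?_ ?_)
  · intro y hy
    have h1 := hD1 hy
    rw [mem_ball, dist_eq_norm, add_sub_cancel_left, norm_smul, Complex.norm_real,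
      Real.norm_eq_abs, abs_of_pos hR] at h1
    rw [mem_ball_zero_iff]
    nlinarith
  · rw [norm_smul, norm_inv, Complex.norm_real, Real.norm_eq_abs, abs_of_pos hR, hp,
      inv_mul_cancel₀ hR.ne']
  · have h1 : (fun x : E m => (R : ℂ)⁻¹ • (x - c)) p ∈
        closure ((fun x : E m => (R : ℂ)⁻¹ • (x - c)) '' D) :=
      image_closure_subset_closure_image hSc ⟨p, hpD, rfl⟩
    refine closure_mono ?_ h1
    rintro _ ⟨x, hx, rfl⟩
    change c + (R : ℂ) • ((R : ℂ)⁻¹ • (x - c)) ∈ D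
    rwa [hS]
  · obtain ⟨U, ρ, hU, hpU, hρ, hUD, hne⟩ := hs
    have e1 : (fun y : E m => c + (R : ℂ) • y) = fun y : E m => c + R • y := by
      funext y; rw [Complex.coe_smul]
    have hTr : ContDiff ℝ 3 (fun y : E m => c + (R : ℂ) • y) := by
      rw [e1]; exact contDiff_const.add (contDiff_id.const_smul R)
    refine ⟨{y : E m | c + (R : ℂ) • y ∈ U}, fun y => ρ (c + (R : ℂ) • y), hU.preimage hTc, ?_,
      hρ.comp hTr.contDiffOn (fun y hy => hy), fun y hy => hUD _ hy, ?_⟩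
    · change c + (R : ℂ) • ((R : ℂ)⁻¹ • (p - c)) ∈ U
      rwa [hS]
    · intro h0
      apply hne
      have hρp : DifferentiableAt ℝ ρ (c + (R : ℂ) • ((R : ℂ)⁻¹ • (p - c))) := by
        rw [hS]
        exact (hρ.contDiffAt (hU.mem_nhds hpU)).differentiableAt (by norm_num)
      have hd : HasFDerivAt (fun y : E m => c + (R : ℂ) • y) (R • ContinuousLinearMap.id ℝ (E m))
          ((R : ℂ)⁻¹ • (p - c)) := by
        rw [e1]
        exact ((hasFDerivAt_id _).const_smul R).const_add c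
      have h2 : HasFDerivAt (fun y : E m => ρ (c + (R : ℂ) • y))
        ((fderiv ℝ ρ (c + (R : ℂ) • ((R : ℂ)⁻¹ • (p - c)))).comp
          (R • ContinuousLinearMap.id ℝ (E m))) ((R : ℂ)⁻¹ • (p - c)) :=
        HasFDerivAt.comp (g := ρ) (f := fun y : E m => c + (R : ℂ) • y) _ hρp.hasFDerivAt hd
      have h3 := h2.fderiv
      rw [h0, hS] at h3
      ext v
      have h4 := congrArg (fun L : E m →L[ℝ] ℝ => L (R⁻¹ • v)) h3
      simp only [ContinuousLinearMap.comp_apply, ContinuousLinearMap.smul_apply,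
        ContinuousLinearMap.zero_apply, ContinuousLinearMap.id_apply, smul_smul,
        mul_inv_cancel₀ hR.ne', one_smul] at h4
      exact h4.symm

/-- the farthest point of `D` from `c` -/
theorem farthest (hm : 0 < m) {D : Set (E m)} (hD : IsOpen D) (hne : D.Nonempty) {c p : E m}
    (hpD : p ∈ closure D) (hmax : ∀ x ∈ D, ‖x - c‖ ≤ ‖p - c‖) :
    0 < ‖p - c‖ ∧ D ⊆ ball c ‖p - c‖ := by
  have h1 : D ⊆ closedBall c ‖p - c‖ := by
    intro x hx
    rw [mem_closedBall, dist_eq_norm]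
    exact hmax x hx
  have h0 : ‖p - c‖ ≠ 0 := by
    intro h0
    rw [h0, closedBall_zero] at h1
    obtain ⟨x, hx⟩ := hne
    have h2 : D = {x} := by
      rw [Set.subset_singleton_iff] at h1
      have := h1 x hx
      ext y
      rw [mem_singleton_iff]
      exact ⟨fun hy => (h1 y hy).trans this.symm, fun hy => hy ▸ hx⟩
    haveI : Nonempty (Fin m) := ⟨⟨0, hm⟩⟩
    haveI : Nontrivial (E m) := inferInstance
    rw [h2] at hD
    exact not_isOpen_singleton x hD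
  refine ⟨lt_of_le_of_ne (norm_nonneg _) (Ne.symm h0), ?_⟩
  have h2 := interior_mono h1
  rwa [hD.interior_eq, interior_closedBall _ h0] at h2

theorem tp_farthest (hm : 0 < m) {D : Set (E m)} (hD : IsOpen D) (hne : D.Nonempty) {c p : E m}
    (hpD : p ∈ closure D) (hmax : ∀ x ∈ D, ‖x - c‖ ≤ ‖p - c‖) (hs : SmoothAt D p) : TP D p := by
  obtain ⟨h1, h2⟩ := farthest hm hD hne hpD hmax
  exact tp_ball h1 hD h2 rfl hpD hs

/-- Corona data on `D`: holomorphic functions with `|F_j| ≤ 1` and `∑ |F_j| ≥ δ`. -/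
def Data {N : ℕ} (D : Set (E m)) (δ : ℝ) (F : Fin N → E m → ℂ) : Prop :=
  (∀ j, DifferentiableOn ℂ (F j) D) ∧ (∀ j, ∀ z ∈ D, ‖F j z‖ ≤ 1) ∧ ∀ z ∈ D, δ ≤ ∑ j, ‖F j z‖

theorem Data.comp {N : ℕ} {D D' : Set (E m)} {δ : ℝ} {F : Fin N → E m → ℂ} (h : Data D' δ F)
    {G : E m → E m} (hG : DifferentiableOn ℂ G D) (hG' : MapsTo G D D') :
    Data D δ (fun j x => F j (G x)) :=
  ⟨fun j => (h.1 j).comp hG hG', fun j z hz => h.2.1 j _ (hG' hz), fun z hz => h.2.2 _ (hG' hz)⟩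

theorem part1 {D : Set (E m)} {p : E m} (h : TP D p) {N : ℕ} {δ C : ℝ} {W : Set (E m)}
    (hW : IsOpen W) (hpW : p ∈ W)
    (hs : ∀ F : Fin N → E m → ℂ, Data D δ F → Solvable (D ∩ W) C F) (F : Fin N → E m → ℂ)
    (hF : Data (ball 0 1) δ F) : Solvable (ball 0 1) C F := by
  obtain ⟨G, G', e, he, hG, hG'1, hG'2, h1, h2⟩ := h
  refine h1 N F C W hW hpW hF.1 (Eventually.frequently (Eventually.of_forall fun k => ?_))
  exact hs _ (hF.comp (hG k).1 (hG k).2)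

theorem mkC_mem {N : ℕ} {δ δ' : ℝ} (hδ : 0 < δ) (hδ' : δ < δ') {F' : Fin N → E m → ℂ}
    (hF' : Data (ball 0 1) δ' F') :
    Dich.mkC F' hF'.1 ∈ closure (Dich.Str δ : Set (Dich.CB m N)) := by
  refine Dich.dat_sub hδ' (hδ.trans hδ').le ⟨⟨F', hF'.1, fun _ _ => rfl⟩, fun z => ⟨fun j => ?_, ?_⟩⟩
  · exact hF'.2.1 j z z.2
  · exact hF'.2.2 z z.2

theorem part2 {D : Set (E m)} {p : E m} (h : TP D p) {N : ℕ} {δ : ℝ} (hδ : 0 < δ)
    (hs : ∀ F : Fin N → E m → ℂ, Data D δ F → ∃ (C : ℝ) (W : Set (E m)), IsOpen W ∧ p ∈ W ∧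
      Solvable (D ∩ W) C F) {δ' : ℝ} (hδ' : δ < δ') :
    ∃ C : ℝ, ∀ F : Fin N → E m → ℂ, Data (ball 0 1) δ' F → Solvable (ball 0 1) C F := by
  obtain ⟨G, G', e, he, hG, hG'1, hG'2, h1, h2⟩ := h
  by_cases hne : (closure (Dich.Str δ : Set (Dich.CB m N))).Nonempty
  · haveI : Nonempty (closure (Dich.Str δ : Set (Dich.CB m N))) := hne.to_subtype
    haveI := Dich.baire _ (isClosed_closure (s := (Dich.Str δ : Set (Dich.CB m N))))
    obtain ⟨⟨F, hFX⟩, hF⟩ := (dense_of_mem_residual (Dich.univP_residual (N := N) hδ he)).nonempty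
    have hdat : F ∈ Dich.Dat δ := closure_minimal (Dich.str_sub δ) (Dich.closed_dat δ) hFX
    have hD1 : Data (ball 0 1) δ (Dich.ex F) := by
      refine ⟨fun j => Dich.ex_diff hdat.1 j, fun j z hz => ?_, fun z hz => ?_⟩
      · rw [Dich.ex_apply F j hz]; exact (hdat.2 ⟨z, hz⟩).1 j
      · simp only [Dich.ex_apply F _ hz]; exact (hdat.2 ⟨z, hz⟩).2
    obtain ⟨C, W, hW, hpW, hsol⟩ := hs _ (hD1.comp hG'1 hG'2)
    refine ⟨C, fun F' hF' => ?_⟩
    have hmem := mkC_mem hδ hδ' hF'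
    obtain ⟨g, g1, g2, g3⟩ := h2 N δ F hFX hF C W hW hpW hsol _ hmem
    refine ⟨g, g1, g2, fun z hz => ?_⟩
    rw [← g3 z hz]
    exact Finset.sum_congr rfl fun j _ => by rw [Dich.ex_apply _ j hz, Dich.mkC_apply]
  · refine ⟨0, fun F' hF' => ?_⟩
    exact absurd ⟨_, mkC_mem hδ hδ' hF'⟩ hne

end Pool.Agent.H303.CB
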