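import Mathlib
import Pool.Agent.H303.CB.Fin
import Pool.Agent.H576.CR.Fin
import Pool.Agent.H122.CRNET
import Pool.Agent.H253.CRTAIL
import Pool.Agent.H766.CREXP
import Pool.Agent.H795.CRALG
import Pool.Agent.H962.CRFLAT
import Pool.Agent.H996.CRNUM

/-!
Lower dimensions, and the growth of the constants with the dimension.
-/

set_option autoImplicit false

open Metric Set Filter Topology

namespace Pool.Agent.H303.CB

/-- the inclusion -/
noncomputable def iot (k d : ℕ) : E k →ₗ[ℂ] E (k + d) where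
  toFun y := WithLp.toLp 2 (Fin.append (fun i => y i) (fun _ : Fin d => (0 : ℂ)))
  map_add' x y := by
    ext i
    refine Fin.addCases (fun i => ?_) (fun i => ?_) i <;> simp
  map_smul' c x := by
    ext i
    refine Fin.addCases (fun i => ?_) (fun i => ?_) i <;> simp

/-- the projection -/
noncomputable def pro (k d : ℕ) : E (k + d) →ₗ[ℂ] E k where
  toFun x := WithLp.toLp 2 (fun i => x (Fin.castAdd d i))
  map_add' x y := by ext i; simp
  map_smul' c x := by ext i; simp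

theorem norm_iot {k d : ℕ} (y : E k) : ‖iot k d y‖ = ‖y‖ := by
  rw [EuclideanSpace.norm_eq, EuclideanSpace.norm_eq, Fin.sum_univ_add]
  congr 1
  simp [iot]

theorem norm_pro {k d : ℕ} (x : E (k + d)) : ‖pro k d x‖ ≤ ‖x‖ := by
  rw [EuclideanSpace.norm_eq, EuclideanSpace.norm_eq, Fin.sum_univ_add]
  apply Real.sqrt_le_sqrt
  have h1 : ∑ i : Fin k, ‖(pro k d x) i‖ ^ 2 = ∑ i : Fin k, ‖x (Fin.castAdd d i)‖ ^ 2 := by
    simp [pro]
  rw [h1]
  have : 0 ≤ ∑ i : Fin d, ‖x (Fin.natAdd k i)‖ ^ 2 := Finset.sum_nonneg fun i _ => sq_nonneg _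
  linarith

theorem pro_iot {k d : ℕ} (y : E k) : pro k d (iot k d y) = y := by
  ext i
  simp [pro, iot]

theorem down {k m : ℕ} (hkm : k ≤ m) {N : ℕ} {δ C : ℝ}
    (h : ∀ F : Fin N → E m → ℂ, Data (ball 0 1) δ F → Solvable (ball 0 1) C F)
    (F : Fin N → E k → ℂ) (hF : Data (ball 0 1) δ F) : Solvable (ball 0 1) C F := by
  obtain ⟨d, rfl⟩ := Nat.exists_eq_add_of_le hkm
  have d1 : Differentiable ℂ (fun x => pro k d x) :=
    (LinearMap.toContinuousLinearMap (pro k d)).differentiable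
  have d2 : Differentiable ℂ (fun y => iot k d y) :=
    (LinearMap.toContinuousLinearMap (iot k d)).differentiable
  have m1 : MapsTo (fun x => pro k d x) (ball (0 : E (k + d)) 1) (ball (0 : E k) 1) := by
    intro x hx
    rw [mem_ball_zero_iff] at hx ⊢
    exact (norm_pro x).trans_lt hx
  have m2 : MapsTo (fun y => iot k d y) (ball (0 : E k) 1) (ball (0 : E (k + d)) 1) := by
    intro y hy
    rw [mem_ball_zero_iff] at hy ⊢
    rwa [norm_iot]
  obtain ⟨g, g1, g2, g3⟩ := h (fun j x => F j (pro k d x))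
    ⟨fun j => (hF.1 j).comp d1.differentiableOn m1, fun j z hz => hF.2.1 j _ (m1 hz),
      fun z hz => hF.2.2 _ (m1 hz)⟩
  refine ⟨fun j y => g j (iot k d y), fun j => (g1 j).comp d2.differentiableOn m2,
    fun j y hy => g2 j _ (m2 hy), fun y hy => ?_⟩
  have := g3 _ (m2 hy)
  simp only [pro_iot] at this
  exact this

/-- The class of the domains considered: bounded nonempty open sets with boundary of class `C³`. -/
def SmoothDomain {m : ℕ} (D : Set (E m)) : Prop :=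
  IsOpen D ∧ D.Nonempty ∧ Bornology.IsBounded D ∧ ∃ (U : Set (E m)) (ρ : E m → ℝ), IsOpen U ∧
    closure D ⊆ U ∧ ContDiffOn ℝ 3 ρ U ∧ D = {x ∈ U | ρ x < 0} ∧
    ∀ p ∈ frontier D, fderiv ℝ ρ p ≠ 0

theorem SmoothDomain.smoothAt {m : ℕ} {D : Set (E m)} (h : SmoothDomain D) {p : E m}
    (hp : p ∈ frontier D) : SmoothAt D p := by
  obtain ⟨hD, hne, hb, U, ρ, hU, hDU, hρ, hUD, hg⟩ := h
  refine ⟨U, ρ, hU, hDU (frontier_subset_closure hp), hρ, fun x hx => ?_, hg p hp⟩
  constructor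
  · intro h1
    rw [hUD] at h1
    exact h1.2
  · intro h1
    rw [hUD]
    exact ⟨hx, h1⟩

theorem SmoothDomain.exists_far {m : ℕ} (hm : 0 < m) {D : Set (E m)} (h : SmoothDomain D)
    (c : E m) : ∃ p ∈ frontier D, ∀ x ∈ D, ‖x - c‖ ≤ ‖p - c‖ := by
  obtain ⟨hD, hne, hb, -⟩ := h
  have hcomp : IsCompact (closure D) := hb.isCompact_closure
  obtain ⟨p, hp, hmax⟩ := hcomp.exists_isMaxOn (hne.mono subset_closure)
    ((continuous_id.sub continuous_const).norm.continuousOn (s := closure D) :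
      ContinuousOn (fun x : E m => ‖x - c‖) (closure D))
  have hmax' : ∀ x ∈ D, ‖x - c‖ ≤ ‖p - c‖ := fun x hx => hmax (subset_closure hx)
  refine ⟨p, ?_, hmax'⟩
  obtain ⟨h1, h2⟩ := farthest hm hD hne hp hmax'
  rw [hD.frontier_eq]
  refine ⟨hp, fun hpD => ?_⟩
  have := h2 hpD
  rw [mem_ball, dist_eq_norm] at this
  exact lt_irrefl _ this

open MvPolynomial in
/-- The growth of the corona constants with the dimension. -/
theorem growth : ∃ (c : ℝ) (C n₀ : ℕ), 0 < c ∧ ∀ n ≥ n₀, ∀ D : Set (E n), SmoothDomain D →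
    ∀ δ : ℝ, 0 < δ → δ < c → ∃ N ≤ C * n, ∃ F : Fin (N + 1) → E n → ℂ,
      (∀ j, DifferentiableOn ℂ (F j) D) ∧
      (∀ z ∈ D, δ ^ 2 < ∑ j, ‖F j z‖ ^ 2 ∧ ∑ j, ‖F j z‖ ^ 2 ≤ 1) ∧
      ∀ h : Fin (N + 1) → E n → ℂ, (∀ j, DifferentiableOn ℂ (h j) D) →
        (∀ z ∈ D, ∑ j, F j z * h j z = 1) →
        ∃ j, ∃ z ∈ D, (c / δ) ^ (c * n) < ‖h j z‖ := by
  obtain ⟨c, C, n₀, hc, hcore⟩ := Pool.Agent.H576.CR.core
    (Pool.Agent.H962.cr_flat Pool.Agent.H122.cr_net (Pool.Agent.H253.cr_up Pool.Agent.H766.cr_exp)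
      (Pool.Agent.H253.cr_lo Pool.Agent.H766.cr_exp Pool.Agent.H766.cr_sq))
    Pool.Agent.H795.cr_alg Pool.Agent.H996.cr_num
  refine ⟨c, C, max n₀ 1, hc, fun n hn D hD δ hδ hδc => ?_⟩
  have hn0 : n₀ ≤ n := (le_max_left _ _).trans hn
  have hn1 : 0 < n := (le_max_right _ _).trans hn
  obtain ⟨N, hN, f, hf1, hf2, hf3, hf4⟩ := hcore n hn0 1 δ le_rfl hδ (by simpa using hδc)
  obtain ⟨p, hp, hmax⟩ := hD.exists_far hn1 0
  obtain ⟨G, G', e, he, hG, hG'1, hG'2, h1, h2⟩ := tp_farthest hn1 hD.1 hD.2.1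
    (frontier_subset_closure hp) hmax (hD.smoothAt hp)
  set M : ℝ := (c / δ) ^ (c * n) with hM
  set fE : Fin (N + 1) → E n → ℂ := fun j x => eval (fun i => x i) (f j) with hfE
  have hfd : ∀ j, Differentiable ℂ (fE j) := by
    intro j
    have h3 : Differentiable ℂ (fun z : Fin n → ℂ => eval z (f j)) := by
      induction f j using MvPolynomial.induction_on with
      | C a => simp
      | add p q hp hq =>
        simp only [map_add]
        exact hp.fun_add hq
      | mul_X p i hp =>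
        simp only [map_mul, eval_X]
        exact hp.fun_mul (differentiable_apply i)
    have h4 : Differentiable ℂ (fun x : E n => (fun i => x i)) := by
      rw [differentiable_pi]
      intro i
      exact (EuclideanSpace.proj (𝕜 := ℂ) i).differentiable
    exact h3.comp h4
  by_contra hcon
  push Not at hcon
  have hall : ∀ k, Solvable (D ∩ univ) M (fun j x => fE j (G k x)) := by
    intro k
    obtain ⟨h, hh1, hh2, hh3⟩ := hcon N hN (fun j x => fE j (G k x))
      (fun j => (hfd j).comp_differentiableOn (hG k).1) (fun z hz => by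
        have hb := (hG k).2 hz
        rw [mem_ball_zero_iff] at hb
        refine ⟨hf2 _, hf3 _ ?_⟩
        have h5 : ∑ i, ‖(G k z) i‖ ^ 2 = ‖G k z‖ ^ 2 := (EuclideanSpace.norm_sq_eq _).symm
        rw [h5]
        nlinarith [norm_nonneg (G k z)])
    rw [inter_univ]
    exact ⟨h, hh1, fun j z hz => hh3 j z hz, hh2⟩
  obtain ⟨g, g1, g2, g3⟩ := h1 (N + 1) fE M univ isOpen_univ (mem_univ _)
    (fun j => (hfd j).differentiableOn) (Eventually.frequently (Eventually.of_forall hall))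
  have hball : ∀ z ∈ Pool.Agent.H576.CR.Bn n, WithLp.toLp 2 z ∈ ball (0 : E n) 1 := by
    intro z hz
    have hz' : ∑ i, ‖z i‖ ^ 2 < 1 := hz
    rw [mem_ball_zero_iff]
    have h5 : ‖(WithLp.toLp 2 z : E n)‖ ^ 2 = ∑ i, ‖z i‖ ^ 2 := EuclideanSpace.norm_sq_eq _
    nlinarith [norm_nonneg (WithLp.toLp 2 z : E n)]
  have hdl : Differentiable ℂ (fun z : Fin n → ℂ => (WithLp.toLp 2 z : E n)) :=
    (PiLp.continuousLinearEquiv 2 ℂ (fun _ : Fin n => ℂ)).symm.differentiable
  obtain ⟨z, hz1, hz2⟩ := hf4 (fun j z => g j (WithLp.toLp 2 z))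
    (fun j => (g1 j).comp hdl.differentiableOn hball) (fun z hz => by
      have := g3 _ (hball z hz)
      simpa [hfE] using this)
  have hz3 : z ∈ Pool.Agent.H576.CR.Bn n := by
    change ∑ i, ‖z i‖ ^ 2 < 1
    have hz1' : ∑ i, ‖z i‖ ^ 2 < 1 / 4 := hz1
    linarith
  have h6 := g2 0 _ (hball z hz3)
  have h7 : (c / (1 ^ 2 * δ)) ^ (c * (n : ℝ)) = M := by rw [hM]; norm_num
  rw [h7] at hz2
  exact absurd (hz2.trans_le h6) (lt_irrefl _)

end Pool.Agent.H303.CB
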